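import Pool.Agent.Run7.h281.Tab
set_option autoImplicit false

/-! Atoms, accumulated moments, balls with magnitude. -/

namespace Run7.h281

open Complex

/-- an atom: index of the point, weight -/
structure At where
  j : ℕ
  x : ℤ
  y : ℤ

def atm (j : ℕ) (x y : ℤ) : At := fN j fun j => fI x fun x => fI y fun y => ⟨j, x, y⟩

/-- decode `n` atoms -/
def dec : ℕ → ℕ → List At
  | 0, _ => []
  | n + 1, c => atm (c % 64) (Int.subNatNat (c / 64 % 131072) 65536)
      (Int.subNatNat (c / 8388608 % 131072) 65536) :: fN (c / 1099511627776) fun c => dec n c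

def mulS (a : ℤ) (X : ℕ) : ℕ := match a with
  | .ofNat n => n * X
  | .negSucc n => (n + 1) * (T2 - X)

structure Ac where
  A : ℕ
  B : ℕ
  C : ℕ
  D : ℕ
  wx : ℕ
  wy : ℕ
  lm : ℕ

def ac (A B C D wx wy lm : ℕ) : Ac := fN A fun A => fN B fun B => fN C fun C => fN D fun D =>
  fN wx fun wx => fN wy fun wy => fN lm fun lm => ⟨A, B, C, D, wx, wy, lm⟩

theorem ac_eq (A B C D wx wy lm : ℕ) : ac A B C D wx wy lm = ⟨A, B, C, D, wx, wy, lm⟩ := by
  simp [ac]

def stp (x y : ℤ) (e : Ent) (s : Ac) : Ac :=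
  ac (s.A + mulS x e.X) (s.B + mulS y e.Y) (s.C + mulS x e.Y) (s.D + mulS y e.X)
    (s.wx + x.natAbs) (s.wy + y.natAbs)
    (s.lm + sq ((x.natAbs * x.natAbs + y.natAbs * y.natAbs) * (S * S)))

def acc : List At → Ac → Ac
  | [], s => s
  | ⟨j, x, y⟩ :: L, s => match stp x y (ent j) s with
    | ⟨A, B, C, D, wx, wy, lm⟩ => acc L ⟨A, B, C, D, wx, wy, lm⟩

theorem acc_cons (a : At) (L : List At) (s : Ac) : acc (a :: L) s = acc L (stp a.x a.y (ent a.j) s) := by
  rfl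

/-- meaning of an accumulator -/
structure AcOK (L : List (ℂ × ℂ)) (gA gB gC gD : ℕ → ℝ) (s : Ac) : Prop where
  hA : SD s.wx gA 64 s.A
  hB : SD s.wy gB 64 s.B
  hC : SD s.wx gC 64 s.C
  hD : SD s.wy gD 64 s.D
  hP : ∀ k, lin L (fun z => z ^ k) = ⟨gA k - gB k, gC k + gD k⟩
  hM : ∀ k, lin L (fun z => (z ^ k)⁻¹) = ⟨gA k + gB k, gD k - gC k⟩
  hl : wt L * S ≤ s.lm
  uc : UC L

theorem SD_mulS {g : ℕ → ℝ} {n X : ℕ} (a : ℤ) (hb : 2 * S * a.natAbs < W) (h : SD 1 g n X)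
    (h' : SD 1 (fun k => -g k) n (T2 - X)) : SD a.natAbs (fun k => a * g k) n (mulS a X) := by
  cases a with
  | ofNat m =>
    have := SD.mul m (by simpa using hb) n h
    simpa [mulS] using this
  | negSucc m =>
    have := SD.mul (m + 1) (by simpa using hb) n h'
    rw [mul_one] at this
    refine SD.congr n this ?_
    intro k
    rw [Int.cast_negSucc]
    push_cast
    ring

theorem norm_cv_natAbs (x y : ℤ) :
    ‖cv x y‖ * S ≤ (sq ((x.natAbs * x.natAbs + y.natAbs * y.natAbs) * (S * S)) : ℝ) := by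
  have h1 := sq_spec ((x.natAbs * x.natAbs + y.natAbs * y.natAbs) * (S * S))
  set t := sq ((x.natAbs * x.natAbs + y.natAbs * y.natAbs) * (S * S))
  have h2 : (((x.natAbs * x.natAbs + y.natAbs * y.natAbs) * (S * S) : ℕ) : ℝ) ≤ (t : ℝ) * t := by
    exact_mod_cast h1
  have h3 : ((x.natAbs : ℝ)) ^ 2 = (x : ℝ) ^ 2 := by
    rw [Nat.cast_natAbs, Int.cast_abs, sq_abs]
  have h4 : ((y.natAbs : ℝ)) ^ 2 = (y : ℝ) ^ 2 := by
    rw [Nat.cast_natAbs, Int.cast_abs, sq_abs]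
  have h5 : (‖cv x y‖ * S) ^ 2 ≤ (t : ℝ) ^ 2 := by
    rw [mul_pow, norm_cv_sq, ← h3, ← h4]
    push_cast at h2
    linarith [h2]
  exact (abs_le_of_sq_le_sq' h5 (by positivity)).2

theorem conj_inv_pow {z : ℂ} (hz : ‖z‖ = 1) (k : ℕ) : (z ^ k)⁻¹ = (starRingEnd ℂ) (z ^ k) := by
  rw [Complex.inv_def, Complex.normSq_eq_norm_sq, norm_pow, hz]
  simp

theorem AcOK.stp {L : List (ℂ × ℂ)} {gA gB gC gD : ℕ → ℝ} {s : Ac} (h : AcOK L gA gB gC gD s)
    (x y : ℤ) (j : ℕ)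
    (hb : 2 * S * ((stp x y (ent j) s).wx + (stp x y (ent j) s).wy) < W) :
    AcOK ((cv x y, (ent j).pt) :: L)
      (fun k => gA k + x * ((ent j).pt ^ k).re) (fun k => gB k + y * ((ent j).pt ^ k).im)
      (fun k => gC k + x * ((ent j).pt ^ k).im) (fun k => gD k + y * ((ent j).pt ^ k).re)
      (stp x y (ent j) s) := by
  obtain ⟨e1, e2, e3, e4⟩ := ent_spec j
  obtain ⟨r1, r2, r3, r4⟩ := sd_of_row 64 _ _ _ _ _ e2 e3 e4
  unfold Run7.h281.stp at hb ⊢
  rw [ac_eq] at hb ⊢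
  simp only at hb
  have hx : 2 * S * (s.wx + x.natAbs) < W := lt_of_le_of_lt (Nat.mul_le_mul_left _ (by omega)) hb
  have hy : 2 * S * (s.wy + y.natAbs) < W := lt_of_le_of_lt (Nat.mul_le_mul_left _ (by omega)) hb
  have hx' : 2 * S * x.natAbs < W := lt_of_le_of_lt (Nat.mul_le_mul_left _ (by omega)) hb
  have hy' : 2 * S * y.natAbs < W := lt_of_le_of_lt (Nat.mul_le_mul_left _ (by omega)) hb
  refine ⟨SD.add hx 64 h.hA (SD_mulS x hx' r1 r2), SD.add hy 64 h.hB (SD_mulS y hy' r3 r4),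
    SD.add hx 64 h.hC (SD_mulS x hx' r3 r4), SD.add hy 64 h.hD (SD_mulS y hy' r1 r2),
    ?_, ?_, ?_, ?_⟩
  · intro k
    rw [lin_cons, h.hP k]
    apply Complex.ext
    · simp only [add_re, mul_re, cv_re, cv_im]; ring
    · simp only [add_im, mul_im, cv_re, cv_im]; ring
  · intro k
    rw [lin_cons, h.hM k, conj_inv_pow e1]
    apply Complex.ext
    · simp only [add_re, mul_re, cv_re, cv_im, conj_re, conj_im]; ring
    · simp only [add_im, mul_im, cv_re, cv_im, conj_re, conj_im]; ring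
  · rw [wt_cons, add_mul]
    have := norm_cv_natAbs x y
    have h2 := h.hl
    push_cast
    linarith
  · intro a ha
    rcases List.mem_cons.1 ha with rfl | ha
    · exact e1
    · exact h.uc a ha

theorem acc_mono (L : List At) : ∀ s : Ac, s.wx + s.wy ≤ (acc L s).wx + (acc L s).wy := by
  induction L with
  | nil => intro s; exact le_refl _
  | cons a L ih =>
    intro s
    rw [acc_cons]
    refine le_trans ?_ (ih _)
    unfold stp
    rw [ac_eq]
    simp only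
    omega

theorem acc_ok (L : List At) : ∀ (s : Ac) (L' : List (ℂ × ℂ)) (gA gB gC gD : ℕ → ℝ),
    AcOK L' gA gB gC gD s → 2 * S * ((acc L s).wx + (acc L s).wy) < W →
    ∃ (L'' : List (ℂ × ℂ)) (gA gB gC gD : ℕ → ℝ), AcOK L'' gA gB gC gD (acc L s) := by
  induction L with
  | nil => intro s L' gA gB gC gD h _; exact ⟨L', gA, gB, gC, gD, h⟩
  | cons a L ih =>
    intro s L' gA gB gC gD h hb
    rw [acc_cons] at hb ⊢
    refine ih _ _ _ _ _ _ (h.stp a.x a.y a.j ?_) hb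
    refine lt_of_le_of_lt (Nat.mul_le_mul_left _ (acc_mono L _)) hb

theorem AcOK.zero : AcOK [] (fun _ => 0) (fun _ => 0) (fun _ => 0) (fun _ => 0)
    ⟨0, 0, 0, 0, 0, 0, 0⟩ := by
  refine ⟨SD.zero 64, SD.zero 64, SD.zero 64, SD.zero 64, ?_, ?_, ?_, ?_⟩
  · intro k
    rw [lin_nil]
    apply Complex.ext <;> simp
  · intro k
    rw [lin_nil]
    apply Complex.ext <;> simp
  · simp [wt]
  · intro a ha
    simp at ha

/-! ### lists of moments -/

/-- the list approximates `S f` up to `ε` -/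
def MomOK (ε : ℕ) : (ℕ → ℂ) → List GI → Prop
  | _, [] => True
  | f, g :: t => ‖(S : ℂ) * f 0 - cv g.x g.y‖ ≤ ε ∧ MomOK ε (fun k => f (k + 1)) t

def mP (wx wy : ℕ) : ℕ → ℕ → ℕ → ℕ → ℕ → List GI
  | 0, _, _, _, _ => []
  | n + 1, A, B, C, D => gi (Int.subNatNat (A % W + wy) (B % W + wx))
      (Int.subNatNat (C % W + D % W) (wx + wy)) ::
    fN (A / W) fun A => fN (B / W) fun B => fN (C / W) fun C => fN (D / W) fun D =>
      mP wx wy n A B C D

def mM (wx wy : ℕ) : ℕ → ℕ → ℕ → ℕ → ℕ → List GI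
  | 0, _, _, _, _ => []
  | n + 1, A, B, C, D => gi (Int.subNatNat (A % W + B % W) (wx + wy))
      (Int.subNatNat (D % W + wx) (C % W + wy)) ::
    fN (A / W) fun A => fN (B / W) fun B => fN (C / W) fun C => fN (D / W) fun D =>
      mM wx wy n A B C D

theorem SD.mono {w : ℕ} (n : ℕ) : ∀ {m : ℕ} {g : ℕ → ℝ} {X : ℕ}, SD w g m X → n ≤ m →
    SD w g n X := by
  induction n with
  | zero => intro m g X _ _; trivial
  | succ n ih =>
    intro m g X h hm
    obtain ⟨m, rfl⟩ : ∃ m', m = m' + 1 := ⟨m - 1, by omega⟩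
    exact ⟨h.1, h.2.1, ih h.2.2 (by omega)⟩

theorem mP_ok {wx wy : ℕ} (n : ℕ) : ∀ {gA gB gC gD : ℕ → ℝ} {A B C D : ℕ}, SD wx gA n A →
    SD wy gB n B → SD wx gC n C → SD wy gD n D →
    MomOK (200 * (wx + wy)) (fun k => ⟨gA k - gB k, gC k + gD k⟩)
      (mP (wx * S) (wy * S) n A B C D) := by
  induction n with
  | zero => intro gA gB gC gD A B C D _ _ _ _; trivial
  | succ n ih =>
    intro gA gB gC gD A B C D hA hB hC hD
    simp only [mP, fN_eq, gi_eq]
    refine ⟨?_, ih hA.2.2 hB.2.2 hC.2.2 hD.2.2⟩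
    have a1 := abs_le.1 hA.1
    have b1 := abs_le.1 hB.1
    have c1 := abs_le.1 hC.1
    have d1 := abs_le.1 hD.1
    refine (Complex.norm_le_abs_re_add_abs_im _).trans ?_
    rw [sub_re, sub_im, cv_re, cv_im]
    simp only [mul_re, mul_im, natCast_re, natCast_im, zero_mul, sub_zero, add_zero,
      Int.subNatNat_eq_coe, Int.cast_sub, Int.cast_natCast]
    have h1 : |(S : ℝ) * (gA 0 - gB 0) - (((A % W + wy * S : ℕ) : ℝ) - ((B % W + wx * S : ℕ) : ℝ))|
        ≤ 100 * (wx + wy) := by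
      rw [abs_le]
      push_cast at *
      constructor <;> nlinarith [a1.1, a1.2, b1.1, b1.2]
    have h2 : |(S : ℝ) * (gC 0 + gD 0) - (((C % W + D % W : ℕ) : ℝ) - ((wx * S + wy * S : ℕ) : ℝ))|
        ≤ 100 * (wx + wy) := by
      rw [abs_le]
      push_cast at *
      constructor <;> nlinarith [c1.1, c1.2, d1.1, d1.2]
    push_cast at h1 h2 ⊢
    linarith

theorem mM_ok {wx wy : ℕ} (n : ℕ) : ∀ {gA gB gC gD : ℕ → ℝ} {A B C D : ℕ}, SD wx gA n A →
    SD wy gB n B → SD wx gC n C → SD wy gD n D →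
    MomOK (200 * (wx + wy)) (fun k => ⟨gA k + gB k, gD k - gC k⟩)
      (mM (wx * S) (wy * S) n A B C D) := by
  induction n with
  | zero => intro gA gB gC gD A B C D _ _ _ _; trivial
  | succ n ih =>
    intro gA gB gC gD A B C D hA hB hC hD
    simp only [mM, fN_eq, gi_eq]
    refine ⟨?_, ih hA.2.2 hB.2.2 hC.2.2 hD.2.2⟩
    have a1 := abs_le.1 hA.1
    have b1 := abs_le.1 hB.1
    have c1 := abs_le.1 hC.1
    have d1 := abs_le.1 hD.1
    refine (Complex.norm_le_abs_re_add_abs_im _).trans ?_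
    rw [sub_re, sub_im, cv_re, cv_im]
    simp only [mul_re, mul_im, natCast_re, natCast_im, zero_mul, sub_zero, add_zero,
      Int.subNatNat_eq_coe, Int.cast_sub, Int.cast_natCast]
    have h1 : |(S : ℝ) * (gA 0 + gB 0) - (((A % W + B % W : ℕ) : ℝ) - ((wx * S + wy * S : ℕ) : ℝ))|
        ≤ 100 * (wx + wy) := by
      rw [abs_le]
      push_cast at *
      constructor <;> nlinarith [a1.1, a1.2, b1.1, b1.2]
    have h2 : |(S : ℝ) * (gD 0 - gC 0) - (((D % W + wx * S : ℕ) : ℝ) - ((C % W + wy * S : ℕ) : ℝ))|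
        ≤ 100 * (wx + wy) := by
      rw [abs_le]
      push_cast at *
      constructor <;> nlinarith [c1.1, c1.2, d1.1, d1.2]
    push_cast at h1 h2 ⊢
    linarith

end Run7.h281
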