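import Pool.Agent.Run7.h281.RedA
set_option autoImplicit false

/-! Functions whose indices of maximum terms eventually form an arithmetic progression. -/

namespace Run7.h281

open Pool.Agent.H792R3.BB Filter Topology

theorem le_mu {f : ℂ → ℂ} (hf : TransEntire f) {r : ℝ} (hr : 0 < r) (k : ℕ) :
    ‖tc f k‖ * r ^ k ≤ mu f r :=
  le_ciSup (t_CY f hf r hr).1 k

theorem ap_exists {f : ℂ → ℂ} (hf : TransEntire f) {n₀ d : ℕ} (hd : 0 < d)
    (h1 : ∀ᶠ r : ℝ in atTop, ∃ j : ℕ, ‖tc f (n₀ + d * j)‖ * r ^ (n₀ + d * j) = mu f r)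
    (h2 : ∀ᶠ j : ℕ in atTop, ∃ r : ℝ, 0 < r ∧
      ‖tc f (n₀ + d * j)‖ * r ^ (n₀ + d * j) = mu f r) :
    ∃ (j₀ : ℕ) (R : ℕ → ℝ), AP (tc f) n₀ d j₀ R ∧ Tendsto R atTop atTop := by
  classical
  obtain ⟨r₁, hr₁⟩ := eventually_atTop.1 h1
  obtain ⟨j₁, hj₁⟩ := eventually_atTop.1 h2
  have hne : ∀ j, j₁ ≤ j → tc f (n₀ + d * j) ≠ 0 := by
    intro j hj h0
    obtain ⟨r, hr, h⟩ := hj₁ j hj
    rw [h0, norm_zero, zero_mul] at h
    exact (t_CY f hf r hr).2.1.ne h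
  -- radii
  have hex : ∀ j : ℕ, ∃ R : ℝ, 0 < R ∧ (j₁ ≤ j →
      ‖tc f (n₀ + d * (j + 1))‖ * R ^ d = ‖tc f (n₀ + d * j)‖) := by
    intro j
    by_cases hj : j₁ ≤ j
    · have a1 : 0 < ‖tc f (n₀ + d * j)‖ := norm_pos_iff.2 (hne j hj)
      have a2 : 0 < ‖tc f (n₀ + d * (j + 1))‖ := norm_pos_iff.2 (hne (j + 1) (by omega))
      set y := ‖tc f (n₀ + d * j)‖ / ‖tc f (n₀ + d * (j + 1))‖ with hy
      have hy0 : 0 < y := div_pos a1 a2
      refine ⟨y ^ (1 / (d : ℝ)), Real.rpow_pos_of_pos hy0 _, fun _ => ?_⟩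
      rw [← Real.rpow_natCast, ← Real.rpow_mul hy0.le, one_div, inv_mul_cancel₀ (by positivity),
        Real.rpow_one, hy]
      field_simp
    · exact ⟨1, one_pos, fun h => absurd h hj⟩
  choose R hR using hex
  have hpos : ∀ j, 0 < R j := fun j => (hR j).1
  have heq : ∀ j, j₁ ≤ j → ‖tc f (n₀ + d * (j + 1))‖ * R j ^ d = ‖tc f (n₀ + d * j)‖ :=
    fun j => (hR j).2
  -- comparison with the radii of maximality
  have hup : ∀ j, j₁ ≤ j → ∀ r, 0 < r → ‖tc f (n₀ + d * j)‖ * r ^ (n₀ + d * j) = mu f r →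
      r ≤ R j := by
    intro j hj r hr h
    have h3 := le_mu hf hr (n₀ + d * (j + 1))
    rw [← h, ← heq j hj] at h3
    have a2 : 0 < ‖tc f (n₀ + d * (j + 1))‖ := norm_pos_iff.2 (hne (j + 1) (by omega))
    have e1 : n₀ + d * (j + 1) = (n₀ + d * j) + d := by ring
    have h4 : r ^ d ≤ R j ^ d := by
      have h5 : 0 < ‖tc f (n₀ + d * (j + 1))‖ * r ^ (n₀ + d * j) := by positivity
      apply le_of_mul_le_mul_left _ h5
      calc ‖tc f (n₀ + d * (j + 1))‖ * r ^ (n₀ + d * j) * r ^ d =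
          ‖tc f (n₀ + d * (j + 1))‖ * r ^ (n₀ + d * (j + 1)) := by
            rw [e1, pow_add r (n₀ + d * j) d]; ring
        _ ≤ _ := h3
        _ = _ := by ring
    exact le_of_pow_le_pow_left₀ hd.ne' (hpos j).le h4
  have hdn : ∀ j, j₁ ≤ j → ∀ r, 0 < r →
      ‖tc f (n₀ + d * (j + 1))‖ * r ^ (n₀ + d * (j + 1)) = mu f r → R j ≤ r := by
    intro j hj r hr h
    have h3 := le_mu hf hr (n₀ + d * j)
    rw [← h, ← heq j hj] at h3
    have a2 : 0 < ‖tc f (n₀ + d * (j + 1))‖ := norm_pos_iff.2 (hne (j + 1) (by omega))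
    have e1 : n₀ + d * (j + 1) = (n₀ + d * j) + d := by ring
    have h4 : R j ^ d ≤ r ^ d := by
      have h5 : 0 < ‖tc f (n₀ + d * (j + 1))‖ * r ^ (n₀ + d * j) := by positivity
      apply le_of_mul_le_mul_left _ h5
      calc ‖tc f (n₀ + d * (j + 1))‖ * r ^ (n₀ + d * j) * R j ^ d =
          ‖tc f (n₀ + d * (j + 1))‖ * R j ^ d * r ^ (n₀ + d * j) := by ring
        _ ≤ _ := h3
        _ = _ := by rw [e1, pow_add r (n₀ + d * j) d]; ring
    exact le_of_pow_le_pow_left₀ hd.ne' hr.le h4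
  have hmono : ∀ j, j₁ ≤ j → R j ≤ R (j + 1) := by
    intro j hj
    obtain ⟨r, hr, h⟩ := hj₁ (j + 1) (by omega)
    exact (hdn j hj r hr h).trans (hup (j + 1) (by omega) r hr h)
  have hmono' : ∀ i j, j₁ ≤ i → i ≤ j → R i ≤ R j := by
    intro i j hi hij
    induction j, hij using Nat.le_induction with
    | base => exact le_rfl
    | succ j hij ih => exact ih.trans (hmono j (by omega))
  -- tends to infinity
  have htend : Tendsto R atTop atTop := by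
    rw [tendsto_atTop_atTop]
    intro B
    by_contra hcon
    push Not at hcon
    have hB : ∀ j, j₁ ≤ j → R j < max B 1 := by
      intro j hj
      obtain ⟨i, hi, hlt⟩ := hcon j
      exact ((hmono' j i hj hi).trans_lt hlt).trans_le (le_max_left _ _)
    set C := max B 1 with hC
    have hC1 : 1 ≤ C := le_max_right _ _
    have hC0 : 0 < C := by linarith
    have hlow : ∀ i : ℕ, ‖tc f (n₀ + d * j₁)‖ * C ^ (n₀ + d * j₁) ≤
        ‖tc f (n₀ + d * (j₁ + i))‖ * C ^ (n₀ + d * (j₁ + i)) := by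
      intro i
      induction i with
      | zero => simp
      | succ i ih =>
        refine ih.trans ?_
        rw [← add_assoc, ← heq (j₁ + i) (by omega)]
        have h3 : R (j₁ + i) ^ d ≤ C ^ d :=
          pow_le_pow_left₀ (hpos _).le (hB _ (by omega)).le d
        calc ‖tc f (n₀ + d * (j₁ + i + 1))‖ * R (j₁ + i) ^ d * C ^ (n₀ + d * (j₁ + i))
            ≤ ‖tc f (n₀ + d * (j₁ + i + 1))‖ * C ^ d * C ^ (n₀ + d * (j₁ + i)) := by gcongr
          _ = _ := by rw [mul_assoc, ← pow_add]; ring_nf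
    have hs := (UFx.summable_tc f hf.1 C hC0).tendsto_atTop_zero
    have ht : Tendsto (fun i : ℕ => n₀ + d * (j₁ + i)) atTop atTop := by
      refine tendsto_atTop_mono (fun i => ?_) tendsto_id
      have : i ≤ d * i := Nat.le_mul_of_pos_left i hd
      calc id i = i := rfl
        _ ≤ d * i := this
        _ ≤ n₀ + d * (j₁ + i) := by nlinarith
    have h3 := ge_of_tendsto (hs.comp ht) (Eventually.of_forall hlow)
    have a1 : 0 < ‖tc f (n₀ + d * j₁)‖ := norm_pos_iff.2 (hne j₁ le_rfl)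
    have : 0 < ‖tc f (n₀ + d * j₁)‖ * C ^ (n₀ + d * j₁) := by positivity
    linarith
  obtain ⟨j₂, hj₂⟩ := eventually_atTop.1 (htend.eventually_ge_atTop r₁)
  refine ⟨max j₁ j₂, R, ⟨hd, hpos, fun j hj => hne j (by omega), ?_, fun j hj => heq j (by omega),
    fun j hj => hmono j (by omega)⟩, htend⟩
  intro j hj k
  have hj1 : j₁ ≤ j := (le_max_left _ _).trans hj
  have hj2 : j₂ ≤ j := (le_max_right _ _).trans hj
  obtain ⟨i, hi⟩ := hr₁ (R j) (hj₂ j hj2)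
  refine (le_mu hf (hpos j) k).trans ?_
  rw [← hi]
  have hRj := hpos j
  rcases le_or_gt i j with hij | hij
  · obtain ⟨r, hr, h⟩ := hj₁ j hj1
    have h3 : r ≤ R j := hup j hj1 r hr h
    have h4 := le_mu hf hr (n₀ + d * i)
    rw [← h] at h4
    have h5 : 1 ≤ R j / r := (one_le_div hr).2 h3
    have h6 : (R j / r) ^ (n₀ + d * i) ≤ (R j / r) ^ (n₀ + d * j) :=
      pow_le_pow_right₀ h5 (Nat.add_le_add_left (Nat.mul_le_mul_left d hij) _)
    have e : ∀ x : ℕ, ‖tc f x‖ * R j ^ x = (‖tc f x‖ * r ^ x) * (R j / r) ^ x := by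
      intro x; rw [div_pow]; field_simp
    rw [e, e]
    exact mul_le_mul h4 h6 (by positivity) (by positivity)
  · obtain ⟨r, hr, h⟩ := hj₁ (j + 1) (by omega)
    have h3 : R j ≤ r := hdn j hj1 r hr h
    have h4 := le_mu hf hr (n₀ + d * i)
    rw [← h] at h4
    have h5 : R j / r ≤ 1 := (div_le_one hr).2 h3
    have h6 : (R j / r) ^ (n₀ + d * i) ≤ (R j / r) ^ (n₀ + d * (j + 1)) :=
      pow_le_pow_of_le_one (by positivity) h5
        (Nat.add_le_add_left (Nat.mul_le_mul_left d (by omega)) _)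
    have e : ∀ x : ℕ, ‖tc f x‖ * R j ^ x = (‖tc f x‖ * r ^ x) * (R j / r) ^ x := by
      intro x; rw [div_pow]; field_simp
    have h7 : ‖tc f (n₀ + d * i)‖ * R j ^ (n₀ + d * i) ≤
        ‖tc f (n₀ + d * (j + 1))‖ * R j ^ (n₀ + d * (j + 1)) := by
      rw [e, e]
      exact mul_le_mul h4 h6 (by positivity) (by positivity)
    refine h7.trans (le_of_eq ?_)
    rw [← heq j hj1, show n₀ + d * (j + 1) = d + (n₀ + d * j) by ring, pow_add]
    ring

theorem ufA {f : ℂ → ℂ} (hf : TransEntire f) {n₀ d : ℕ} (hd : 0 < d)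
    (h1 : ∀ᶠ r : ℝ in atTop, ∃ j : ℕ, ‖tc f (n₀ + d * j)‖ * r ^ (n₀ + d * j) = mu f r)
    (h2 : ∀ᶠ j : ℕ in atTop, ∃ r : ℝ, 0 < r ∧
      ‖tc f (n₀ + d * j)‖ * r ^ (n₀ + d * j) = mu f r) :
    ∃ᶠ r : ℝ in atTop, mu f r ≤ 589 / 1000 * maxMod f r := by
  obtain ⟨j₀, R, hAP, ht⟩ := ap_exists hf hd h1 h2
  by_contra hcon
  rw [Filter.not_frequently] at hcon
  obtain ⟨R₀, hR₀⟩ := eventually_atTop.1 hcon
  obtain ⟨j₂, hj₂⟩ := eventually_atTop.1 (ht.eventually_ge_atTop R₀)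
  set x : ℕ → ℝ := fun m => (R (m + j₀) / R (m + j₀ + 1)) ^ d with hx
  have hr1 : ∀ m, R (m + j₀) / R (m + j₀ + 1) ≤ 1 := fun m =>
    (div_le_one (hAP.pos _)).2 (hAP.mono _ (by omega))
  have hr0 : ∀ m, 0 ≤ R (m + j₀) / R (m + j₀ + 1) := fun m => (div_pos (hAP.pos _) (hAP.pos _)).le
  obtain ⟨m, hm, hs⟩ := selA x (fun m => pow_nonneg (hr0 m) _)
    (fun m => pow_le_one₀ (hr0 m) (hr1 m)) dlt (by unfold dlt; norm_num) j₂
  have hmu : ∀ j, j₀ ≤ j → mu f (R j) ≤ ‖tc f (n₀ + d * j)‖ * R j ^ (n₀ + d * j) :=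
    fun j hj => ciSup_le (hAP.mx j hj)
  have hlt : ∀ j, R₀ ≤ R j → maxMod f (R j) ≤ 1000 / 589 * mu f (R j) := by
    intro j hj
    have := hR₀ (R j) hj
    push Not at this
    linarith
  refine hAP.loc (m := m + j₀) (by omega) (fun i hi => ?_) (M1 := maxMod f (R (m + j₀ + 20)))
    (M2 := maxMod f (R (m + j₀ + 21))) (UFx.bd_tc f hf.1 _ (hAP.pos _)) ?_
    (UFx.bd_tc f hf.1 _ (hAP.pos _)) ?_
  · have := hs i hi
    simp only [hx] at this
    rwa [show m + i + j₀ = m + j₀ + i by ring, show m + 20 + j₀ = m + j₀ + 20 by ring] at this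
  · have h3 := hlt (m + j₀ + 20) (hj₂ _ (by omega))
    have h4 := hmu (m + j₀ + 20) (by omega)
    have h5 := hAP.eq (m + j₀ + 20) (by omega)
    have h6 : ‖tc f (n₀ + d * (m + j₀ + 20))‖ * R (m + j₀ + 20) ^ (n₀ + d * (m + j₀ + 20)) =
        ‖tc f (n₀ + d * (m + j₀ + 21))‖ * R (m + j₀ + 20) ^ (n₀ + d * (m + j₀ + 21)) := by
      rw [← h5, show n₀ + d * (m + j₀ + 21) = d + (n₀ + d * (m + j₀ + 20)) by ring, pow_add]
      ring
    rw [← h6]
    linarith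
  · have h3 := hlt (m + j₀ + 21) (hj₂ _ (by omega))
    have h4 := hmu (m + j₀ + 21) (by omega)
    linarith

end Run7.h281
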