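import Pool.Agent.Run7.h281.T3c
set_option autoImplicit false

/-! Averages over roots of unity. -/

namespace Run7.h281

open Complex

/-- primitive root of unity -/
noncomputable def om (d : ℕ) : ℂ := Complex.exp (2 * Real.pi * I / d)

theorem om_prim {d : ℕ} (hd : 0 < d) : IsPrimitiveRoot (om d) d :=
  Complex.isPrimitiveRoot_exp d hd.ne'

theorem om_norm {d : ℕ} (hd : 0 < d) : ‖om d‖ = 1 :=
  Complex.norm_eq_one_of_pow_eq_one (om_prim hd).pow_eq_one hd.ne'

theorem om_ne {d : ℕ} (hd : 0 < d) : om d ≠ 0 := by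
  intro h
  have := om_norm hd
  rw [h] at this
  simp at this

/-- sum of powers of a root of unity -/
theorem om_sum {d : ℕ} (hd : 0 < d) (m : ℤ) :
    ∑ i ∈ Finset.range d, ((om d) ^ i) ^ m = if (d : ℤ) ∣ m then (d : ℂ) else 0 := by
  have h1 : ∀ i : ℕ, ((om d) ^ i) ^ m = ((om d) ^ m) ^ i := by
    intro i
    rw [← zpow_natCast, ← zpow_natCast, ← zpow_mul, ← zpow_mul, mul_comm]
  simp_rw [h1]
  split_ifs with h
  · have : (om d) ^ m = 1 := ((om_prim hd).zpow_eq_one_iff_dvd m).2 h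
    rw [this]
    simp
  · have hne : (om d) ^ m ≠ 1 := fun h' => h (((om_prim hd).zpow_eq_one_iff_dvd m).1 h')
    rw [geom_sum_eq hne]
    have : ((om d) ^ m) ^ d = 1 := by
      rw [← zpow_natCast, ← zpow_mul, mul_comm, zpow_mul, zpow_natCast, (om_prim hd).pow_eq_one,
        one_zpow]
    rw [this, sub_self, zero_div]

/-- bilateral series -/
noncomputable def Fz (b : ℤ → ℂ) (z : ℂ) : ℂ := ∑' k : ℤ, b k * z ^ k

theorem Fz_hasSum {b : ℤ → ℂ} (hb : Summable fun k => ‖b k‖) {z : ℂ} (hz : ‖z‖ = 1) :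
    HasSum (fun k : ℤ => b k * z ^ k) (Fz b z) := by
  apply Summable.hasSum
  refine Summable.of_norm_bounded hb ?_
  intro k
  rw [norm_mul, norm_zpow, hz, one_zpow, mul_one]

theorem unit_ne {z : ℂ} (hz : ‖z‖ = 1) : z ≠ 0 := by
  intro h
  rw [h] at hz
  simp at hz

/-- the class `r` modulo `d` -/
theorem avg {b : ℤ → ℂ} (hb : Summable fun k => ‖b k‖) {d : ℕ} (hd : 0 < d) (r : ℤ) {u : ℂ}
    (hu : ‖u‖ = 1) :
    ∑ i ∈ Finset.range d, Fz b (u * om d ^ i) * (u * om d ^ i) ^ (-r) =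
      d * Fz (fun j => b (d * j + r)) (u ^ d) := by
  have hu0 := unit_ne hu
  have hn : ∀ i : ℕ, ‖u * om d ^ i‖ = 1 := by
    intro i
    rw [norm_mul, norm_pow, om_norm hd, hu, one_pow, one_mul]
  have h1 : HasSum (fun k : ℤ => ∑ i ∈ Finset.range d, b k * (u * om d ^ i) ^ k *
      (u * om d ^ i) ^ (-r)) (∑ i ∈ Finset.range d, Fz b (u * om d ^ i) *
      (u * om d ^ i) ^ (-r)) :=
    hasSum_sum fun i _ => (Fz_hasSum hb (hn i)).mul_right _
  have h2 : ∀ k : ℤ, ∑ i ∈ Finset.range d, b k * (u * om d ^ i) ^ k * (u * om d ^ i) ^ (-r) =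
      if (d : ℤ) ∣ k - r then d * (b k * u ^ (k - r)) else 0 := by
    intro k
    have h3 : ∀ i : ℕ, b k * (u * om d ^ i) ^ k * (u * om d ^ i) ^ (-r) =
        (b k * u ^ (k - r)) * (om d ^ i) ^ (k - r) := by
      intro i
      rw [mul_assoc, ← zpow_add₀ (unit_ne (hn i)), mul_zpow, ← sub_eq_add_neg]
      ring
    simp_rw [h3]
    rw [← Finset.mul_sum, om_sum hd]
    split_ifs
    · ring
    · ring
  simp_rw [h2] at h1
  have hinj : Function.Injective (fun j : ℤ => (d : ℤ) * j + r) := by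
    intro a b h
    have hd' : (d : ℤ) ≠ 0 := by exact_mod_cast hd.ne'
    exact mul_left_cancel₀ hd' (add_right_cancel h)
  have h4 : HasSum ((fun k : ℤ => if (d : ℤ) ∣ k - r then (d : ℂ) * (b k * u ^ (k - r)) else 0) ∘
      (fun j : ℤ => (d : ℤ) * j + r)) (∑ i ∈ Finset.range d, Fz b (u * om d ^ i) *
      (u * om d ^ i) ^ (-r)) := by
    rw [hinj.hasSum_iff]
    · exact h1
    · intro k hk
      rw [if_neg]
      rintro ⟨j, hj⟩
      exact hk ⟨j, by simp only; omega⟩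
  have h5 : HasSum (fun j : ℤ => (d : ℂ) * (b (d * j + r) * (u ^ d) ^ j))
      (d * Fz (fun j => b (d * j + r)) (u ^ d)) := by
    refine HasSum.mul_left _ (Fz_hasSum (b := fun j => b (d * j + r)) ?_ ?_)
    · exact hb.comp_injective hinj
    · rw [norm_pow, hu, one_pow]
  refine h4.unique (h5.congr_fun ?_)
  intro j
  simp only [Function.comp, add_sub_cancel_right, dvd_mul_right, if_true]
  rw [← zpow_natCast, ← zpow_mul]

theorem exists_root {d : ℕ} (hd : 0 < d) {w : ℂ} (hw : ‖w‖ = 1) : ∃ u : ℂ, ‖u‖ = 1 ∧ u ^ d = w := by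
  obtain ⟨u, hu⟩ := IsAlgClosed.exists_pow_nat_eq w hd
  refine ⟨u, ?_, hu⟩
  have : ‖u‖ ^ d = 1 := by rw [← norm_pow, hu, hw]
  exact (pow_eq_one_iff_of_nonneg (norm_nonneg _) hd.ne').1 this

/-- bound of the class `0` -/
theorem lat_bound {b : ℤ → ℂ} (hb : Summable fun k => ‖b k‖) {d : ℕ} (hd : 0 < d) {K : ℝ}
    (hK : ∀ u : ℂ, ‖u‖ = 1 → ‖Fz b u‖ ≤ K) {w : ℂ} (hw : ‖w‖ = 1) :
    ‖Fz (fun j => b (d * j)) w‖ ≤ K := by
  obtain ⟨u, hu, rfl⟩ := exists_root hd hw
  have h1 := avg hb hd 0 hu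
  simp only [neg_zero, zpow_zero, mul_one, add_zero] at h1
  have hdR : (0 : ℝ) < d := by exact_mod_cast hd
  have h2 : (d : ℝ) * ‖Fz (fun j => b (d * j)) (u ^ d)‖ ≤ d * K := by
    calc (d : ℝ) * ‖Fz (fun j => b (d * j)) (u ^ d)‖
        = ‖(d : ℂ) * Fz (fun j => b (d * j)) (u ^ d)‖ := by rw [norm_mul, Complex.norm_natCast]
      _ = ‖∑ i ∈ Finset.range d, Fz b (u * om d ^ i)‖ := by rw [h1]
      _ ≤ ∑ i ∈ Finset.range d, K := by
        refine norm_sum_le_of_le _ fun i _ => hK _ ?_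
        rw [norm_mul, norm_pow, om_norm hd, hu, one_pow, one_mul]
      _ = _ := by simp
  exact le_of_mul_le_mul_left h2 hdR

/-- the constraints on the classes `0, -e, e` modulo `d` -/
theorem class_val {b : ℤ → ℂ} (hb : Summable fun k => ‖b k‖) {d : ℕ} (hd : 0 < d) {K : ℝ}
    (hK : ∀ u : ℂ, ‖u‖ = 1 → ‖Fz b u‖ ≤ K) (e : ℤ) (he : ¬ (d : ℤ) ∣ e)
    (he2 : ¬ (d : ℤ) ∣ 2 * e) {w : ℂ} (hw : ‖w‖ = 1) :
    Val K (Fz (fun j => b (d * j)) w) (Fz (fun j => b (d * j + -e)) w)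
      (Fz (fun j => b (d * j + e)) w) := by
  obtain ⟨u, hu, rfl⟩ := exists_root hd hw
  have hu0 := unit_ne hu
  have hK0 : 0 ≤ K := (norm_nonneg _).trans (hK u hu)
  have hdR : (0 : ℝ) < d := by exact_mod_cast hd
  have hdC : (d : ℂ) ≠ 0 := by exact_mod_cast hdR.ne'
  set v : ℕ → ℂ := fun i => Fz b (u * om d ^ i) with hv
  set χ : ℕ → ℂ := fun i => (u * om d ^ i) ^ e with hχ
  have hn : ∀ i : ℕ, ‖u * om d ^ i‖ = 1 := by
    intro i
    rw [norm_mul, norm_pow, om_norm hd, hu, one_pow, one_mul]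
  have hvK : ∀ i, ‖v i‖ ≤ K := fun i => hK _ (hn i)
  have hχ1 : ∀ i, ‖χ i‖ = 1 := by
    intro i
    rw [hχ]
    simp only
    rw [norm_zpow, hn, one_zpow]
  have hχc : ∀ i, (starRingEnd ℂ) (χ i) = (u * om d ^ i) ^ (-e) := by
    intro i
    have h1 := hχ1 i
    have h2 : (starRingEnd ℂ) (χ i) = (χ i)⁻¹ := by
      rw [Complex.inv_def, Complex.normSq_eq_norm_sq, h1]
      simp
    rw [h2, hχ]
    simp only
    rw [zpow_neg]
  have hs1 : ∑ i ∈ Finset.range d, χ i = 0 := by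
    have : ∀ i, χ i = u ^ e * (om d ^ i) ^ e := by
      intro i; rw [hχ]; simp only; rw [mul_zpow]
    simp_rw [this]
    rw [← Finset.mul_sum, om_sum hd, if_neg he, mul_zero]
  have hs2 : ∑ i ∈ Finset.range d, χ i ^ 2 = 0 := by
    have : ∀ i, χ i ^ 2 = u ^ (2 * e) * (om d ^ i) ^ (2 * e) := by
      intro i
      rw [hχ]
      simp only
      rw [← zpow_natCast, ← zpow_mul, ← mul_zpow]
      congr 1
      push_cast
      ring
    simp_rw [this]
    rw [← Finset.mul_sum, om_sum hd, if_neg he2, mul_zero]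
  have hs1' : ∑ i ∈ Finset.range d, (starRingEnd ℂ) (χ i) = 0 := by
    rw [← map_sum, hs1, map_zero]
  have hs2' : ∑ i ∈ Finset.range d, (starRingEnd ℂ) (χ i) ^ 2 = 0 := by
    have : ∀ i, (starRingEnd ℂ) (χ i) ^ 2 = (starRingEnd ℂ) (χ i ^ 2) := fun i => (map_pow _ _ _).symm
    simp_rw [this]
    rw [← map_sum, hs2, map_zero]
  set A := Fz (fun j => b (d * j)) (u ^ d) with hA
  set G := Fz (fun j => b (d * j + -e)) (u ^ d) with hG
  set H := Fz (fun j => b (d * j + e)) (u ^ d) with hH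
  have aA : ∑ i ∈ Finset.range d, v i = d * A := by
    have := avg hb hd 0 hu
    simp only [neg_zero, zpow_zero, mul_one, add_zero] at this
    exact this
  have aG : ∑ i ∈ Finset.range d, v i * χ i = d * G := by
    have := avg hb hd (-e) hu
    rw [neg_neg] at this
    exact this
  have aH : ∑ i ∈ Finset.range d, v i * (starRingEnd ℂ) (χ i) = d * H := by
    have := avg hb hd e hu
    simp_rw [hχc]
    exact this
  refine ⟨?_, ?_⟩
  · -- Bessel
    set w : ℕ → ℂ := fun i => A + G * (starRingEnd ℂ) (χ i) + H * χ i with hw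
    have hχχ : ∀ i, χ i * (starRingEnd ℂ) (χ i) = 1 := by
      intro i
      rw [Complex.mul_conj, Complex.normSq_eq_norm_sq, hχ1]
      simp
    have e1 : ∑ i ∈ Finset.range d, v i * (starRingEnd ℂ) (w i) =
        d * (A * (starRingEnd ℂ) A + G * (starRingEnd ℂ) G + H * (starRingEnd ℂ) H) := by
      have : ∀ i, v i * (starRingEnd ℂ) (w i) = (starRingEnd ℂ) A * v i +
          (starRingEnd ℂ) G * (v i * χ i) + (starRingEnd ℂ) H * (v i * (starRingEnd ℂ) (χ i)) := by
        intro i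
        rw [hw]
        simp only [map_add, map_mul, Complex.conj_conj]
        ring
      simp_rw [this]
      rw [Finset.sum_add_distrib, Finset.sum_add_distrib, ← Finset.mul_sum, ← Finset.mul_sum,
        ← Finset.mul_sum, aA, aG, aH]
      ring
    have e2 : ∑ i ∈ Finset.range d, w i * (starRingEnd ℂ) (w i) =
        d * (A * (starRingEnd ℂ) A + G * (starRingEnd ℂ) G + H * (starRingEnd ℂ) H) := by
      have : ∀ i, w i * (starRingEnd ℂ) (w i) =
          (A * (starRingEnd ℂ) A + G * (starRingEnd ℂ) G + H * (starRingEnd ℂ) H) +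
          (A * (starRingEnd ℂ) G + H * (starRingEnd ℂ) A) * χ i +
          (A * (starRingEnd ℂ) H + G * (starRingEnd ℂ) A) * (starRingEnd ℂ) (χ i) +
          (G * (starRingEnd ℂ) H) * (starRingEnd ℂ) (χ i) ^ 2 +
          (H * (starRingEnd ℂ) G) * χ i ^ 2 := by
        intro i
        have h := hχχ i
        rw [hw]
        simp only [map_add, map_mul, Complex.conj_conj]
        linear_combination (G * (starRingEnd ℂ) G + H * (starRingEnd ℂ) H) * h
      simp_rw [this]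
      rw [Finset.sum_add_distrib, Finset.sum_add_distrib, Finset.sum_add_distrib,
        Finset.sum_add_distrib, ← Finset.mul_sum, ← Finset.mul_sum, ← Finset.mul_sum,
        ← Finset.mul_sum, hs1, hs1', hs2, hs2']
      simp
      ring
    have e3 : ∑ i ∈ Finset.range d, ‖v i - w i‖ ^ 2 = ∑ i ∈ Finset.range d, ‖v i‖ ^ 2 -
        d * (‖A‖ ^ 2 + ‖G‖ ^ 2 + ‖H‖ ^ 2) := by
      have c1 : ((∑ i ∈ Finset.range d, ‖v i - w i‖ ^ 2 : ℝ) : ℂ) =
          ((∑ i ∈ Finset.range d, ‖v i‖ ^ 2 - d * (‖A‖ ^ 2 + ‖G‖ ^ 2 + ‖H‖ ^ 2) : ℝ) : ℂ) := by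
        push_cast
        have c2 : ∀ z : ℂ, ((‖z‖ : ℂ)) ^ 2 = z * (starRingEnd ℂ) z := by
          intro z
          rw [Complex.mul_conj, Complex.normSq_eq_norm_sq]
          push_cast
          rfl
        simp_rw [c2]
        have c3 : ∀ i, (v i - w i) * (starRingEnd ℂ) (v i - w i) = v i * (starRingEnd ℂ) (v i) -
            v i * (starRingEnd ℂ) (w i) - (starRingEnd ℂ) (v i * (starRingEnd ℂ) (w i)) +
            w i * (starRingEnd ℂ) (w i) := by
          intro i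
          simp only [map_sub, map_mul, Complex.conj_conj]
          ring
        simp_rw [c3]
        rw [Finset.sum_add_distrib, Finset.sum_sub_distrib, Finset.sum_sub_distrib, ← map_sum, e1,
          e2]
        simp only [map_mul, map_add, Complex.conj_conj, Complex.conj_natCast]
        ring
      exact_mod_cast c1
    have e4 : 0 ≤ ∑ i ∈ Finset.range d, ‖v i - w i‖ ^ 2 := Finset.sum_nonneg fun i _ => by positivity
    have e5 : ∑ i ∈ Finset.range d, ‖v i‖ ^ 2 ≤ d * K ^ 2 := by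
      calc ∑ i ∈ Finset.range d, ‖v i‖ ^ 2 ≤ ∑ i ∈ Finset.range d, K ^ 2 :=
            Finset.sum_le_sum fun i _ => pow_le_pow_left₀ (norm_nonneg _) (hvK i) 2
        _ = _ := by simp
    rw [e3] at e4
    have e6 : (d : ℝ) * (‖A‖ ^ 2 + ‖G‖ ^ 2 + ‖H‖ ^ 2) ≤ d * K ^ 2 := by linarith
    exact le_of_mul_le_mul_left e6 hdR
  · intro κ hκ
    have e1 : (d : ℂ) * (2 * A + κ * G + (starRingEnd ℂ) κ * H) =
        ∑ i ∈ Finset.range d, v i * (2 + κ * χ i + (starRingEnd ℂ) (κ * χ i)) := by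
      have : ∀ i, v i * (2 + κ * χ i + (starRingEnd ℂ) (κ * χ i)) = 2 * v i + κ * (v i * χ i) +
          (starRingEnd ℂ) κ * (v i * (starRingEnd ℂ) (χ i)) := by
        intro i
        rw [map_mul]
        ring
      simp_rw [this]
      rw [Finset.sum_add_distrib, Finset.sum_add_distrib, ← Finset.mul_sum, ← Finset.mul_sum,
        ← Finset.mul_sum, aA, aG, aH]
      ring
    have e2 : ∀ i, (2 + κ * χ i + (starRingEnd ℂ) (κ * χ i)) =
        ((2 + 2 * (κ * χ i).re : ℝ) : ℂ) := by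
      intro i
      rw [add_assoc, Complex.add_conj]
      push_cast
      ring
    have e3 : ∀ i, ‖v i * (2 + κ * χ i + (starRingEnd ℂ) (κ * χ i))‖ ≤
        K * (2 + 2 * (κ * χ i).re) := by
      intro i
      rw [e2, norm_mul, Complex.norm_real, Real.norm_eq_abs, abs_of_nonneg]
      · apply mul_le_mul_of_nonneg_right (hvK i)
        have h1 := (abs_le.1 (Complex.abs_re_le_norm (κ * χ i))).1
        rw [norm_mul, hκ, hχ1, one_mul] at h1
        linarith
      · have h1 := (abs_le.1 (Complex.abs_re_le_norm (κ * χ i))).1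
        rw [norm_mul, hκ, hχ1, one_mul] at h1
        linarith
    have e4 : ∑ i ∈ Finset.range d, K * (2 + 2 * (κ * χ i).re) = d * (2 * K) := by
      rw [← Finset.mul_sum, Finset.sum_add_distrib, ← Finset.mul_sum, ← Complex.re_sum,
        ← Finset.mul_sum, hs1]
      simp
      ring
    have e5 : (d : ℝ) * ‖2 * A + κ * G + (starRingEnd ℂ) κ * H‖ ≤ d * (2 * K) := by
      calc (d : ℝ) * ‖2 * A + κ * G + (starRingEnd ℂ) κ * H‖
          = ‖(d : ℂ) * (2 * A + κ * G + (starRingEnd ℂ) κ * H)‖ := by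
            rw [norm_mul, Complex.norm_natCast]
        _ = ‖∑ i ∈ Finset.range d, v i * (2 + κ * χ i + (starRingEnd ℂ) (κ * χ i))‖ := by rw [e1]
        _ ≤ ∑ i ∈ Finset.range d, K * (2 + 2 * (κ * χ i).re) := norm_sum_le_of_le _ fun i _ => e3 i
        _ = _ := e4
    exact le_of_mul_le_mul_left e5 hdR

/-- bilateral series as `Bi` -/
theorem Fz_eq_Bi {b : ℤ → ℂ} (hb : Summable fun k => ‖b k‖) {z : ℂ} (hz : ‖z‖ = 1) :
    Fz b z = Bi (b 0) (fun k => b (k + 1)) (fun k => b (-(k + 1))) z := by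
  have h := (Fz_hasSum hb hz).summable
  have hinj1 : Function.Injective (fun n : ℕ => (n : ℤ)) := Nat.cast_injective
  have hinj2 : Function.Injective (fun n : ℕ => (-((n : ℤ) + 1))) := by
    intro a b h
    simpa using h
  have h1 : Summable (fun n : ℕ => b (n : ℤ) * z ^ (n : ℤ)) := h.comp_injective hinj1
  have h2 : Summable (fun n : ℕ => b (-((n : ℤ) + 1)) * z ^ (-((n : ℤ) + 1))) :=
    h.comp_injective hinj2
  unfold Fz Bi
  rw [tsum_of_nat_of_neg_add_one h1 h2, h1.tsum_eq_zero_add]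
  simp only [Nat.cast_zero, zpow_zero, mul_one]
  congr 1

end Run7.h281
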