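import Pool.Agent.Run7.h281.T1
set_option autoImplicit false

/-! Certificates (10 squares). -/

namespace Run7.h281

/-- certificate tree -/
def t1A4 : T :=
 (.n
 (.n
 (.l 0x82acdf15af042)
 (.l 0x87ccc738ea88b1462de9752cce58820c2)
 (.l 0x8ed34d7f2b788d472d047a50c70cc30c2)
 (.l 0x9077cce52a7b7b4468c3783dc9f4020c2))
 (.n
 (.l 0x900b4ba369755d4db901082)
 (.l 0x811949096d8215c595ec895243476684b9414365787643f7847cc6c20a03183)
 (.l 0x8a47c8aaaa86e5c4516975884aab827da5435481102)
 (.l 0x7feb42f72e82aecbb06d8383c16d678a51c33a6676fa44c744143))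
 (.l 0x8153cb40ef8420c1e12988d44336287e4bc09f07759544cb467f7ec37dc0184)
 (.l 0x81b0c1b56b87ebc5d66a83394052e485dfc040237ee6c24d147573c231c87f48c0bf827a98c84001204))

theorem t1A4_chk : t1A4.chk (t1leaf true 20 1000 589 109951163) (outS 1032991174296)
    (274877906944) (274877906944) 274877906944 = true := by decide +kernel

end Run7.h281
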