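import Pool.Agent.Run7.h281.T1
set_option autoImplicit false

/-! Certificates (14 squares). -/

namespace Run7.h281

/-- certificate tree -/
def t1A7 : T :=
 (.n
 (.n
 (.l 0x7f6b440d6f8197426d6c81b2c1cf2b82eac14ba8847840c9a57c61401f0a792b4237067dfbc17a037d43c2b182248)
 (.l 0x7fec4062af8028c28c6e8023c06d6d8125c1f0ec808d40a26b8199c1502a813540ba29811f4087288180408be780c4c035a681734047a58103400d637fc4405c967ff0c09b94804c40a9d280624074d07ebe3fd90c7d1640030a7bdc409bc87b92c159867c0e4217c47d2242a1827eafc2c2405d2)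
 (.l 0x7fd6c1bf2f803bc15cae807fc123ad811141802c809640962b8206c179ea826f4107288259c08ee681a34025a480d13ff7a27fe2408f55804ac0a6d380724070d17ea3bfc30d7d2bbfe98b7c1e4069897c2440fa077eeac05f867c8f419a457d654203c37f5f40a9027ead420c417f9cc112005d2)
 (.n
 (.l 0x804142ad2e817ac25c6c8241c1c92a8294c12d28826840a0268185c02a647ff1407715803a409793805c4059117f123fe9cd7eb1bff54b7e62c00bca7e97c021097da6c05f487e71405b477d24c0e8c67e5b40b6057da2c14e847f04c0b3c37deac1fd027f8fc09a017ee3c28300590)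
 (.n
 (.l 0x8026c2ad6e8140c2246c8051405e2b81c2c1746a80c3c076a9817140aee880dac050278118c04da680d9402aa57fdec07d568021c087948066c08752807e4070d07ecdbfdf0c7d3cc00e8a7c1b408fc87b9c4151467be2c228447cf542c6027e9cc2e040510)
 .o
 .o
 .o)
 (.n
 (.l 0x7fc741786f802e41976e806941176d80ec416dac80c440d32b81ad414d2a80dac07ce98211c0ed288268c09e2681dd40322480ca3ffa228006c06995806240a2938083c071117ec63fd78d7df53fedcb7d4d4041c97f304021c87ce3c0b9c77ea4c070867cb1c172857d60c1e7437f37c0c3827eb441d2817f6ec1574064f)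
 .o
 .o
 .o)
 .o))
 (.n
 (.n
 (.n
 (.l 0x7f55c24a6f7ff9c100ee805a417ead80cc419a2c81b5418caa817cc0faa98298c108a781c4c062a581fdc025237d53bfe98b7c364079087ca540ed067e4ac0a6457e25c0e7047db0c173437df742560140b)
 (.l 0x7f7941b9ef7ff4c12c6e8067c1d5ad8062c0cc2c8129418c6b80f240df6a81c74130298089404768822540dde78239c07ee581c0c020a38059c0a09280754068507eca3ff64c7e534001ca7efec00f897debc042087e814049477d1ec0cac67e7b4093457d6ac13e447ec3c0c4037e07419c027eddc146c17f1bc1864064f)
 (.l 0x7f59c25caf7ffe40e7ae8076c1d7ad806040bb6c815bc1bbab80b3c0a02a81de4135e980e6c074a88142407e678152406426815b40302481594000e280924097d07ec03fec4b7cc44035897c61c0b6077bfbc18cc57cbd4214c37dfcc25c417fa8409ec050f)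
 .o)
 .o
 (.n
 (.l 0x800442e72e8138c24dec81c2c18a6a8087405629818540c1e8810cc04e667fcf406f168019c0951480634093528067c055107eb63fe20c7d094002ca7b95c095887b07c16a867b6bc24a847c93c2f0827e564319c0453)
 .o
 .o
 .o)
 .o)
 .o
 .o
 .o)
 (.n
 (.n
 (.n
 (.l 0x7fee41306f8053c1946e809fc151ad80b840f56c8122c1166b817541062a8184c0caa98184c07927819bc05de68151401ba48015c0e6d580c4c0d5127e20bfd50c7dd9401c8a7ce8405d497c8ec0e6477e58c096c67d3bc154057eee40a8447e4dc15c837e95c18e027f4ec123417f6841cf005c9)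
 (.l 0x7fe14183af803d414a2e80aac17aed80a6c0e5ac8131412c2b815440f46a8143c0ac69815b4090a881354062e7817d403c65804240ae947e58bfc44d7ddabff64b7e86c0118a7e454032097de7c061487dbec092c77dec40b9067d734132c57e9c40d5847e4e4154037eb04166427f1cc167c17f76418a0060c)
 (.l 0x7fdd42a5ef8124425fad81a1c18cab80de409aea814f40ad698119c071e8812c4044667e8f3fc9cd7cdb3ff20b7bb6407f097b9b4127077be141fb457ccdc296c37e6142b241390)
 .o)
 (.n
 (.l 0x7fc0c2b2af801240682e80f24228ed816341626b80c7c0916a814e40b4298094403ea880c0c03f277fd8c06217801a409b95806fc0921380734056d17ec9bfcccd7d363febcb7babc06e897b2fc12f477efe4057067b56421f057c52c2d9c37e18c2f3417fd9406bc0553)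
 .o
 .o
 .o)
 .o
 .o)
 .o
 .o
 .o)
 .o)

theorem t1A7_chk : t1A7.chk (t1leaf true 20 1000 589 109951163) (outS 1032991174296)
    (824633720832) (824633720832) 274877906944 = true := by decide +kernel

end Run7.h281
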