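import Pool.Agent.Run7.h281.T1
set_option autoImplicit false

/-! Certificates (6 squares). -/

namespace Run7.h281

/-- certificate tree -/
def t1G1 : T :=
 (.n
 .o
 .o
 (.n
 (.n
 .o
 .o
 (.l 0x7e6041436f7e95c16eae7ed9c18e6d7f3ac1b1ec803741b46b806241836a8013417fa980fdc15ae8812b411827812f40e9e6814140bde581574093e4812dc064e380cf4033e28080401321804fc007a08034c0019f801bbfff9e80083fff1d7ff9c001147fe2c008537fc1c01c527f8ec030117f8f4055507f89c072cf7f8fc0954e7fa9c0b40d7fcdc0cccc7ffbc0da4b803240d4ca8058c0b8098049408ec88022407b077fe1407b067f884067857f56c064447ef24078c37ea7409f427e6940cdc17e4ac10980a2c)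
 .o)
 .o
 (.n
 (.l 0x7e74c150af7eb841786e7f2941916d7f7d41852c7fff41a1eb807bc1a7aa808ac17ca98108412c688120c116678156c0e626815640b4e581504086e481234055a380e540316280a8c01721806dc008a0804540005f80243ffe9e800a3ffe9d7ff34002d47fdac009537fb5401e127f90c031d17f8c404bd07f72406f4f7f7d40964e7f9240b68d7fc040d00c7ff7c0d68b802bc0cb8a804ac0ae098041c086c88012c06c877fc3c070c67f70405f457f38405f847ed64078437e8740a0427e4b40d9417e46411b00a1b)
 (.l 0x7e64415a6f7eb041802e7eff41942d7f5a41b06c8050c1afeb807d4180aa803a417ba9811cc148e8812f4105e7813740e126816140ba258157c08964810dc0526380bf402862808a401321805dc007a0803a3fffdf801ebfff1e7fdac00d537fbcc021d27f8dc036d17f99405b107f93c0758f7f9c4098ce7fbe40b6cd7fe840c80c8016c0c94b803d40ba4a804ec09ac9802f4073087ff3c063c77fa64069c67f48c05bc57f1ac065c47eb5c07d837e6940af827e41c0e7c17e3c4123409a9)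
 (.l 0x7e8f41576f7ee241786e7f46418c2d7fafc17f2c8008c18deb809541b12a80d3416de981074119e88140410f278161c0d726816640aca58153c07a24812bc0512380f4402e2280bbc0166180814006e08058bfff5f80373ffbde7fcb400d137f9dc023127f82c038d17f82404c107f6ac0718f7f78c0904e7f8cc0b00d7fbac0c2cc7febc0c98b801dc0bc4a8037c0a149802fc07c0880024061477fa8c062867f514054457f114058c47eab407c437e6ac0ad027e4740e9c17e59412600994)
 (.l 0x7e8041662f7ed0c1872e7f464198ed7f9c41886c801fc19e6b809a41a02a80a6c173298119412068812f410aa78161c0da26815f40aae5814ec07a648119c04b6380df402b6280a44012e1806a4006208042bfff1f7fd3c00d137fafc025527f90403a117f91c053107f7fc0768f7f92c0994e7faec0b50d7fe0c0c48c8010c0c2cb803c40af0a803e408a89801ec06a487fe14054477f7ec060067f2d4056457ef8c05f847e8d4081437e4cc0b8427e2dc0f6017e4041358095b))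
 (.n
 .o
 .o
 (.l 0x7e6ac16b6f7ebac18f2e7f1141a26d7f79c1baac8074c1aeeb8099c17aaa8054c174698129413b288137c0f9678152c0d9268168c0b165813640756480e940402380b240222280864010e1805b4005a08037bffe9f8019bffe9e7fe8c005147fcfc014937fb9c02a927f8e403f517fa24063107fa8407a4f7fb540998e7fda40b34d8007c0b8cc802940af8b803b409c8a8039c07e09800a405a487fc14053877f6ec05d067f07c052057edd406c447e7dc087837e32c0c3427e24c103c17e39413ac09ea)
 .o))
 .o)

theorem t1G1_chk : t1G1.chk (t1leaf false 61 80 49 109951163) (outS 897091537103)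
    (-824633720832) (824633720832) 274877906944 = true := by decide +kernel

end Run7.h281
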