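import Pool.Agent.Run7.h281.T1
set_option autoImplicit false

/-! Certificates (7 squares). -/

namespace Run7.h281

/-- certificate tree -/
def t1G4 : T :=
 (.n
 (.l 0x8263c4e36d82d743e12c859842bfe8848841daa777dcc4d2c67c9547a441184)
 (.n
 (.l 0x815fc6b9ad81b0c1a7aa868e44ad2988134230657b0cc2c5457bb6c56d81184)
 (.l 0x7ef1c2b36f7f954346ae8311c4c42b85eec36ae885a0c173e57c5cc18c457cb8c28fc27e70419f81206)
 (.l 0x7ef4c59d6f8302451dec8582c36569857a4140257b64c1f4c67dadc1c6437ca7c353421c4)
 (.l 0x7feb44036e80514153ad82db43b6ab8162c1412a8506c295a884fec11d2582cac018e27d8b40d1467e1740fc847e2f412f037dcf4290817ef941d5c0306))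
 (.l 0x8043c2282f825dc38fed8110c11d6c8464c29baa8489c13e2782af4047647e32c082087d8ac0ddc77d0141c7c57e8a4179837e2e42a1427f8cc32ac0308)
 (.l 0x7fe4c10faf8078c2e1ee805f40de2d81c5c2862c80cc40ce6b82a8c1f46a814ec0b629826d4108a88151c06ea78207407de68147c036a58144c01fe480e3c007e380883ffce27f7b400acb7f5ac0104a7f25c01e897ead4041c87ee8c048477dc4c0c6467ebd4096057db94158447f1140b7c37df44221027f5c40fa417efec2b54068e))

theorem t1G4_chk : t1G4.chk (t1leaf false 61 80 49 109951163) (outS 897091537103)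
    (274877906944) (274877906944) 274877906944 = true := by decide +kernel

end Run7.h281
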