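import Pool.Agent.Run7.h281.T1
set_option autoImplicit false

/-! Certificates (10 squares). -/

namespace Run7.h281

/-- certificate tree -/
def t1G6 : T :=
 (.n
 (.l 0x8051c1db2f80c741bf6e8129c196ad815fc1592c81a7c136ab820ac11aaa81d940cc298190407a68818cc061e78151c03466811b401b6580d5c004a480993ffaa380633ff622803bbff761801fbffaa07fd8bffb8f7fbe3ff8ce7f8d3ff7cd7f55bffd8c7f11400acb7ed3c0220a7e96c041c97e7bc064887e3c4096477df9c0f7c67e174118457e82c136047e8e417c837ef341aa827f5441d0417fd5c1df40816)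
 (.n
 (.l 0x800741e62f8083c1d56e80f341b96d8149c18aac818fc15f2b8213c159aa81f540f2e981acc0a1e881b4c07d678182c04fe6814ac02c257e9fc04a087e83c06c877dfc40c6867e2640f4c57e624112047e6d415f437eb04197827f0d41ca017f8741de8050d)
 (.l 0x7fe8c177af804c415bae80994141ad80f341402c8121c1156b818f41112a81a140dda9819940a2e88181c079a78196c05b66819dc03e258158c01c648104c003238115bff1e280c0bfe9617f31bff20c7f15bfff4b7e8ac012ca7e7f402fc97e86c046c87e55c06fc77de4c0c5c67e4e40cc057e9e40de847e8f4124837ee0c142c27f384145817f8d4172c0713)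
 (.l 0x80184168ef806c415b6e80c641452d80f8411aac8148c10f2b81a540f7aa819440d12981874085a8819e407467818e404ce6816f402aa58143c01164810fbffbe380d43feea280a2bfe8617f483feacd7effbff40c7ec540048b7e8ec01dca7e6b403e897e624058487e43c089877e1fc0ce467e3e40d9057ea440fd847eb2c124037f0f4149c27f50c15c417fb5c16c00759)
 (.l 0x7feac163ef80494160ae80a1414f2d80f5413c2c818141002b816940d5aa8131c0d929818c4092288183406ee7818dc058e6816e4035e5812e4017e480fdc0046380d63ff5a280aa3fec618080bfe720804fbfe31f802fbfef5e7fe4c0135a7fda401e597fda402a587fe04035577fecc03e567ffe404195800d4040948027c038d38021c02c12800b401d117fd03fff8f7fa2bff4ce7f64bfedcd7f213ff1cc7ede3ffdcb7e9dc010ca7e62402a497e24c055c87e4bc0a8477e6240b3c67dfa40ab457e51410e847ea5c135437ee44156427f38c165417f94416380b2c))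
 (.n
 (.l 0x8047c165ef80a84156ee80eec1396d81334122ac81b9c0e2ab81a5c0c1ea816ec0d0a981ba4079688183404aa78168c038668154401f25812940062480f43ff5a380bcbfeae28082bfe6a1804e3feae07fe740175c7fdfc0241b7fe1c0305a7febc039997ff9c03e188008403d978015c03856801dc02f15801fc022947fc43ff1d07f943fe88f7f56bfe88e7f1a3ff08d7edcbffd0c7e9e40130b7e74c0324a7e5bc04bc97e2fc071087e62c0c6477e7bc0d9c67e22c0d4057eb3c11ec47f0ac12a837f40c144c27f94c15c417fedc16500aab)
 (.n
 (.l 0x803cc1652f808dc153ae80ee413c2d810bc1116c815fc0fc2b81bd40ee6a81a0c0be69818dc075688199c068678180403a268160c021e58134c0072480f33ff62380c63fe9e28082bfe8e17f69bfe84e7f1e3fec4d7ee3bff80c7ea940100b7e7d402a0a7e5fc04b097e664068487e3d4099477e36c0dc867e48c0ee057ebe4108047edf412a037f2b4150427f7bc15d017fdf416b80796)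
 (.l 0x802f4165ef8081c158ae80df413f6d81064115ac815e4103ab81adc0eb6a819740c8298198407d688194406ae78187c03fa6815dc025258138c00b2480fdbff6e380c73fed62808ebfe6a17f6b3fe70e7f2dbfec0d7ee9bff6cc7eb1c00c0b7e80c0244a7e61c048097e5cc061087e42c099877e3cc0d4867e36c0e0057eb4c10bc47ed24127837f1f414b427f72415b817fc941698079a)
 .o
 .o)
 .o
 .o)
 (.n
 (.n
 (.l 0x801bc165ef8074415d6e80d3c141ad80fa411dac8166c1022b819340e12a8174c0ce2981a44086a88197c06e6781864044e681584026a58135400f248100bff9a380cbbfef627f3a3fec4d7ef83ff54c7eba40078b7e8540208a7e624040897e49c05dc87e49c09f477e4bc0c6867e1e40d1457e9a4113c47ec3c12cc37f12c14c027f674159c17fbbc16680721)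
 (.l 0x7fffc1616f8062c162ae80bec14c2d8104c12eec8178c0ef2b815a40c36a812c40c8e981a1408ee881a0c06ce78176c04aa6813a402625810dc00ee480eb40006380c63ff2e28094bfe92180613fe9607fdbc02c197fe1c034987fe7c03fd77ffcc04756800dc04555801c4041548032c032d3801fc026927f80bfedce7f483fee8d7f073ff48c7ec340028b7e804018ca7e474037497e18c064087e4bc0b2c77e67c0bc467e0540b6057e57c120047ea5414bc37effc15c827f66c15a017fb4c159c09e7)
 .o
 .o)
 .o
 .o
 .o))

theorem t1G6_chk : t1G6.chk (t1leaf false 61 80 49 109951163) (outS 897091537103)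
    (824633720832) (274877906944) 274877906944 = true := by decide +kernel

end Run7.h281
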