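import Pool.Agent.Run7.h281.T1
set_option autoImplicit false

/-! Certificates (3 squares). -/

namespace Run7.h281

/-- certificate tree -/
def t1G7 : T :=
 (.n
 (.n
 (.l 0x7fccc1772f802d416aee808ac151ed80c2c136ec814541192b8169c0f7ea814840e8a98185c098e8816c407da78173c06066816ac03fa581504022a4811540086380da3ff92280a73fee218077bfed2080593fe89f7fd2402c577fdbc037d67fe7403f157ff240439480104046d3801a404192800fc035517f8c3ff30d7f3ebff04c7ef33ff94b7eb0c00d4a7e82c025c97e4c403f087e384088877e37c0ab467df0c0ae057e57c100047e88411d037ebdc144427f0b4164417f664178809a4)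
 (.n
 (.l 0x7fad41922f8019417bae8076c158ad80b3413bac8133c1142b814640ef2a8122c0e1e981674095a881474076e7813e4059e68128403aa58125c023e48101c00da380b53ffba28078bff4e18057bff4a07fd3c026977fd5c033967fe1c03f957feb4046948008c04fd3801ac050528014c0471180224031d07f9a3ff24d7f433ff14c7ef2bff68b7ea3c0090a7e6ec021c97e2bc03b087e17c08bc77e1bc0ab467dc140a9857e1d410d047e61c12e437e974150427ee2416fc17f42418d409a4)
 .o
 .o
 .o)
 (.n
 (.l 0x7fd8c1736f80434168ae8095c1482d80c9c1312c814e410aeb815bc0e46a813640d7e98173408a28814f406ee78168c05a66816d4039e5812cc01a2480e9c006a380bebff6e2808c3fefe180683fef607fd74025187fdb4031977fe4c03c967ff24044158001c047548020c045d38027403cd28014c02e917fb13ff30e7f68bfee8d7f203fef4c7ed43ffb4b7e92c011ca7e64c02b097e2a4049087e28c099877e3740b5867de2c0b5057e4c4110c47e884128c37eb74157427f19417b017f7c4178c09e3)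
 .o
 .o
 .o)
 .o)
 .o
 .o
 .o)

theorem t1G7_chk : t1G7.chk (t1leaf false 61 80 49 109951163) (outS 897091537103)
    (824633720832) (824633720832) 274877906944 = true := by decide +kernel

end Run7.h281
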