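import Pool.Agent.Run7.h281.Acc
set_option autoImplicit false

/-! Balls with magnitude, upper bounds of functionals, costs. -/

namespace Run7.h281

open Complex

def nsq (x y : ℤ) : ℕ := sq (x.natAbs * x.natAbs + y.natAbs * y.natAbs)

theorem norm_cv_le_nsq (x y : ℤ) : ‖cv x y‖ ≤ (nsq x y : ℝ) := by
  have h1 := sq_spec (x.natAbs * x.natAbs + y.natAbs * y.natAbs)
  unfold nsq
  set t := sq (x.natAbs * x.natAbs + y.natAbs * y.natAbs)
  have h2 : ((x.natAbs * x.natAbs + y.natAbs * y.natAbs : ℕ) : ℝ) ≤ (t : ℝ) * t := by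
    exact_mod_cast h1
  have h3 : ((x.natAbs : ℝ)) ^ 2 = (x : ℝ) ^ 2 := by
    rw [Nat.cast_natAbs, Int.cast_abs, sq_abs]
  have h4 : ((y.natAbs : ℝ)) ^ 2 = (y : ℝ) ^ 2 := by
    rw [Nat.cast_natAbs, Int.cast_abs, sq_abs]
  have h5 : ‖cv x y‖ ^ 2 ≤ (t : ℝ) ^ 2 := by
    rw [norm_cv_sq, ← h3, ← h4]
    push_cast at h2
    linarith [h2]
  exact (abs_le_of_sq_le_sq' h5 (by positivity)).2

/-- ball with an upper bound `m` for the absolute value of the centre -/
structure Bm where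
  x : ℤ
  y : ℤ
  r : ℕ
  m : ℕ

def bm (x y : ℤ) (r m : ℕ) : Bm :=
  fI x fun x => fI y fun y => fN r fun r => fN m fun m => ⟨x, y, r, m⟩

@[simp] theorem bm_eq (x y : ℤ) (r m : ℕ) : bm x y r m = ⟨x, y, r, m⟩ := by simp [bm]

def Bm.In (b : Bm) (z : ℂ) : Prop := ‖z * S - cv b.x b.y‖ ≤ b.r ∧ ‖cv b.x b.y‖ ≤ b.m

/-- rounded product: centre and radius -/
def Bm.mx (a b : Bm) : ℤ := (a.x * b.x - a.y * b.y) / (S : ℤ)
def Bm.my (a b : Bm) : ℤ := (a.x * b.y + a.y * b.x) / (S : ℤ)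
def Bm.mr (a b : Bm) : ℕ := (a.m * b.r + b.m * a.r + a.r * b.r) / S + 3

theorem Bm.mul_core {a b : Bm} {z w : ℂ} (ha : a.In z) (hb : b.In w) :
    ‖z * w * S - cv (a.mx b) (a.my b)‖ ≤ a.mr b ∧
      ‖cv a.x a.y * cv b.x b.y / S - cv (a.mx b) (a.my b)‖ ≤ 2 := by
  obtain ⟨ha, h1⟩ := ha
  obtain ⟨hb, h2⟩ := hb
  have hS := S_posR
  have hSc : (S : ℂ) ≠ 0 := by exact_mod_cast hS.ne'
  set A := cv a.x a.y
  set B := cv b.x b.y
  have e1 : z * w * S - A * B / S = ((z * S - A) * B + A * (w * S - B) +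
      (z * S - A) * (w * S - B)) / S := by
    field_simp
    ring
  have e2 : ‖z * w * S - A * B / S‖ ≤
      ((a.m * b.r + b.m * a.r + a.r * b.r : ℕ) : ℝ) / S := by
    rw [e1, norm_div]
    have : ‖(S : ℂ)‖ = (S : ℝ) := by simp
    rw [this]
    apply div_le_div_of_nonneg_right _ hS.le
    calc ‖(z * S - A) * B + A * (w * S - B) + (z * S - A) * (w * S - B)‖
        ≤ ‖z * S - A‖ * ‖B‖ + ‖A‖ * ‖w * S - B‖ + ‖z * S - A‖ * ‖w * S - B‖ := by
          refine (norm_add_le _ _).trans (add_le_add ((norm_add_le _ _).trans ?_) ?_)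
          · rw [norm_mul, norm_mul]
          · rw [norm_mul]
      _ ≤ a.r * b.m + a.m * b.r + a.r * b.r := by
          refine add_le_add (add_le_add ?_ ?_) ?_
          · exact mul_le_mul ha h2 (norm_nonneg _) (by positivity)
          · exact mul_le_mul h1 hb (norm_nonneg _) (by positivity)
          · exact mul_le_mul ha hb (norm_nonneg _) (by positivity)
      _ = _ := by push_cast; ring
  have e3 : ‖A * B / S - cv (a.mx b) (a.my b)‖ ≤ 2 := by
    have : A * B = cv (a.x * b.x - a.y * b.y) (a.x * b.y + a.y * b.x) := (cv_mul _ _ _ _).symm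
    rw [this]
    unfold Bm.mx Bm.my
    have h5 := Bl.div_err (a.x * b.x - a.y * b.y)
    have h6 := Bl.div_err (a.x * b.y + a.y * b.x)
    refine (Complex.norm_le_abs_re_add_abs_im _).trans ?_
    rw [sub_re, sub_im, cv_re, cv_im, Complex.div_natCast_re, Complex.div_natCast_im, cv_re,
      cv_im, abs_sub_comm, abs_sub_comm (_ / _) _]
    linarith
  have e4 := Bl.nat_div_err (a.m * b.r + b.m * a.r + a.r * b.r)
  refine ⟨?_, e3⟩
  calc ‖z * w * S - cv (a.mx b) (a.my b)‖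
      ≤ ‖z * w * S - A * B / S‖ + ‖A * B / S - cv (a.mx b) (a.my b)‖ :=
        norm_sub_le_norm_sub_add_norm_sub _ _ _
    _ ≤ _ := by
      unfold Bm.mr
      push_cast at *
      linarith

def Bm.mul (a b : Bm) : Bm := bm (a.mx b) (a.my b) (a.mr b) (a.m * b.m / S + 3)

theorem Bm.In.mul {a b : Bm} {z w : ℂ} (ha : a.In z) (hb : b.In w) : (a.mul b).In (z * w) := by
  obtain ⟨h1, h2⟩ := Bm.mul_core ha hb
  unfold Bm.mul
  rw [bm_eq]
  refine ⟨h1, ?_⟩
  simp only
  have hS := S_posR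
  have e1 : ‖cv a.x a.y * cv b.x b.y / S‖ ≤ ((a.m * b.m : ℕ) : ℝ) / S := by
    rw [norm_div, norm_mul]
    have : ‖(S : ℂ)‖ = (S : ℝ) := by simp
    rw [this]
    apply div_le_div_of_nonneg_right _ hS.le
    push_cast
    exact mul_le_mul ha.2 hb.2 (norm_nonneg _) (by positivity)
  have e2 := Bl.nat_div_err (a.m * b.m)
  have e3 : ‖cv (a.mx b) (a.my b)‖ ≤ ‖cv a.x a.y * cv b.x b.y / S‖ + 2 := by
    calc ‖cv (a.mx b) (a.my b)‖ = ‖cv a.x a.y * cv b.x b.y / S -
          (cv a.x a.y * cv b.x b.y / S - cv (a.mx b) (a.my b))‖ := by congr 1; ring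
      _ ≤ _ := norm_sub_le _ _
      _ ≤ _ := by linarith
  push_cast at *
  linarith

/-- `φ k * S ≤ u k` -/
def UbOK : (ℕ → ℝ) → List ℕ → Prop
  | _, [] => True
  | φ, u :: t => φ 0 * S ≤ u ∧ UbOK (fun k => φ (k + 1)) t

def phiL (Q : Bm) (ε : ℕ) : Bm → List GI → List GI → List ℕ
  | Qp, ⟨px, py⟩ :: ps, ⟨mx, my⟩ :: ms =>
    match Qp.mul Q with
    | ⟨x', y', r', m'⟩ =>
      fN (nsq (mx + (x' * px - y' * py) / (S : ℤ)) (my + (x' * py + y' * px) / (S : ℤ)) + ε +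
        ((m' * ε + nsq px py * r' + r' * ε) / S + 3))
        fun v => v :: phiL Q ε ⟨x', y', r', m'⟩ ps ms
  | _, _, _ => []

theorem phiL_ok {Q : Bm} {q : ℂ} (hQ : Q.In q) (ε : ℕ) (ps : List GI) : ∀ (ms : List GI)
    (Qp : Bm) (w : ℂ) (fm fp : ℕ → ℂ), Qp.In w → MomOK ε fp ps → MomOK ε fm ms →
    UbOK (fun k => ‖fm k + w * q ^ (k + 1) * fp k‖) (phiL Q ε Qp ps ms) := by
  induction ps with
  | nil => intro ms Qp w fm fp _ _ _; simp [phiL, UbOK]
  | cons p ps ih =>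
    intro ms Qp w fm fp hw hp hm
    cases ms with
    | nil => simp [phiL, UbOK]
    | cons m ms =>
      have hw' := hw.mul hQ
      rcases hQ' : Qp.mul Q with ⟨x', y', r', m'⟩
      rw [hQ'] at hw'
      obtain ⟨px, py⟩ := p
      obtain ⟨mx, my⟩ := m
      simp only [phiL, hQ', fN_eq]
      obtain ⟨hp1, hp2⟩ := hp
      obtain ⟨hm1, hm2⟩ := hm
      have hpI : (⟨px, py, ε, nsq px py⟩ : Bm).In (fp 0) := by
        refine ⟨?_, norm_cv_le_nsq px py⟩
        rw [mul_comm]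
        exact hp1
      obtain ⟨k1, -⟩ := Bm.mul_core hw' hpI
      refine ⟨?_, ?_⟩
      · simp only [zero_add, pow_one]
        unfold Bm.mx Bm.my Bm.mr at k1
        simp only at k1
        set X := (x' * px - y' * py) / (S : ℤ)
        set Y := (x' * py + y' * px) / (S : ℤ)
        have k2 : ‖(fm 0 + w * q * fp 0) * S‖ ≤ ‖cv (mx + X) (my + Y)‖ +
            ‖(S : ℂ) * fm 0 - cv mx my‖ + ‖w * q * fp 0 * S - cv X Y‖ := by
          have : (fm 0 + w * q * fp 0) * S = cv (mx + X) (my + Y) +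
            ((S : ℂ) * fm 0 - cv mx my) + (w * q * fp 0 * S - cv X Y) := by
            rw [cv_add]; ring
          rw [this]
          exact (norm_add_le _ _).trans (add_le_add (norm_add_le _ _) le_rfl)
        rw [norm_mul] at k2
        have hS : ‖(S : ℂ)‖ = (S : ℝ) := by simp
        rw [hS] at k2
        have k3 := norm_cv_le_nsq (mx + X) (my + Y)
        rw [Nat.cast_add, Nat.cast_add]
        simp only at hm1
        linarith
      · have := ih ms ⟨x', y', r', m'⟩ (w * q) (fun k => fm (k + 1)) (fun k => fp (k + 1)) hw' hp2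
          hm2
        have e : (fun k => ‖fm (k + 1) + w * q ^ (k + 1 + 1) * fp (k + 1)‖) =
            fun k => ‖fm (k + 1) + w * q * q ^ (k + 1) * fp (k + 1)‖ := by
          funext k
          congr 2
          ring
        rw [e]
        exact this

/-- total cost -/
def costL (cap : ℕ → ℕ) : ℕ → List ℕ → ℕ
  | _, [] => 0
  | k, u :: t => cap k * u / S + 1 + costL cap (k + 1) t

theorem costL_ok (cap : ℕ → ℕ) (L : List ℕ) : ∀ (k₀ : ℕ) (φ s : ℕ → ℝ), UbOK φ L →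
    (∀ k < L.length, 0 ≤ s k ∧ s k * S ≤ cap (k₀ + k)) → (∀ k, 0 ≤ φ k) →
    (∑ k ∈ Finset.range L.length, s k * φ k) * S ≤ costL cap k₀ L := by
  induction L with
  | nil => intro k₀ φ s _ _ _; simp [costL]
  | cons u t ih =>
    intro k₀ φ s h hs hφ
    obtain ⟨h1, h2⟩ := h
    have h3 := ih (k₀ + 1) (fun k => φ (k + 1)) (fun k => s (k + 1)) h2
      (fun k hk => by
        have := hs (k + 1) (by simpa using hk)
        rw [show k₀ + 1 + k = k₀ + (k + 1) by ring]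
        exact this) (fun k => hφ _)
    rw [List.length_cons, Finset.sum_range_succ', add_mul]
    unfold costL
    have h4 := hs 0 (by simp)
    rw [add_zero] at h4
    have h5 : s 0 * φ 0 * S ≤ ((cap k₀ * u : ℕ) : ℝ) / S := by
      rw [le_div_iff₀ S_posR]
      push_cast
      calc s 0 * φ 0 * S * S = (s 0 * S) * (φ 0 * S) := by ring
        _ ≤ _ := mul_le_mul h4.2 h1 (mul_nonneg (hφ 0) (by positivity)) (by positivity)
    have h6 := Bl.nat_div_err (cap k₀ * u)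
    push_cast at *
    linarith

/-- tail bound -/
def tailU (L c ρ : ℕ) : ℕ := L * c / (S - ρ) + 1

theorem tailU_ok (L c ρ : ℕ) (B C r : ℝ) (hB0 : 0 ≤ B) (hC0 : 0 ≤ C) (hB : B * S ≤ L)
    (hC : C * S ≤ c) (hr : r * S ≤ ρ) (hρ : ρ < S) : B * C / (1 - r) * S ≤ tailU L c ρ := by
  unfold tailU
  have hS := S_posR
  have hρ' : (ρ : ℝ) < S := by exact_mod_cast hρ
  have h1 : (0 : ℝ) < S - ρ := by linarith
  have h2 : (1 - r) * S ≥ S - ρ := by linarith
  have hr1 : 0 < 1 - r := by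
    by_contra hcon
    push Not at hcon
    nlinarith
  have h3 : B * C / (1 - r) * S ≤ ((L * c : ℕ) : ℝ) / (S - ρ : ℕ) := by
    have e : ((S - ρ : ℕ) : ℝ) = S - ρ := by
      rw [Nat.cast_sub hρ.le]
    rw [e, le_div_iff₀ h1]
    push_cast
    calc B * C / (1 - r) * S * (S - ρ) ≤ B * C / (1 - r) * S * ((1 - r) * S) := by
          apply mul_le_mul_of_nonneg_left h2
          positivity
      _ = (B * S) * (C * S) := by field_simp
      _ ≤ _ := mul_le_mul hB hC (by positivity) (by positivity)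
  refine h3.trans ?_
  have h4 : 0 < S - ρ := by omega
  have h5 := Nat.lt_div_mul_add (a := L * c) h4
  rw [div_le_iff₀ (by exact_mod_cast h4)]
  have h6 : ((L * c : ℕ) : ℝ) ≤ ((L * c / (S - ρ) : ℕ) : ℝ) * ((S - ρ : ℕ) : ℝ) +
    ((S - ρ : ℕ) : ℝ) := by exact_mod_cast h5.le
  push_cast at *
  linarith

/-- bound of a functional with geometric tail -/
theorem tot (w Φ : ℕ → ℂ) (s : ℕ → ℝ) (V : ℂ) (h : HasSum (fun k => w k * Φ k) V) (n : ℕ)
    (B C r : ℝ) (hs : ∀ k < n, ‖w k‖ ≤ s k) (hΦ : ∀ j, ‖Φ (n + j)‖ ≤ B)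
    (hC : ∀ j, ‖w (n + j)‖ ≤ C * r ^ j) (hr0 : 0 ≤ r) (hr1 : r < 1) (hC0 : 0 ≤ C) :
    ‖V‖ ≤ ∑ k ∈ Finset.range n, s k * ‖Φ k‖ + B * C / (1 - r) := by
  have hg : HasSum (fun j : ℕ => B * C * r ^ j) (B * C / (1 - r)) := by
    have := (hasSum_geometric_of_lt_one hr0 hr1).mul_left (B * C)
    rwa [← div_eq_mul_inv] at this
  have hb : HasSum (fun k : ℕ => if k < n then s k * ‖Φ k‖ else B * C * r ^ (k - n))
      (∑ k ∈ Finset.range n, s k * ‖Φ k‖ + B * C / (1 - r)) := by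
    have h1 := (hasSum_nat_add_iff (f := fun k : ℕ => if k < n then s k * ‖Φ k‖ else
      B * C * r ^ (k - n)) n (g := B * C / (1 - r))).1 (by
        refine hg.congr_fun ?_
        intro j
        simp)
    have h2 : ∑ k ∈ Finset.range n, (if k < n then s k * ‖Φ k‖ else B * C * r ^ (k - n)) =
        ∑ k ∈ Finset.range n, s k * ‖Φ k‖ :=
      Finset.sum_congr rfl fun k hk => by rw [if_pos (Finset.mem_range.1 hk)]
    rw [h2] at h1
    rwa [add_comm]
  refine h.norm_le_of_bounded hb ?_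
  intro k
  by_cases hk : k < n
  · rw [if_pos hk, norm_mul]
    exact mul_le_mul_of_nonneg_right (hs k hk) (norm_nonneg _)
  · rw [if_neg hk, norm_mul]
    obtain ⟨j, rfl⟩ : ∃ j, k = n + j := ⟨k - n, by omega⟩
    rw [Nat.add_sub_cancel_left]
    calc ‖w (n + j)‖ * ‖Φ (n + j)‖ ≤ (C * r ^ j) * B :=
          mul_le_mul (hC j) (hΦ j) (norm_nonneg _) (by positivity)
      _ = _ := by ring

end Run7.h281
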