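import Pool.Agent.Run7.h281.C1G0
import Pool.Agent.Run7.h281.C1G1
import Pool.Agent.Run7.h281.C1G2
import Pool.Agent.Run7.h281.C1G3
import Pool.Agent.Run7.h281.C1G4
import Pool.Agent.Run7.h281.C1G5
import Pool.Agent.Run7.h281.C1G6
import Pool.Agent.Run7.h281.C1G7
import Pool.Agent.Run7.h281.C2G0
import Pool.Agent.Run7.h281.C2G1
import Pool.Agent.Run7.h281.C2G2
import Pool.Agent.Run7.h281.C2G3
import Pool.Agent.Run7.h281.C3G0
import Pool.Agent.Run7.h281.C3G1
import Pool.Agent.Run7.h281.C3G2
set_option autoImplicit false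

/-! The certificates combined: constant `80 / 49`. -/

namespace Run7.h281

open Complex

theorem no1_conj {md : Bool} {Nm : ℕ} {K δ : ℝ} {Q : ℂ} (h : No1 md Nm K δ Q) :
    No1 md Nm K δ ((starRingEnd ℂ) Q) := by
  intro w hw hA
  rw [RCLike.norm_conj] at hw
  refine h (fun k => (starRingEnd ℂ) (w k)) (fun N j hN => by
    rw [RCLike.norm_conj]; exact hw N j hN) ?_
  intro z hz
  have h1 := hA ((starRingEnd ℂ) z) (by rw [RCLike.norm_conj, hz])
  rw [← RCLike.norm_conj] at h1
  refine le_trans (le_of_eq ?_) h1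
  congr 1
  rw [map_add, map_add, map_add, map_mul, map_pow, Complex.conj_tsum, map_one]
  simp only [map_mul, map_add, map_inv₀, map_pow, Complex.conj_conj]

/-- `δ` -/
noncomputable def dlt : ℝ := 1 / 10000

theorem dlt_S : dlt * S ≤ ((109951163 : ℕ) : ℝ) := by
  unfold dlt S; norm_num

theorem dlt_0 : 0 ≤ dlt := by unfold dlt; norm_num

theorem t1_chunk {md : Bool} {Nm KN KD R : ℕ} (hNm : Nm ≤ 61) (hKD : 0 < KD) {t : T} {x y : ℤ}
    {h : ℕ} (hc : t.chk (t1leaf md Nm KN KD 109951163) (outS R) x y h = true) (Q : ℂ)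
    (hQ : Sq Q x y h) (hR : ‖Q‖ * S ≤ R) : No1 md Nm ((KN : ℝ) / KD) dlt Q := by
  refine t.chk_ok (P := fun Q => ‖Q‖ * S ≤ R → No1 md Nm ((KN : ℝ) / KD) dlt Q) ?_ ?_ x y h hc Q
    hQ hR
  · intro x y h c hl Q hQ _
    exact t1leaf_ok md Nm KN KD 109951163 hNm hKD dlt dlt_0 dlt_S x y h c hl Q hQ
  · intro x y h ho Q hQ hR'
    exact absurd (outS_ok R x y h ho Q hQ) (by linarith)

theorem split8 {P : Prop} (a b : ℝ) (ha : |a| ≤ 1099511627776) (hb0 : 0 ≤ b)
    (hb : b ≤ 1099511627776)
    (h : ∀ (x y : ℤ), (x = -824633720832 ∨ x = -274877906944 ∨ x = 274877906944 ∨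
      x = 824633720832) → (y = 274877906944 ∨ y = 824633720832) → |a - x| ≤ 274877906944 →
      |b - y| ≤ 274877906944 → P) : P := by
  have ha' := abs_le.1 ha
  rcases le_total b 549755813888 with h1 | h1
  · have hy : |b - (274877906944 : ℤ)| ≤ 274877906944 := by
      rw [abs_le]; push_cast; constructor <;> linarith
    rcases le_total a (-549755813888) with h2 | h2
    · exact h (-824633720832) 274877906944 (by simp) (by simp)
        (by rw [abs_le]; push_cast; constructor <;> linarith [ha'.1]) hy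
    rcases le_total a 0 with h3 | h3
    · exact h (-274877906944) 274877906944 (by simp) (by simp)
        (by rw [abs_le]; push_cast; constructor <;> linarith [ha'.1]) hy
    rcases le_total a 549755813888 with h4 | h4
    · exact h 274877906944 274877906944 (by simp) (by simp)
        (by rw [abs_le]; push_cast; constructor <;> linarith [ha'.1]) hy
    · exact h 824633720832 274877906944 (by simp) (by simp)
        (by rw [abs_le]; push_cast; constructor <;> linarith [ha'.1]) hy
  · have hy : |b - (824633720832 : ℤ)| ≤ 274877906944 := by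
      rw [abs_le]; push_cast; constructor <;> linarith
    rcases le_total a (-549755813888) with h2 | h2
    · exact h (-824633720832) 824633720832 (by simp) (by simp)
        (by rw [abs_le]; push_cast; constructor <;> linarith [ha'.1]) hy
    rcases le_total a 0 with h3 | h3
    · exact h (-274877906944) 824633720832 (by simp) (by simp)
        (by rw [abs_le]; push_cast; constructor <;> linarith [ha'.1]) hy
    rcases le_total a 549755813888 with h4 | h4
    · exact h 274877906944 824633720832 (by simp) (by simp)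
        (by rw [abs_le]; push_cast; constructor <;> linarith [ha'.1]) hy
    · exact h 824633720832 824633720832 (by simp) (by simp)
        (by rw [abs_le]; push_cast; constructor <;> linarith [ha'.1]) hy

theorem re_im_bd {Q : ℂ} (h : ‖Q‖ ≤ 1) : |Q.re * S| ≤ 1099511627776 ∧
    |Q.im * S| ≤ 1099511627776 := by
  have h1 := (Complex.abs_re_le_norm Q).trans h
  have h2 := (Complex.abs_im_le_norm Q).trans h
  have hS : (S : ℝ) = 1099511627776 := by unfold S; norm_num
  rw [abs_mul, abs_mul, Nat.abs_cast, hS]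
  constructor <;> nlinarith

theorem no1_up (Q : ℂ) (h : ‖Q‖ ≤ 8159 / 10000) (him : 0 ≤ Q.im) :
    No1 false 61 ((80 : ℕ) / (49 : ℕ)) dlt Q := by
  have hb := re_im_bd (Q := Q) (by linarith)
  have hR : ‖Q‖ * S ≤ ((897091537103 : ℕ) : ℝ) := by
    have hS : (S : ℝ) = 1099511627776 := by unfold S; norm_num
    rw [hS]
    push_cast
    nlinarith
  refine split8 (Q.re * S) (Q.im * S) hb.1 (mul_nonneg him S_posR.le) (le_of_abs_le hb.2) ?_
  intro x y hx hy h1 h2
  have hQ : Sq Q x y 274877906944 := ⟨by push_cast; exact h1, by push_cast; exact h2⟩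
  rcases hy with rfl | rfl <;> rcases hx with rfl | rfl | rfl | rfl
  · exact t1_chunk (by norm_num) (by norm_num) t1G0_chk Q hQ hR
  · exact t1_chunk (by norm_num) (by norm_num) t1G2_chk Q hQ hR
  · exact t1_chunk (by norm_num) (by norm_num) t1G4_chk Q hQ hR
  · exact t1_chunk (by norm_num) (by norm_num) t1G6_chk Q hQ hR
  · exact t1_chunk (by norm_num) (by norm_num) t1G1_chk Q hQ hR
  · exact t1_chunk (by norm_num) (by norm_num) t1G3_chk Q hQ hR
  · exact t1_chunk (by norm_num) (by norm_num) t1G5_chk Q hQ hR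
  · exact t1_chunk (by norm_num) (by norm_num) t1G7_chk Q hQ hR

theorem no1 (Q : ℂ) (h : ‖Q‖ ≤ 8159 / 10000) : No1 false 61 (80 / 49) dlt Q := by
  have e : ((80 : ℕ) : ℝ) / ((49 : ℕ) : ℝ) = 80 / 49 := by norm_num
  rw [← e]
  rcases le_total 0 Q.im with h1 | h1
  · exact no1_up Q h h1
  · have h2 := no1_conj (no1_up ((starRingEnd ℂ) Q) (by rw [RCLike.norm_conj]; exact h)
      (by rw [Complex.conj_im]; linarith))
    rwa [Complex.conj_conj] at h2

theorem no2_conj {K δ : ℝ} {X : ℂ} (h : No2 K δ X) : No2 K δ ((starRingEnd ℂ) X) := by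
  rintro β l ⟨c1, c2, c3, c4⟩ ⟨hS, hB⟩
  rw [RCLike.norm_conj] at c3 c4
  refine h (fun k => (starRingEnd ℂ) (β k)) (fun k => (starRingEnd ℂ) (l k))
    ⟨by rw [RCLike.norm_conj]; exact c1, by simp [c2], fun j t ht => by
      rw [RCLike.norm_conj]; exact c3 j t ht, fun k => by rw [RCLike.norm_conj]; exact c4 k⟩
    ⟨?_, ?_⟩
  · intro z hz
    have h1 := hS ((starRingEnd ℂ) z) (by rw [RCLike.norm_conj, hz])
    rw [← RCLike.norm_conj] at h1
    refine le_trans (le_of_eq ?_) h1
    congr 1
    unfold TS2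
    rw [map_add, map_add, map_add, map_add, map_mul, map_pow, map_pow, Complex.conj_tsum,
      Complex.conj_tsum, map_one]
    simp only [map_mul, map_inv₀, map_pow, Complex.conj_conj]
  · intro z hz
    have h1 := hB ((starRingEnd ℂ) z) (by rw [RCLike.norm_conj, hz])
    rw [← RCLike.norm_conj] at h1
    refine le_trans (le_of_eq ?_) h1
    congr 1
    unfold TB2
    rw [map_add, map_add, map_add, map_add, map_mul, map_pow, Complex.conj_tsum,
      Complex.conj_tsum, map_one]
    simp only [map_mul, map_inv₀, map_pow, Complex.conj_conj]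

theorem no2_neg {K δ : ℝ} {X : ℂ} (h : No2 K δ X) : No2 K δ (-X) := by
  rintro β l ⟨c1, c2, c3, c4⟩ ⟨hS, hB⟩
  rw [norm_neg] at c3 c4
  refine h (fun k => (-1) ^ (k + 1) * β k) l
    ⟨by simpa using c1, by simp [c2], fun j t ht => by
      rw [norm_mul, norm_pow, norm_neg, norm_one, one_pow, one_mul]; exact c3 j t ht, c4⟩
    ⟨?_, ?_⟩
  · intro z hz
    have h1 := hS z hz
    refine le_trans (le_of_eq ?_) h1
    congr 1
    unfold TS2
    rw [neg_sq]
    congr 2
    refine tsum_congr fun k => ?_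
    rw [neg_pow X]
    ring
  · intro z hz
    have h1 := hB (-z) (by rw [norm_neg, hz])
    refine le_trans (le_of_eq ?_) h1
    congr 1
    unfold TB2
    have e1 : ∀ n : ℕ, ((-z) ^ n)⁻¹ = (-1) ^ n * (z ^ n)⁻¹ := by
      intro n
      rw [neg_pow, mul_inv]
      congr 1
      rw [← inv_pow, inv_neg, inv_one]
    congr 1
    · congr 1
      · rw [pow_one, pow_one, neg_sq, inv_neg]
        ring
      · refine tsum_congr fun k => ?_
        rw [neg_pow z]
        ring
    · refine tsum_congr fun k => ?_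
      rw [e1, neg_pow X]
      have : ((-1 : ℂ) ^ (k + 2)) * (-1) ^ (k + 2) = 1 := by
        rw [← mul_pow]; norm_num
      linear_combination (-(l k * X ^ (k + 2) * (z ^ (k + 2))⁻¹)) * this

theorem t2_chunk {KN KD R : ℕ} (hKD : 0 < KD) {t : T} {x y : ℤ}
    {h : ℕ} (hc : t.chk (t2leaf KN KD 109951163) (outS R) x y h = true) (Q : ℂ)
    (hQ : Sq Q x y h) (hR : ‖Q‖ * S ≤ R) : No2 ((KN : ℝ) / KD) dlt Q := by
  refine t.chk_ok (P := fun Q => ‖Q‖ * S ≤ R → No2 ((KN : ℝ) / KD) dlt Q) ?_ ?_ x y h hc Q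
    hQ hR
  · intro x y h c hl Q hQ _
    exact t2leaf_ok KN KD 109951163 hKD dlt dlt_0 dlt_S x y h c hl Q hQ
  · intro x y h ho Q hQ hR'
    exact absurd (outS_ok R x y h ho Q hQ) (by linarith)

theorem no2_q (X : ℂ) (h : ‖X‖ ≤ 8159 / 10000) (hre : 0 ≤ X.re) (him : 0 ≤ X.im) :
    No2 ((80 : ℕ) / (49 : ℕ)) dlt X := by
  have hb := re_im_bd (Q := X) (by linarith)
  have hR : ‖X‖ * S ≤ ((897091537103 : ℕ) : ℝ) := by
    have hS : (S : ℝ) = 1099511627776 := by unfold S; norm_num
    rw [hS]
    push_cast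
    nlinarith
  have h1 := mul_nonneg hre S_posR.le
  have h2 := mul_nonneg him S_posR.le
  have h3 := (abs_le.1 hb.1).2
  have h4 := (abs_le.1 hb.2).2
  rcases le_total (X.re * S) 549755813888 with h5 | h5 <;>
    rcases le_total (X.im * S) 549755813888 with h6 | h6
  · exact t2_chunk (by norm_num) t2G0_chk X ⟨by rw [abs_le]; push_cast; constructor <;> linarith,
      by rw [abs_le]; push_cast; constructor <;> linarith⟩ hR
  · exact t2_chunk (by norm_num) t2G1_chk X ⟨by rw [abs_le]; push_cast; constructor <;> linarith,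
      by rw [abs_le]; push_cast; constructor <;> linarith⟩ hR
  · exact t2_chunk (by norm_num) t2G2_chk X ⟨by rw [abs_le]; push_cast; constructor <;> linarith,
      by rw [abs_le]; push_cast; constructor <;> linarith⟩ hR
  · exact t2_chunk (by norm_num) t2G3_chk X ⟨by rw [abs_le]; push_cast; constructor <;> linarith,
      by rw [abs_le]; push_cast; constructor <;> linarith⟩ hR

theorem no2 (X : ℂ) (h : ‖X‖ ≤ 8159 / 10000) : No2 (80 / 49) dlt X := by
  have e : ((80 : ℕ) : ℝ) / ((49 : ℕ) : ℝ) = 80 / 49 := by norm_num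
  rw [← e]
  have up : ∀ X : ℂ, ‖X‖ ≤ 8159 / 10000 → 0 ≤ X.im → No2 ((80 : ℕ) / (49 : ℕ)) dlt X := by
    intro X h him
    rcases le_total 0 X.re with h1 | h1
    · exact no2_q X h h1 him
    · have h2 := no2_neg (no2_conj (no2_q (-(starRingEnd ℂ) X)
        (by rw [norm_neg, RCLike.norm_conj]; exact h)
        (by rw [neg_re, Complex.conj_re]; linarith)
        (by rw [neg_im, Complex.conj_im]; linarith)))
      rwa [map_neg, Complex.conj_conj, neg_neg] at h2
  rcases le_total 0 X.im with h1 | h1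
  · exact up X h h1
  · have h2 := no2_conj (up ((starRingEnd ℂ) X) (by rw [RCLike.norm_conj]; exact h)
      (by rw [Complex.conj_im]; linarith))
    rwa [Complex.conj_conj] at h2

theorem no3r (x : ℝ) (h0 : 0 ≤ x) (h : x ≤ 8159 / 10000) : No3R (80 / 49) dlt x := by
  have e : ((80 : ℕ) : ℝ) / ((49 : ℕ) : ℝ) = 80 / 49 := by norm_num
  rw [← e]
  have hS : (S : ℝ) = 1099511627776 := by unfold S; norm_num
  have h1 : 0 ≤ x * S := mul_nonneg h0 S_posR.le
  have h2 : x * S < 897201488265 := by rw [hS]; nlinarith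
  rcases lt_or_ge (x * S) 503026569707 with h3 | h3
  · exact t3cells_ok 80 49 109951163 503026569707 (by norm_num) dlt dlt_0 dlt_S _ 0 t3G0_chk x
      (by push_cast; exact h1) (by push_cast; exact h3)
  rcases lt_or_ge (x * S) 537111430168 with h4 | h4
  · exact t3cells_ok 80 49 109951163 537111430168 (by norm_num) dlt dlt_0 dlt_S _ _ t3G1_chk x
      (by push_cast; exact h3) (by push_cast; exact h4)
  · exact t3cells_ok 80 49 109951163 897201488265 (by norm_num) dlt dlt_0 dlt_S _ _ t3G2_chk x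
      (by push_cast; exact h4) (by push_cast; exact h2)

end Run7.h281
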