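import Pool.Agent.Run7.h281.Fin
import Pool.Agent.Run7.h281.C1A0
import Pool.Agent.Run7.h281.C1A1
import Pool.Agent.Run7.h281.C1A2
import Pool.Agent.Run7.h281.C1A3
import Pool.Agent.Run7.h281.C1A4
import Pool.Agent.Run7.h281.C1A5
import Pool.Agent.Run7.h281.C1A6
import Pool.Agent.Run7.h281.C1A7
set_option autoImplicit false

/-! The certificates combined: equal gaps, constant `1000 / 589`. -/

namespace Run7.h281

open Complex

theorem no1A_up (Q : ℂ) (h : ‖Q‖ ≤ 9395 / 10000) (him : 0 ≤ Q.im) :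
    No1 true 20 ((1000 : ℕ) / (589 : ℕ)) dlt Q := by
  have hb := re_im_bd (Q := Q) (by linarith)
  have hR : ‖Q‖ * S ≤ ((1032991174296 : ℕ) : ℝ) := by
    have hS : (S : ℝ) = 1099511627776 := by unfold S; norm_num
    rw [hS]
    push_cast
    nlinarith
  refine split8 (Q.re * S) (Q.im * S) hb.1 (mul_nonneg him S_posR.le) (le_of_abs_le hb.2) ?_
  intro x y hx hy h1 h2
  have hQ : Sq Q x y 274877906944 := ⟨by push_cast; exact h1, by push_cast; exact h2⟩
  rcases hy with rfl | rfl <;> rcases hx with rfl | rfl | rfl | rfl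
  · exact t1_chunk (by norm_num) (by norm_num) t1A0_chk Q hQ hR
  · exact t1_chunk (by norm_num) (by norm_num) t1A2_chk Q hQ hR
  · exact t1_chunk (by norm_num) (by norm_num) t1A4_chk Q hQ hR
  · exact t1_chunk (by norm_num) (by norm_num) t1A6_chk Q hQ hR
  · exact t1_chunk (by norm_num) (by norm_num) t1A1_chk Q hQ hR
  · exact t1_chunk (by norm_num) (by norm_num) t1A3_chk Q hQ hR
  · exact t1_chunk (by norm_num) (by norm_num) t1A5_chk Q hQ hR
  · exact t1_chunk (by norm_num) (by norm_num) t1A7_chk Q hQ hR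

theorem no1A (Q : ℂ) (h : ‖Q‖ ≤ 9395 / 10000) : No1 true 20 (1000 / 589) dlt Q := by
  have e : ((1000 : ℕ) : ℝ) / ((589 : ℕ) : ℝ) = 1000 / 589 := by norm_num
  rw [← e]
  rcases le_total 0 Q.im with h1 | h1
  · exact no1A_up Q h h1
  · have h2 := no1_conj (no1A_up ((starRingEnd ℂ) Q) (by rw [RCLike.norm_conj]; exact h)
      (by rw [Complex.conj_im]; linarith))
    rwa [Complex.conj_conj] at h2

end Run7.h281
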