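import Pool.Agent.Run7.h281.T3d
set_option autoImplicit false

/-! From complex to real coefficients. -/

namespace Run7.h281

open Complex

/-- complex caps -/
structure CapC (x q : ℝ) (h0 : ℂ) (sp sm ap am gp gm hp hm : ℕ → ℂ) : Prop where
  ch0 : ‖h0‖ ≤ 1
  csp0 : sp 0 = 1
  csp1 : sp 1 = x * h0
  csp : ∀ k, ‖sp (k + 2)‖ ≤ x ^ (k + 2)
  csm : ∀ k, ‖sm k‖ ≤ q ^ (k + 1)
  cap0 : ap 0 = 1
  cap : ∀ k, ‖ap (k + 1)‖ ≤ q ^ (k + 1)
  cam : ∀ k, ‖am k‖ ≤ x ^ (k + 1)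
  cgp : ∀ k, ‖gp k‖ ≤ q ^ (k - 1)
  cgm : ∀ k, ‖gm k‖ ≤ x ^ (k + 2)
  chp : ∀ k, ‖hp k‖ ≤ q ^ k
  chm : ∀ k, ‖hm k‖ ≤ x ^ k

theorem Bi_symm (c : ℂ) (p m : ℕ → ℂ) (hp : Summable fun k => ‖p k‖)
    (hm : Summable fun k => ‖m k‖) {u : ℂ} (hu : ‖u‖ = 1) :
    Bi ((c.re : ℝ) : ℂ) (rc fun k => (p k).re) (rc fun k => (m k).re) u =
      (Bi c p m u + (starRingEnd ℂ) (Bi c p m ((starRingEnd ℂ) u))) / 2 := by
  have sm : ∀ (c f : ℕ → ℂ), Summable (fun k => ‖c k‖) → (∀ k, ‖f k‖ = 1) →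
      Summable fun k => c k * f k := by
    intro c f hc hf
    refine Summable.of_norm_bounded hc ?_
    intro k
    rw [norm_mul, hf, mul_one]
  have hp' : Summable fun k => ‖(starRingEnd ℂ) (p k)‖ := by
    simp_rw [RCLike.norm_conj]; exact hp
  have hm' : Summable fun k => ‖(starRingEnd ℂ) (m k)‖ := by
    simp_rw [RCLike.norm_conj]; exact hm
  have f1 : ∀ k : ℕ, ‖u ^ (k + 1)‖ = 1 := by intro k; rw [norm_pow, hu, one_pow]
  have f2 : ∀ k : ℕ, ‖(u ^ (k + 1))⁻¹‖ = 1 := by intro k; rw [norm_inv, f1, inv_one]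
  have s1 := sm p _ hp f1
  have s2 := sm _ _ hp' f1
  have s3 := sm m _ hm f2
  have s4 := sm _ _ hm' f2
  unfold Bi rc
  rw [map_add, map_add, Complex.conj_tsum, Complex.conj_tsum]
  simp only [map_mul, map_pow, map_inv₀, Complex.conj_conj]
  have e1 : ∀ k, ((p k).re : ℂ) * u ^ (k + 1) = (p k * u ^ (k + 1) +
      (starRingEnd ℂ) (p k) * u ^ (k + 1)) / 2 := by
    intro k
    rw [← add_mul, Complex.add_conj]
    push_cast
    ring
  have e2 : ∀ k, ((m k).re : ℂ) * (u ^ (k + 1))⁻¹ = (m k * (u ^ (k + 1))⁻¹ +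
      (starRingEnd ℂ) (m k) * (u ^ (k + 1))⁻¹) / 2 := by
    intro k
    rw [← add_mul, Complex.add_conj]
    push_cast
    ring
  simp_rw [e1, e2]
  rw [tsum_div_const, tsum_div_const, s1.tsum_add s2, s3.tsum_add s4]
  have e3 : ((c.re : ℝ) : ℂ) = (c + (starRingEnd ℂ) c) / 2 := by
    rw [Complex.add_conj]
    push_cast
    ring
  rw [e3]
  ring

theorem Val_symm {K : ℝ} {A G H A' G' H' : ℂ} (h : Val K A G H) (h' : Val K A' G' H') :
    Val K ((A + (starRingEnd ℂ) A') / 2) ((G + (starRingEnd ℂ) G') / 2)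
      ((H + (starRingEnd ℂ) H') / 2) := by
  refine ⟨?_, ?_⟩
  · have aux : ∀ a b : ℂ, ‖(a + (starRingEnd ℂ) b) / 2‖ ^ 2 ≤ (‖a‖ ^ 2 + ‖b‖ ^ 2) / 2 := by
      intro a b
      have h1 : ‖(a + (starRingEnd ℂ) b) / 2‖ ≤ (‖a‖ + ‖b‖) / 2 := by
        rw [norm_div]
        have : ‖(2 : ℂ)‖ = 2 := by simp
        rw [this]
        have h2 := norm_add_le a ((starRingEnd ℂ) b)
        rw [RCLike.norm_conj] at h2
        linarith
      calc ‖(a + (starRingEnd ℂ) b) / 2‖ ^ 2 ≤ ((‖a‖ + ‖b‖) / 2) ^ 2 :=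
            pow_le_pow_left₀ (norm_nonneg _) h1 2
        _ ≤ _ := by nlinarith [sq_nonneg (‖a‖ - ‖b‖)]
    have h1 := aux A A'
    have h2 := aux G G'
    have h3 := aux H H'
    have h4 := h.1
    have h5 := h'.1
    linarith
  · intro κ hκ
    have h1 := h.2 κ hκ
    have h2 := h'.2 ((starRingEnd ℂ) κ) (by rw [RCLike.norm_conj, hκ])
    rw [Complex.conj_conj, ← RCLike.norm_conj] at h2
    simp only [map_add, map_mul, Complex.conj_conj] at h2
    have e2 : (starRingEnd ℂ) (2 : ℂ) = 2 := Complex.conj_ofNat 2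
    rw [e2] at h2
    have e : 2 * ((A + (starRingEnd ℂ) A') / 2) + κ * ((G + (starRingEnd ℂ) G') / 2) +
        (starRingEnd ℂ) κ * ((H + (starRingEnd ℂ) H') / 2) =
        ((2 * A + κ * G + (starRingEnd ℂ) κ * H) + (2 * (starRingEnd ℂ) A' +
        κ * (starRingEnd ℂ) G' + (starRingEnd ℂ) κ * (starRingEnd ℂ) H')) / 2 := by ring
    rw [e, norm_div]
    have : ‖(2 : ℂ)‖ = 2 := by simp
    rw [this, div_le_iff₀ (by norm_num)]
    refine (norm_add_le _ _).trans ?_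
    linarith

theorem no3_of_real {K δ x : ℝ} (hx0 : 0 ≤ x) (hδ : 0 ≤ δ) (hq : x + δ < 1) (h : No3R K δ x)
    (h0 : ℂ) (sp sm ap am gp gm hp hm : ℕ → ℂ)
    (hc : CapC x (x + δ) h0 sp sm ap am gp gm hp hm)
    (hS : ∀ z : ℂ, ‖z‖ = 1 → ‖Bi 1 sp sm z‖ ≤ K)
    (hB : ∀ u : ℂ, ‖u‖ = 1 → Val K (Bi 1 ap am u) (Bi (x : ℂ) gp gm u) (Bi h0 hp hm u)) :
    False := by
  obtain ⟨ch0, csp0, csp1, csp, csm, cap0, cap, cam, cgp, cgm, chp, chm⟩ := hc
  have hx1 : x < 1 := by linarith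
  have hq0 : 0 ≤ x + δ := by linarith
  have re_le : ∀ z : ℂ, |z.re| ≤ ‖z‖ := Complex.abs_re_le_norm
  have ssum : ∀ (p : ℕ → ℂ) (r : ℝ) (n : ℕ), 0 ≤ r → r < 1 → (∀ k, ‖p (k + n)‖ ≤ r ^ k) →
      Summable fun k => ‖p k‖ := by
    intro p r n h0 h1 h
    rw [← summable_nat_add_iff n]
    exact Summable.of_nonneg_of_le (fun _ => norm_nonneg _) h (summable_geometric_of_lt_one h0 h1)
  have mle : ∀ (n : ℕ) (x : ℝ), 0 ≤ x → x < 1 → ∀ k, x ^ (k + n) ≤ x ^ k := fun n x h h' k =>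
    pow_le_pow_of_le_one h h'.le (by omega)
  have ssp := ssum sp x 2 hx0 hx1 (fun k => (csp k).trans (mle _ _ hx0 hx1 k))
  have ssm := ssum sm (x + δ) 0 hq0 hq (fun k => (csm k).trans (mle _ _ hq0 hq k))
  have sap := ssum ap (x + δ) 1 hq0 hq (fun k => (cap k).trans (mle _ _ hq0 hq k))
  have sam := ssum am x 0 hx0 hx1 (fun k => (cam k).trans (mle _ _ hx0 hx1 k))
  have sgp := ssum gp (x + δ) 1 hq0 hq (fun k => (cgp (k + 1)).trans (le_of_eq (by simp)))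
  have sgm := ssum gm x 0 hx0 hx1 (fun k => (cgm k).trans (mle _ _ hx0 hx1 k))
  have shp := ssum hp (x + δ) 0 hq0 hq (fun k => (chp k).trans (mle 0 _ hq0 hq k))
  have shm := ssum hm x 0 hx0 hx1 (fun k => (chm k).trans (mle 0 _ hx0 hx1 k))
  refine h h0.re (fun k => (sp k).re) (fun k => (sm k).re) (fun k => (ap k).re)
    (fun k => (am k).re) (fun k => (gp k).re) (fun k => (gm k).re) (fun k => (hp k).re)
    (fun k => (hm k).re)
    ⟨(re_le _).trans ch0, by rw [csp0, one_re], by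
      rw [csp1, re_ofReal_mul], fun k => (re_le _).trans (csp k),
      fun k => (re_le _).trans (csm k), by rw [cap0, one_re],
      fun k => (re_le _).trans (cap k), fun k => (re_le _).trans (cam k),
      fun k => (re_le _).trans (cgp k), fun k => (re_le _).trans (cgm k),
      fun k => (re_le _).trans (chp k), fun k => (re_le _).trans (chm k)⟩ ?_ ?_
  · intro z hz
    have hz' : ‖(starRingEnd ℂ) z‖ = 1 := by rw [RCLike.norm_conj, hz]
    have e := Bi_symm 1 sp sm ssp ssm hz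
    rw [one_re] at e
    rw [e, norm_div]
    have h1 := hS z hz
    have h2 := hS _ hz'
    have : ‖(2 : ℂ)‖ = 2 := by simp
    rw [this, div_le_iff₀ (by norm_num)]
    refine (norm_add_le _ _).trans ?_
    rw [RCLike.norm_conj]
    linarith
  · intro u hu
    have hu' : ‖(starRingEnd ℂ) u‖ = 1 := by rw [RCLike.norm_conj, hu]
    have e1 := Bi_symm 1 ap am sap sam hu
    rw [one_re] at e1
    have e2 := Bi_symm (x : ℂ) gp gm sgp sgm hu
    rw [ofReal_re] at e2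
    have e3 := Bi_symm h0 hp hm shp shm hu
    rw [e1, e2, e3]
    exact Val_symm (hB u hu) (hB _ hu')

end Run7.h281
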