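import Pool.Agent.Run7.h281.Avg
import Pool.Agent.Run7.h281.T3e
import Pool.Agent.Run7.h281.Fin
set_option autoImplicit false

/-! The local picture at a near-extremal vertex and the contradiction. -/

namespace Run7.h281

open Complex

/-- local picture at a vertex with gaps `e ≤ d` -/
structure Loc (K ρ : ℝ) (e d : ℕ) (b : ℤ → ℂ) : Prop where
  he : 0 < e
  hed : e ≤ d
  r0 : 0 < ρ
  r1 : ρ ≤ 1
  b0 : b 0 = 1
  bd : b d = 1
  be : ‖b (-e)‖ = ρ ^ e
  sum1 : Summable (fun k => ‖b k‖)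
  sumr : Summable (fun k => ‖b k * (ρ : ℂ) ^ k‖)
  cap1 : ∀ k, ‖b k‖ ≤ 1
  capr : ∀ n : ℕ, ‖b (-n)‖ ≤ ρ ^ n
  rB : ∀ t j : ℕ, j * d ≤ t → ‖b (d + t)‖ ≤ (ρ ^ e + dlt) ^ j
  lS : ∀ t j : ℕ, j * e ≤ t → ‖b (-(e + t))‖ ≤ (ρ ^ e + dlt) ^ j * ρ ^ (e + t)
  B1 : ∀ u : ℂ, ‖u‖ = 1 → ‖Fz b u‖ ≤ K
  Br : ∀ u : ℂ, ‖u‖ = 1 → ‖Fz (fun k => b k * (ρ : ℂ) ^ k) u‖ ≤ K
  hx : ρ ^ e ≤ 8159 / 10000

/-- twisting by a unit -/
theorem Fz_twist (c : ℤ → ℂ) (p z : ℂ) : Fz (fun j => c j * p ^ j) z = Fz c (p * z) := by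
  unfold Fz
  refine tsum_congr fun k => ?_
  rw [mul_zpow]
  ring

section

variable {K ρ : ℝ} {e d : ℕ} {b : ℤ → ℂ}

theorem Loc.x_pos (h : Loc K ρ e d b) : 0 < ρ ^ e := pow_pos h.r0 _

/-- small circle, lattice of step `e` -/
theorem Loc.latS (h : Loc K ρ e d b) {z : ℂ} (hz : ‖z‖ = 1) :
    ‖Fz (fun j => b (e * j) * b (-e) ^ j) z‖ ≤ K := by
  have hx := h.x_pos
  have hxC : ((ρ ^ e : ℝ) : ℂ) ≠ 0 := by exact_mod_cast hx.ne'
  set p : ℂ := b (-e) / ((ρ ^ e : ℝ) : ℂ) with hp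
  have hp1 : ‖p‖ = 1 := by
    rw [hp, norm_div, h.be, Complex.norm_real, Real.norm_eq_abs, abs_of_pos hx,
      div_self hx.ne']
  have h1 := lat_bound h.sumr h.he h.Br (w := p * z) (by rw [norm_mul, hp1, hz, one_mul])
  rw [← Fz_twist] at h1
  have e1 : (fun j : ℤ => b (e * j) * (ρ : ℂ) ^ ((e : ℤ) * j) * p ^ j) =
      fun j => b (e * j) * b (-e) ^ j := by
    funext j
    rw [mul_assoc]
    congr 1
    rw [zpow_mul, zpow_natCast, ← mul_zpow]
    congr 1
    rw [hp]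
    push_cast
    push_cast at hxC
    field_simp
  rw [e1] at h1
  exact h1

theorem Loc.latS_sum (h : Loc K ρ e d b) : Summable fun j : ℤ => ‖b (e * j) * b (-e) ^ j‖ := by
  have hinj : Function.Injective (fun j : ℤ => (e : ℤ) * j) := by
    intro a c hac
    exact mul_left_cancel₀ (by have := h.he; exact_mod_cast this.ne') hac
  have h1 := h.sumr.comp_injective hinj
  refine h1.congr ?_
  intro j
  simp only [Function.comp]
  rw [norm_mul, norm_mul, norm_zpow, norm_zpow, h.be, zpow_mul, zpow_natCast, Complex.norm_real,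
    Real.norm_eq_abs, abs_of_pos h.r0]

theorem Loc.lat_sum (h : Loc K ρ e d b) {n : ℕ} (hn : 0 < n) (r : ℤ) :
    Summable fun j : ℤ => ‖b (n * j + r)‖ := by
  have hinj : Function.Injective (fun j : ℤ => (n : ℤ) * j + r) := by
    intro a c hac
    exact mul_left_cancel₀ (by exact_mod_cast hn.ne') (add_right_cancel hac)
  exact h.sum1.comp_injective hinj

theorem Loc.q_lt (h : Loc K ρ e d b) : ρ ^ e + dlt < 1 := by
  have := h.hx
  unfold dlt
  linarith

theorem Loc.q_nn (h : Loc K ρ e d b) : 0 ≤ ρ ^ e + dlt := add_nonneg h.x_pos.le dlt_0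

/-- equal gaps -/
theorem Loc.case1 (h : Loc (80 / 49) ρ e e b) : False := by
  set Q : ℂ := b (-e) with hQ
  have hQn : ‖Q‖ = ρ ^ e := h.be
  have hx := h.x_pos
  have hQ0 : Q ≠ 0 := by
    intro h0
    rw [h0, norm_zero] at hQn
    linarith
  set w : ℕ → ℂ := fun k => (b (e * ((k : ℤ) + 1)) +
    b (e * (-((k : ℤ) + 1))) * (Q ^ (k + 1))⁻¹) / 2 with hw
  have hd0 := h.q_nn
  -- caps
  have hcap : ∀ k, ‖w k‖ ≤ (‖Q‖ + dlt) ^ k := by
    intro k
    rw [hQn, hw]
    simp only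
    rw [norm_div]
    have e2 : ‖(2 : ℂ)‖ = 2 := by simp
    rw [e2, div_le_iff₀ (by norm_num)]
    have h1 : ‖b (e * ((k : ℤ) + 1))‖ ≤ (ρ ^ e + dlt) ^ k := by
      have := h.rB (e * k) k (by rw [mul_comm])
      rwa [show (e : ℤ) + ((e * k : ℕ) : ℤ) = e * ((k : ℤ) + 1) by push_cast; ring] at this
    have h2 : ‖b (e * (-((k : ℤ) + 1))) * (Q ^ (k + 1))⁻¹‖ ≤ (ρ ^ e + dlt) ^ k := by
      rw [norm_mul, norm_inv, norm_pow, hQn, ← div_eq_mul_inv, div_le_iff₀ (by positivity)]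
      have := h.lS (e * k) k (by rw [mul_comm])
      rw [show -((e : ℤ) + ((e * k : ℕ) : ℤ)) = e * (-((k : ℤ) + 1)) by push_cast; ring] at this
      rwa [show e + e * k = e * (k + 1) by ring, pow_mul] at this
    calc ‖b (e * ((k : ℤ) + 1)) + b (e * (-((k : ℤ) + 1))) * (Q ^ (k + 1))⁻¹‖
        ≤ _ := norm_add_le _ _
      _ ≤ _ := by linarith
  refine no1 Q (by rw [hQn]; exact h.hx) w (fun N j _ => ?_) ?_
  · have := hcap (N + j)
    simpa [ecap, gcap] using this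
  intro z hz
  have hz0 := unit_ne hz
  have hzi : ‖z⁻¹‖ = 1 := by rw [norm_inv, hz, inv_one]
  -- the two values
  have hs1 : Summable fun j : ℤ => ‖b (e * j)‖ := by
    have := h.lat_sum h.he 0
    simpa using this
  have v1 := lat_bound h.sum1 h.he h.B1 hzi
  have v2 := h.latS hz
  rw [Fz_eq_Bi hs1 hzi] at v1
  rw [Fz_eq_Bi h.latS_sum hz] at v2
  simp only [mul_zero, h.b0, zpow_zero, mul_one] at v1 v2
  rw [← hQ] at v2
  -- summabilities
  have cs : ∀ (c : ℤ → ℂ), (Summable fun j : ℤ => ‖c j‖) → (Summable fun k : ℕ => ‖c (k + 1)‖) ∧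
      Summable fun k : ℕ => ‖c (-(k + 1))‖ := by
    intro c hc
    refine ⟨hc.comp_injective (i := fun n : ℕ => ((n : ℤ) + 1)) ?_,
      hc.comp_injective (i := fun n : ℕ => (-((n : ℤ) + 1))) ?_⟩
    · intro a c hac; simpa using hac
    · intro a c hac; simpa using hac
  have sm : ∀ (c f : ℕ → ℂ), Summable (fun k => ‖c k‖) → (∀ k, ‖f k‖ = 1) →
      HasSum (fun k => c k * f k) (∑' k, c k * f k) := by
    intro c f hc hf
    apply Summable.hasSum
    refine Summable.of_norm_bounded hc ?_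
    intro k
    rw [norm_mul, hf, mul_one]
  have f1 : ∀ k : ℕ, ‖z ^ (k + 1)‖ = 1 := by intro k; rw [norm_pow, hz, one_pow]
  have f2 : ∀ k : ℕ, ‖(z ^ (k + 1))⁻¹‖ = 1 := by intro k; rw [norm_inv, f1, inv_one]
  have f3 : ∀ k : ℕ, ‖z⁻¹ ^ (k + 1)‖ = 1 := by intro k; rw [norm_pow, hzi, one_pow]
  have f4 : ∀ k : ℕ, ‖(z⁻¹ ^ (k + 1))⁻¹‖ = 1 := by intro k; rw [norm_inv, f3, inv_one]
  obtain ⟨c1, c2⟩ := cs _ hs1
  obtain ⟨c3, c4⟩ := cs _ h.latS_sum
  have S1 := sm _ _ c1 f3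
  have S2 := sm _ _ c2 f4
  have S3 := sm _ _ c3 f1
  have S4 := sm _ _ c4 f2
  unfold Bi at v1 v2
  rw [← hQ] at S3 S4
  set s1 := ∑' k : ℕ, b (e * ((k : ℤ) + 1)) * z⁻¹ ^ (k + 1)
  set s2 := ∑' k : ℕ, b (e * (-((k : ℤ) + 1))) * (z⁻¹ ^ (k + 1))⁻¹
  set s3 := ∑' k : ℕ, b (e * ((k : ℤ) + 1)) * Q ^ ((k : ℤ) + 1) * z ^ (k + 1)
  set s4 := ∑' k : ℕ, b (e * (-((k : ℤ) + 1))) * Q ^ (-((k : ℤ) + 1)) * (z ^ (k + 1))⁻¹
  have T1 : HasSum (fun k : ℕ => 2 * w k * ((z ^ (k + 1))⁻¹ + Q ^ (k + 1) * z ^ (k + 1)))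
      (s1 + s2 + s3 + s4) := by
    refine (((S1.add S2).add S3).add S4).congr_fun ?_
    intro k
    have e1 : Q ^ ((k : ℤ) + 1) = Q ^ (k + 1) := by norm_cast
    have e2 : Q ^ (-((k : ℤ) + 1)) = (Q ^ (k + 1))⁻¹ := by rw [zpow_neg, e1]
    have hQk : Q ^ (k + 1) ≠ 0 := pow_ne_zero _ hQ0
    rw [e1, e2, hw, inv_pow, inv_inv]
    simp only
    field_simp
    ring
  have T2 := (hasSum_nat_add_iff' 1).2 T1
  rw [Finset.sum_range_one] at T2
  have w0 : w 0 = 1 := by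
    rw [hw]
    simp only [Nat.cast_zero, zero_add, mul_one, pow_one, mul_neg]
    rw [h.bd, ← hQ, mul_inv_cancel₀ hQ0]
    norm_num
  have T3 := (T2.mul_left (z / 2)).tsum_eq
  have T4 : ∑' k : ℕ, w (k + 1) * ((z ^ (k + 1))⁻¹ + Q ^ (k + 2) * z ^ (k + 3)) =
      z / 2 * (s1 + s2 + s3 + s4 - 2 * w 0 * ((z ^ (0 + 1))⁻¹ + Q ^ (0 + 1) * z ^ (0 + 1))) := by
    rw [← T3]
    refine tsum_congr fun k => ?_
    field_simp
    ring
  rw [T4, w0]
  have e5 : 1 + z + Q * z ^ 2 + z / 2 * (s1 + s2 + s3 + s4 -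
      2 * 1 * ((z ^ (0 + 1))⁻¹ + Q ^ (0 + 1) * z ^ (0 + 1))) =
      z / 2 * ((1 + s1 + s2) + (1 + s3 + s4)) := by
    rw [zero_add, pow_one, pow_one]
    field_simp
    ring
  rw [e5, norm_mul, norm_div, hz]
  have e2 : ‖(2 : ℂ)‖ = 2 := by simp
  rw [e2]
  have := norm_add_le (1 + s1 + s2) (1 + s3 + s4)
  linarith

theorem cs_aux (c : ℤ → ℂ) (hc : Summable fun j : ℤ => ‖c j‖) :
    (Summable fun k : ℕ => ‖c (k + 1)‖) ∧ Summable fun k : ℕ => ‖c (-(k + 1))‖ := by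
  refine ⟨hc.comp_injective (i := fun n : ℕ => ((n : ℤ) + 1)) ?_,
    hc.comp_injective (i := fun n : ℕ => (-((n : ℤ) + 1))) ?_⟩
  · intro a c hac; simpa using hac
  · intro a c hac; simpa using hac

theorem sm_aux (c f : ℕ → ℂ) (hc : Summable fun k => ‖c k‖) (hf : ∀ k, ‖f k‖ = 1) :
    HasSum (fun k => c k * f k) (∑' k, c k * f k) := by
  apply Summable.hasSum
  refine Summable.of_norm_bounded hc ?_
  intro k
  rw [norm_mul, hf, mul_one]

/-- gaps `e`, `2 e` -/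
theorem Loc.case2 (h : Loc (80 / 49) ρ e (2 * e) b) : False := by
  set X : ℂ := b (-e) with hX
  have hXn : ‖X‖ = ρ ^ e := h.be
  have hx := h.x_pos
  have hX0 : X ≠ 0 := by
    intro h0
    rw [h0, norm_zero] at hXn
    linarith
  have hd0 := h.q_nn
  have hs1 : Summable fun j : ℤ => ‖b (e * j)‖ := by
    have := h.lat_sum h.he 0
    simpa using this
  set β : ℕ → ℂ := fun k => if k = 1 then 0 else b (e * ((k : ℤ) + 1)) with hβ
  set l : ℕ → ℂ := fun k => b (e * (-((k : ℤ) + 2))) * (X ^ (k + 2))⁻¹ with hl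
  have hcap : Cap2 (‖X‖ + dlt) β l := by
    rw [hXn]
    refine ⟨?_, ?_, ?_, ?_⟩
    · rw [hβ]; simp only; rw [if_neg (by norm_num)]; exact h.cap1 _
    · rw [hβ]; simp
    · intro j t hjt
      rw [hβ]
      simp only
      rcases t with _ | t
      · rw [zero_add, if_pos rfl, norm_zero]; exact pow_nonneg hd0 _
      · rw [if_neg (by omega)]
        have := h.rB (e * (t + 1)) j (by
          calc j * (2 * e) = (2 * j) * e := by ring
            _ ≤ (t + 1) * e := Nat.mul_le_mul_right _ hjt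
            _ = _ := by ring)
        rwa [show ((2 * e : ℕ) : ℤ) + ((e * (t + 1) : ℕ) : ℤ) = e * (((t + 1 + 1 : ℕ) : ℤ) + 1) by
          push_cast; ring] at this
    · intro k
      rw [hl]
      simp only
      rw [norm_mul, norm_inv, norm_pow, hXn, ← div_eq_mul_inv, div_le_iff₀ (by positivity)]
      have := h.lS (e * (k + 1)) (k + 1) (by rw [mul_comm])
      rw [show -((e : ℤ) + ((e * (k + 1) : ℕ) : ℤ)) = e * (-((k : ℤ) + 2)) by push_cast; ring]
        at this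
      rwa [show e + e * (k + 1) = e * (k + 2) by ring, pow_mul] at this
  refine no2 X (by rw [hXn]; exact h.hx) β l hcap ⟨?_, ?_⟩
  · intro z hz
    have hz0 := unit_ne hz
    have v2 := h.latS hz
    rw [Fz_eq_Bi h.latS_sum hz] at v2
    simp only [mul_zero, h.b0, zpow_zero, mul_one] at v2
    rw [← hX] at v2
    have f1 : ∀ k : ℕ, ‖z ^ (k + 1)‖ = 1 := by intro k; rw [norm_pow, hz, one_pow]
    have f2 : ∀ k : ℕ, ‖(z ^ (k + 1))⁻¹‖ = 1 := by intro k; rw [norm_inv, f1, inv_one]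
    obtain ⟨c3, c4⟩ := cs_aux _ h.latS_sum
    have S3 := sm_aux _ _ c3 f1
    have S4 := sm_aux _ _ c4 f2
    unfold Bi at v2
    rw [← hX] at S3 S4
    set s3 := ∑' k : ℕ, b (e * ((k : ℤ) + 1)) * X ^ ((k : ℤ) + 1) * z ^ (k + 1)
    set s4 := ∑' k : ℕ, b (e * (-((k : ℤ) + 1))) * X ^ (-((k : ℤ) + 1)) * (z ^ (k + 1))⁻¹
    have hX1 : ‖X‖ ≤ 1 := by rw [hXn]; linarith [h.hx]
    -- first series
    have R1 : HasSum (fun k : ℕ => β k * (X ^ (k + 1) * z ^ (k + 2))) (z * s3 - X ^ 2 * z ^ 3) := by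
      have h1 := S3.mul_left z
      have h2 : HasSum (fun k : ℕ => if k = 1 then X ^ 2 * z ^ 3 else 0) (X ^ 2 * z ^ 3) := by
        have := hasSum_ite_eq 1 (X ^ 2 * z ^ 3)
        exact this
      refine (h1.sub h2).congr_fun ?_
      intro k
      have e1 : X ^ ((k : ℤ) + 1) = X ^ (k + 1) := by norm_cast
      rw [e1, hβ]
      simp only
      by_cases hk : k = 1
      · subst hk
        rw [if_pos rfl, if_pos rfl]
        have : b (e * (((1 : ℕ) : ℤ) + 1)) = 1 := by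
          have := h.bd
          rwa [show ((2 * e : ℕ) : ℤ) = e * (((1 : ℕ) : ℤ) + 1) by push_cast; ring] at this
        rw [this]
        ring
      · rw [if_neg hk, if_neg hk]
        ring
    -- second series
    have R2 : HasSum (fun k : ℕ => l k * (z ^ (k + 1))⁻¹) (z * s4 - 1) := by
      have h1 := (hasSum_nat_add_iff' 1).2 (S4.mul_left z)
      rw [Finset.sum_range_one] at h1
      have e0 : z * (b (e * (-(((0 : ℕ) : ℤ) + 1))) * X ^ (-(((0 : ℕ) : ℤ) + 1)) *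
          (z ^ (0 + 1))⁻¹) = 1 := by
        simp only [Nat.cast_zero, zero_add, mul_neg, mul_one, pow_one, zpow_neg, zpow_one]
        rw [← hX]
        field_simp
      rw [e0] at h1
      refine h1.congr_fun ?_
      intro k
      have e2 : X ^ (-(((k + 1 : ℕ) : ℤ) + 1)) = (X ^ (k + 2))⁻¹ := by
        rw [zpow_neg]
        norm_cast
      have e3 : (e : ℤ) * (-(((k + 1 : ℕ) : ℤ) + 1)) = e * (-((k : ℤ) + 2)) := by
        push_cast; ring
      rw [e2, e3, hl]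
      simp only
      field_simp
      ring
    have e6 : TS2 X β l z = z * (1 + s3 + s4) := by
      unfold TS2
      rw [R1.tsum_eq, R2.tsum_eq]
      ring
    rw [e6, norm_mul, hz, one_mul]
    exact v2
  · intro z hz
    have hz0 := unit_ne hz
    have v1 := lat_bound h.sum1 h.he h.B1 hz
    rw [Fz_eq_Bi hs1 hz] at v1
    simp only [mul_zero, h.b0] at v1
    have f1 : ∀ k : ℕ, ‖z ^ (k + 1)‖ = 1 := by intro k; rw [norm_pow, hz, one_pow]
    have f2 : ∀ k : ℕ, ‖(z ^ (k + 1))⁻¹‖ = 1 := by intro k; rw [norm_inv, f1, inv_one]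
    obtain ⟨c1, c2⟩ := cs_aux _ hs1
    have S1 := sm_aux _ _ c1 f1
    have S2 := sm_aux _ _ c2 f2
    unfold Bi at v1
    set s1 := ∑' k : ℕ, b (e * ((k : ℤ) + 1)) * z ^ (k + 1)
    set s2 := ∑' k : ℕ, b (e * (-((k : ℤ) + 1))) * (z ^ (k + 1))⁻¹
    have R1 : HasSum (fun k : ℕ => β k * z ^ (k + 1)) (s1 - z ^ 2) := by
      have h2 : HasSum (fun k : ℕ => if k = 1 then z ^ 2 else 0) (z ^ 2) := by
        have := hasSum_ite_eq 1 (z ^ 2)
        exact this
      refine (S1.sub h2).congr_fun ?_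
      intro k
      rw [hβ]
      simp only
      by_cases hk : k = 1
      · subst hk
        rw [if_pos rfl, if_pos rfl]
        have : b (e * (((1 : ℕ) : ℤ) + 1)) = 1 := by
          have := h.bd
          rwa [show ((2 * e : ℕ) : ℤ) = e * (((1 : ℕ) : ℤ) + 1) by push_cast; ring] at this
        rw [this]
        ring
      · rw [if_neg hk, if_neg hk]
        ring
    have R2 : HasSum (fun k : ℕ => l k * (X ^ (k + 2) * (z ^ (k + 2))⁻¹))
        (s2 - X * (z ^ 1)⁻¹) := by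
      have h1 := (hasSum_nat_add_iff' 1).2 S2
      rw [Finset.sum_range_one] at h1
      have e0 : b (e * (-(((0 : ℕ) : ℤ) + 1))) * (z ^ (0 + 1))⁻¹ = X * (z ^ 1)⁻¹ := by
        simp only [Nat.cast_zero, zero_add, mul_neg, mul_one]
        rw [← hX]
      rw [e0] at h1
      refine h1.congr_fun ?_
      intro k
      have e3 : (e : ℤ) * (-(((k + 1 : ℕ) : ℤ) + 1)) = e * (-((k : ℤ) + 2)) := by
        push_cast; ring
      have hXk : X ^ (k + 2) ≠ 0 := pow_ne_zero _ hX0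
      rw [e3, hl]
      simp only
      field_simp
    have e6 : TB2 X β l z = 1 + s1 + s2 := by
      unfold TB2
      rw [R1.tsum_eq, R2.tsum_eq]
      ring
    rw [e6]
    exact v1

/-- generic gaps -/
theorem Loc.case3 (h : Loc (80 / 49) ρ e d b) (h1 : e ≠ d) (h2 : d ≠ 2 * e) : False := by
  have hed : e < d := lt_of_le_of_ne h.hed h1
  have he0 := h.he
  have hd0 : 0 < d := by omega
  set X : ℂ := b (-e) with hX
  have hXn : ‖X‖ = ρ ^ e := h.be
  have hx := h.x_pos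
  set x : ℝ := ρ ^ e with hxd
  have hX0 : X ≠ 0 := by
    intro h0
    rw [h0, norm_zero] at hXn
    linarith
  have hxC : (x : ℂ) ≠ 0 := by exact_mod_cast hx.ne'
  have hq0 := h.q_nn
  have hq1 := h.q_lt
  set p : ℂ := X / x with hp
  have hp1 : ‖p‖ = 1 := by
    rw [hp, norm_div, hXn, Complex.norm_real, Real.norm_eq_abs, abs_of_pos hx, div_self hx.ne']
  have hpc : (starRingEnd ℂ) p * X = x := by
    have : X = x * p := by rw [hp]; field_simp
    rw [this, mul_comm, mul_assoc, Complex.mul_conj, Complex.normSq_eq_norm_sq, hp1]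
    simp
  have hpn : ‖(starRingEnd ℂ) p‖ = 1 := by rw [RCLike.norm_conj, hp1]
  have r0 := h.r0
  have r1 := h.r1
  have mono : ∀ {m n : ℕ}, m ≤ n → ρ ^ n ≤ ρ ^ m := fun h => pow_le_pow_of_le_one r0.le r1 h
  refine no3_of_real hx.le dlt_0 hq1 (no3r x hx.le h.hx) (p * b e)
    (fun k => b (e * (k : ℤ)) * X ^ k)
    (fun k => b (e * (-((k : ℤ) + 2))) * (X ^ (k + 2))⁻¹)
    (fun k => b (d * ((k : ℤ) + 1))) (fun k => b (d * (-((k : ℤ) + 1))))
    (fun k => (starRingEnd ℂ) p * b (d * ((k : ℤ) + 1) + -e))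
    (fun k => (starRingEnd ℂ) p * b (d * (-((k : ℤ) + 1)) + -e))
    (fun k => p * b (d * ((k : ℤ) + 1) + e)) (fun k => p * b (d * (-((k : ℤ) + 1)) + e))
    ⟨?_, ?_, ?_, ?_, ?_, ?_, ?_, ?_, ?_, ?_, ?_, ?_⟩ ?_ ?_
  · rw [norm_mul, hp1, one_mul]; exact h.cap1 _
  · simp [h.b0]
  · simp only [Nat.cast_one, mul_one, pow_one]
    rw [hp]
    field_simp
  · intro k
    rw [norm_mul, norm_pow, hXn]
    exact mul_le_of_le_one_left (by positivity) (h.cap1 _)
  · intro k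
    rw [norm_mul, norm_inv, norm_pow, hXn, ← div_eq_mul_inv, div_le_iff₀ (by positivity)]
    have := h.lS (e * (k + 1)) (k + 1) (by rw [mul_comm])
    rw [show -((e : ℤ) + ((e * (k + 1) : ℕ) : ℤ)) = e * (-((k : ℤ) + 2)) by push_cast; ring]
      at this
    rwa [show e + e * (k + 1) = e * (k + 2) by ring, pow_mul] at this
  · simp only [Nat.cast_zero, zero_add, mul_one]
    exact h.bd
  · intro k
    have := h.rB (d * (k + 1)) (k + 1) (by rw [mul_comm])
    rwa [show (d : ℤ) + ((d * (k + 1) : ℕ) : ℤ) = d * (((k + 1 : ℕ) : ℤ) + 1) by push_cast; ring]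
      at this
  · intro k
    have := h.capr (d * (k + 1))
    rw [show -((d * (k + 1) : ℕ) : ℤ) = d * (-((k : ℤ) + 1)) by push_cast; ring] at this
    refine this.trans ?_
    rw [hxd, ← pow_mul]
    exact mono (Nat.mul_le_mul_right _ h.hed)
  · intro k
    rw [norm_mul, hpn, one_mul]
    rcases k with _ | k
    · rw [Nat.zero_sub, pow_zero]; exact h.cap1 _
    · rw [Nat.add_sub_cancel]
      have hle : e ≤ d * (k + 1) := le_trans h.hed (by nlinarith)
      have := h.rB (d * (k + 1) - e) k (by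
        have : k * d + e ≤ d * (k + 1) := by nlinarith [h.hed]
        omega)
      rwa [show (d : ℤ) + ((d * (k + 1) - e : ℕ) : ℤ) = d * (((k + 1 : ℕ) : ℤ) + 1) + -(e : ℤ) by
        rw [Nat.cast_sub hle]; push_cast; ring] at this
  · intro k
    rw [norm_mul, hpn, one_mul]
    have := h.capr (d * (k + 1) + e)
    rw [show -((d * (k + 1) + e : ℕ) : ℤ) = d * (-((k : ℤ) + 1)) + -(e : ℤ) by push_cast; ring]
      at this
    refine this.trans ?_
    rw [hxd, ← pow_mul]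
    apply mono
    nlinarith [h.hed]
  · intro k
    rw [norm_mul, hp1, one_mul]
    have := h.rB (d * k + e) k (by nlinarith)
    rwa [show (d : ℤ) + ((d * k + e : ℕ) : ℤ) = d * ((k : ℤ) + 1) + (e : ℤ) by push_cast; ring]
      at this
  · intro k
    rw [norm_mul, hp1, one_mul]
    have hle : e ≤ d * (k + 1) := le_trans h.hed (by nlinarith)
    have := h.capr (d * (k + 1) - e)
    rw [show -((d * (k + 1) - e : ℕ) : ℤ) = d * (-((k : ℤ) + 1)) + (e : ℤ) by
        rw [Nat.cast_sub hle]; push_cast; ring] at this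
    refine this.trans ?_
    rw [hxd, ← pow_mul]
    apply mono
    have : e * k + e ≤ d * (k + 1) := by nlinarith [h.hed]
    omega
  · -- small circle
    intro z hz
    have hz0 := unit_ne hz
    have v2 := h.latS hz
    rw [Fz_eq_Bi h.latS_sum hz] at v2
    simp only [mul_zero, h.b0, zpow_zero, mul_one] at v2
    rw [← hX] at v2
    have f1 : ∀ k : ℕ, ‖z ^ (k + 1)‖ = 1 := by intro k; rw [norm_pow, hz, one_pow]
    have f2 : ∀ k : ℕ, ‖(z ^ (k + 1))⁻¹‖ = 1 := by intro k; rw [norm_inv, f1, inv_one]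
    obtain ⟨c3, c4⟩ := cs_aux _ h.latS_sum
    have S3 := sm_aux _ _ c3 f1
    have S4 := sm_aux _ _ c4 f2
    unfold Bi at v2
    rw [← hX] at S3 S4
    set s3 := ∑' k : ℕ, b (e * ((k : ℤ) + 1)) * X ^ ((k : ℤ) + 1) * z ^ (k + 1)
    set s4 := ∑' k : ℕ, b (e * (-((k : ℤ) + 1))) * X ^ (-((k : ℤ) + 1)) * (z ^ (k + 1))⁻¹
    have R1 : HasSum (fun k : ℕ => b (e * (k : ℤ)) * X ^ k * z ^ (k + 1)) (z * s3 + z) := by
      have h1 := S3.mul_left z
      have h2 := (hasSum_nat_add_iff (f := fun k : ℕ => b (e * (k : ℤ)) * X ^ k * z ^ (k + 1)) 1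
        (g := z * s3)).1 (by
          refine h1.congr_fun ?_
          intro k
          have e1 : X ^ ((k : ℤ) + 1) = X ^ (k + 1) := by norm_cast
          rw [e1]
          push_cast
          ring)
      rw [Finset.sum_range_one] at h2
      simpa [h.b0] using h2
    have R2 : HasSum (fun k : ℕ => b (e * (-((k : ℤ) + 2))) * (X ^ (k + 2))⁻¹ * (z ^ (k + 1))⁻¹)
        (z * s4 - 1) := by
      have h1 := (hasSum_nat_add_iff' 1).2 (S4.mul_left z)
      rw [Finset.sum_range_one] at h1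
      have e0 : z * (b (e * (-(((0 : ℕ) : ℤ) + 1))) * X ^ (-(((0 : ℕ) : ℤ) + 1)) *
          (z ^ (0 + 1))⁻¹) = 1 := by
        simp only [Nat.cast_zero, zero_add, mul_neg, mul_one, pow_one, zpow_neg, zpow_one]
        rw [← hX]
        field_simp
      rw [e0] at h1
      refine h1.congr_fun ?_
      intro k
      have e2 : X ^ (-(((k + 1 : ℕ) : ℤ) + 1)) = (X ^ (k + 2))⁻¹ := by
        rw [zpow_neg]
        norm_cast
      have e3 : (e : ℤ) * (-(((k + 1 : ℕ) : ℤ) + 1)) = e * (-((k : ℤ) + 2)) := by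
        push_cast; ring
      rw [e2, e3]
      field_simp
      ring
    unfold Bi
    rw [R1.tsum_eq, R2.tsum_eq]
    have e6 : 1 + (z * s3 + z) + (z * s4 - 1) = z * (1 + s3 + s4) := by ring
    rw [e6, norm_mul, hz, one_mul]
    exact v2
  · -- large circle
    intro u hu
    have hdv : ¬ (d : ℤ) ∣ (e : ℤ) := by
      intro hdiv
      have := Int.natCast_dvd_natCast.1 hdiv
      have := Nat.le_of_dvd he0 this
      omega
    have hdv2 : ¬ (d : ℤ) ∣ 2 * (e : ℤ) := by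
      intro hdiv
      have h3 : (d : ℤ) ∣ ((2 * e : ℕ) : ℤ) := by push_cast; exact hdiv
      obtain ⟨c, hc⟩ := Int.natCast_dvd_natCast.1 h3
      have hc0 : c ≠ 0 := by rintro rfl; omega
      have hc1 : c ≠ 1 := by rintro rfl; omega
      have : 2 ≤ c := by omega
      nlinarith
    have v := class_val h.sum1 hd0 h.B1 (e : ℤ) hdv hdv2 hu
    have sA : Summable fun j : ℤ => ‖b (d * j)‖ := by
      have := h.lat_sum hd0 0
      simpa using this
    rw [Fz_eq_Bi sA hu, Fz_eq_Bi (h.lat_sum hd0 (-e)) hu, Fz_eq_Bi (h.lat_sum hd0 e) hu] at v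
    simp only [mul_zero, h.b0, zero_add] at v
    rw [← hX] at v
    -- multiply by phases
    have bm : ∀ (t c : ℂ) (p m : ℕ → ℂ), Bi (t * c) (fun k => t * p k) (fun k => t * m k) u =
        t * Bi c p m u := by
      intro t c p m
      unfold Bi
      rw [mul_add, mul_add, ← tsum_mul_left, ← tsum_mul_left]
      simp only [mul_assoc]
    rw [bm, ← hpc, bm]
    refine ⟨?_, ?_⟩
    · rw [norm_mul, norm_mul, hpn, hp1, one_mul, one_mul]
      exact v.1
    · intro κ hκ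
      have h5 := v.2 (κ * (starRingEnd ℂ) p) (by rw [norm_mul, hκ, hpn, one_mul])
      rw [map_mul, Complex.conj_conj] at h5
      refine le_trans (le_of_eq ?_) h5
      congr 1
      ring

theorem Loc.false (h : Loc (80 / 49) ρ e d b) : False := by
  by_cases h1 : e = d
  · subst h1
    exact h.case1
  by_cases h2 : d = 2 * e
  · subst h2
    exact h.case2
  · exact h.case3 h1 h2

end

end Run7.h281
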