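import Pool.Agent.Run7.h281.Avg
import Pool.Agent.Run7.h281.FinA
set_option autoImplicit false

/-! The local picture when all gaps near the vertex are equal. -/

namespace Run7.h281

open Complex

/-- local picture at a vertex with equal gaps `e` -/
structure LocA (K ρ : ℝ) (e : ℕ) (b : ℤ → ℂ) : Prop where
  he : 0 < e
  r0 : 0 < ρ
  r1 : ρ ≤ 1
  b0 : b 0 = 1
  bd : b e = 1
  be : ‖b (-e)‖ = ρ ^ e
  sum1 : Summable (fun k => ‖b k‖)
  sumr : Summable (fun k => ‖b k * (ρ : ℂ) ^ k‖)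
  rB : ∀ N j : ℕ, N ≤ 20 → ‖b (e * ((N + j : ℕ) + 1))‖ ≤ (ρ ^ e + dlt) ^ (N * (N + 1) / 2 + N * j)
  lS : ∀ N j : ℕ, N ≤ 20 → ‖b (e * (-((N + j : ℕ) + 1)))‖ ≤
    (ρ ^ e + dlt) ^ (N * (N + 1) / 2 + N * j) * (ρ ^ e) ^ (N + j + 1)
  B1 : ∀ u : ℂ, ‖u‖ = 1 → ‖Fz b u‖ ≤ K
  Br : ∀ u : ℂ, ‖u‖ = 1 → ‖Fz (fun k => b k * (ρ : ℂ) ^ k) u‖ ≤ K
  hx : ρ ^ e ≤ 9395 / 10000

theorem Fz_twistA (c : ℤ → ℂ) (p z : ℂ) : Fz (fun j => c j * p ^ j) z = Fz c (p * z) := by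
  unfold Fz
  refine tsum_congr fun k => ?_
  rw [mul_zpow]
  ring

section

variable {K ρ : ℝ} {e : ℕ} {b : ℤ → ℂ}

theorem LocA.x_pos (h : LocA K ρ e b) : 0 < ρ ^ e := pow_pos h.r0 _

/-- small circle, lattice of step `e` -/
theorem LocA.latS (h : LocA K ρ e b) {z : ℂ} (hz : ‖z‖ = 1) :
    ‖Fz (fun j => b (e * j) * b (-e) ^ j) z‖ ≤ K := by
  have hx := h.x_pos
  have hxC : ((ρ ^ e : ℝ) : ℂ) ≠ 0 := by exact_mod_cast hx.ne'
  set p : ℂ := b (-e) / ((ρ ^ e : ℝ) : ℂ) with hp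
  have hp1 : ‖p‖ = 1 := by
    rw [hp, norm_div, h.be, Complex.norm_real, Real.norm_eq_abs, abs_of_pos hx,
      div_self hx.ne']
  have h1 := lat_bound h.sumr h.he h.Br (w := p * z) (by rw [norm_mul, hp1, hz, one_mul])
  rw [← Fz_twistA] at h1
  have e1 : (fun j : ℤ => b (e * j) * (ρ : ℂ) ^ ((e : ℤ) * j) * p ^ j) =
      fun j => b (e * j) * b (-e) ^ j := by
    funext j
    rw [mul_assoc]
    congr 1
    rw [zpow_mul, zpow_natCast, ← mul_zpow]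
    congr 1
    rw [hp]
    push_cast
    push_cast at hxC
    field_simp
  rw [e1] at h1
  exact h1

theorem LocA.latS_sum (h : LocA K ρ e b) : Summable fun j : ℤ => ‖b (e * j) * b (-e) ^ j‖ := by
  have hinj : Function.Injective (fun j : ℤ => (e : ℤ) * j) := by
    intro a c hac
    exact mul_left_cancel₀ (by have := h.he; exact_mod_cast this.ne') hac
  have h1 := h.sumr.comp_injective hinj
  refine h1.congr ?_
  intro j
  simp only [Function.comp]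
  rw [norm_mul, norm_mul, norm_zpow, norm_zpow, h.be, zpow_mul, zpow_natCast, Complex.norm_real,
    Real.norm_eq_abs, abs_of_pos h.r0]

theorem LocA.lat_sum (h : LocA K ρ e b) {n : ℕ} (hn : 0 < n) (r : ℤ) :
    Summable fun j : ℤ => ‖b (n * j + r)‖ := by
  have hinj : Function.Injective (fun j : ℤ => (n : ℤ) * j + r) := by
    intro a c hac
    exact mul_left_cancel₀ (by exact_mod_cast hn.ne') (add_right_cancel hac)
  exact h.sum1.comp_injective hinj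


/-- equal gaps -/
theorem LocA.false (h : LocA (1000 / 589) ρ e b) : False := by
  set Q : ℂ := b (-e) with hQ
  have hQn : ‖Q‖ = ρ ^ e := h.be
  have hx := h.x_pos
  have hQ0 : Q ≠ 0 := by
    intro h0
    rw [h0, norm_zero] at hQn
    linarith
  set w : ℕ → ℂ := fun k => (b (e * ((k : ℤ) + 1)) +
    b (e * (-((k : ℤ) + 1))) * (Q ^ (k + 1))⁻¹) / 2 with hw
  have hcap : ∀ N j, N ≤ 20 → ‖w (N + j)‖ ≤ (‖Q‖ + dlt) ^ (N * (N + 1) / 2 + N * j) := by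
    intro N j hN
    rw [hQn, hw]
    simp only
    rw [norm_div]
    have e2 : ‖(2 : ℂ)‖ = 2 := by simp
    rw [e2, div_le_iff₀ (by norm_num)]
    have h1 : ‖b (e * (((N + j : ℕ) : ℤ) + 1))‖ ≤ (ρ ^ e + dlt) ^ (N * (N + 1) / 2 + N * j) :=
      h.rB N j hN
    have h2 : ‖b (e * (-(((N + j : ℕ) : ℤ) + 1))) * (Q ^ (N + j + 1))⁻¹‖ ≤
        (ρ ^ e + dlt) ^ (N * (N + 1) / 2 + N * j) := by
      rw [norm_mul, norm_inv, norm_pow, hQn, ← div_eq_mul_inv, div_le_iff₀ (by positivity)]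
      exact h.lS N j hN
    calc ‖b (e * (((N + j : ℕ) : ℤ) + 1)) + b (e * (-(((N + j : ℕ) : ℤ) + 1))) *
          (Q ^ (N + j + 1))⁻¹‖ ≤ _ := norm_add_le _ _
      _ ≤ _ := by linarith
  refine no1A Q (by rw [hQn]; exact h.hx) w (fun N j hN => ?_) ?_
  · have := hcap N j hN
    simpa [ecap, gcap] using this
  intro z hz
  have hz0 := unit_ne hz
  have hzi : ‖z⁻¹‖ = 1 := by rw [norm_inv, hz, inv_one]
  -- the two values
  have hs1 : Summable fun j : ℤ => ‖b (e * j)‖ := by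
    have := h.lat_sum h.he 0
    simpa using this
  have v1 := lat_bound h.sum1 h.he h.B1 hzi
  have v2 := h.latS hz
  rw [Fz_eq_Bi hs1 hzi] at v1
  rw [Fz_eq_Bi h.latS_sum hz] at v2
  simp only [mul_zero, h.b0, zpow_zero, mul_one] at v1 v2
  rw [← hQ] at v2
  -- summabilities
  have cs : ∀ (c : ℤ → ℂ), (Summable fun j : ℤ => ‖c j‖) → (Summable fun k : ℕ => ‖c (k + 1)‖) ∧
      Summable fun k : ℕ => ‖c (-(k + 1))‖ := by
    intro c hc
    refine ⟨hc.comp_injective (i := fun n : ℕ => ((n : ℤ) + 1)) ?_,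
      hc.comp_injective (i := fun n : ℕ => (-((n : ℤ) + 1))) ?_⟩
    · intro a c hac; simpa using hac
    · intro a c hac; simpa using hac
  have sm : ∀ (c f : ℕ → ℂ), Summable (fun k => ‖c k‖) → (∀ k, ‖f k‖ = 1) →
      HasSum (fun k => c k * f k) (∑' k, c k * f k) := by
    intro c f hc hf
    apply Summable.hasSum
    refine Summable.of_norm_bounded hc ?_
    intro k
    rw [norm_mul, hf, mul_one]
  have f1 : ∀ k : ℕ, ‖z ^ (k + 1)‖ = 1 := by intro k; rw [norm_pow, hz, one_pow]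
  have f2 : ∀ k : ℕ, ‖(z ^ (k + 1))⁻¹‖ = 1 := by intro k; rw [norm_inv, f1, inv_one]
  have f3 : ∀ k : ℕ, ‖z⁻¹ ^ (k + 1)‖ = 1 := by intro k; rw [norm_pow, hzi, one_pow]
  have f4 : ∀ k : ℕ, ‖(z⁻¹ ^ (k + 1))⁻¹‖ = 1 := by intro k; rw [norm_inv, f3, inv_one]
  obtain ⟨c1, c2⟩ := cs _ hs1
  obtain ⟨c3, c4⟩ := cs _ h.latS_sum
  have S1 := sm _ _ c1 f3
  have S2 := sm _ _ c2 f4
  have S3 := sm _ _ c3 f1
  have S4 := sm _ _ c4 f2
  unfold Bi at v1 v2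
  rw [← hQ] at S3 S4
  set s1 := ∑' k : ℕ, b (e * ((k : ℤ) + 1)) * z⁻¹ ^ (k + 1)
  set s2 := ∑' k : ℕ, b (e * (-((k : ℤ) + 1))) * (z⁻¹ ^ (k + 1))⁻¹
  set s3 := ∑' k : ℕ, b (e * ((k : ℤ) + 1)) * Q ^ ((k : ℤ) + 1) * z ^ (k + 1)
  set s4 := ∑' k : ℕ, b (e * (-((k : ℤ) + 1))) * Q ^ (-((k : ℤ) + 1)) * (z ^ (k + 1))⁻¹
  have T1 : HasSum (fun k : ℕ => 2 * w k * ((z ^ (k + 1))⁻¹ + Q ^ (k + 1) * z ^ (k + 1)))
      (s1 + s2 + s3 + s4) := by
    refine (((S1.add S2).add S3).add S4).congr_fun ?_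
    intro k
    have e1 : Q ^ ((k : ℤ) + 1) = Q ^ (k + 1) := by norm_cast
    have e2 : Q ^ (-((k : ℤ) + 1)) = (Q ^ (k + 1))⁻¹ := by rw [zpow_neg, e1]
    have hQk : Q ^ (k + 1) ≠ 0 := pow_ne_zero _ hQ0
    rw [e1, e2, hw, inv_pow, inv_inv]
    simp only
    field_simp
    ring
  have T2 := (hasSum_nat_add_iff' 1).2 T1
  rw [Finset.sum_range_one] at T2
  have w0 : w 0 = 1 := by
    rw [hw]
    simp only [Nat.cast_zero, zero_add, mul_one, pow_one, mul_neg]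
    rw [h.bd, ← hQ, mul_inv_cancel₀ hQ0]
    norm_num
  have T3 := (T2.mul_left (z / 2)).tsum_eq
  have T4 : ∑' k : ℕ, w (k + 1) * ((z ^ (k + 1))⁻¹ + Q ^ (k + 2) * z ^ (k + 3)) =
      z / 2 * (s1 + s2 + s3 + s4 - 2 * w 0 * ((z ^ (0 + 1))⁻¹ + Q ^ (0 + 1) * z ^ (0 + 1))) := by
    rw [← T3]
    refine tsum_congr fun k => ?_
    field_simp
    ring
  rw [T4, w0]
  have e5 : 1 + z + Q * z ^ 2 + z / 2 * (s1 + s2 + s3 + s4 -
      2 * 1 * ((z ^ (0 + 1))⁻¹ + Q ^ (0 + 1) * z ^ (0 + 1))) =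
      z / 2 * ((1 + s1 + s2) + (1 + s3 + s4)) := by
    rw [zero_add, pow_one, pow_one]
    field_simp
    ring
  rw [e5, norm_mul, norm_div, hz]
  have e2 : ‖(2 : ℂ)‖ = 2 := by simp
  rw [e2]
  have := norm_add_le (1 + s1 + s2) (1 + s3 + s4)
  linarith


end

end Run7.h281
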