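import Pool.Agent.Run7.h281.Num
set_option autoImplicit false

/-! Linear functionals given by finitely many point evaluations, and their moments. -/

namespace Run7.h281

open Complex

/-! ### abstract functionals -/

/-- `∑ α φ(z)` over a list of pairs `(α, z)` -/
noncomputable def lin (L : List (ℂ × ℂ)) (φ : ℂ → ℂ) : ℂ := (L.map fun a => a.1 * φ a.2).sum

theorem lin_nil (φ : ℂ → ℂ) : lin [] φ = 0 := by simp [lin]

theorem lin_cons (a : ℂ × ℂ) (L : List (ℂ × ℂ)) (φ : ℂ → ℂ) :
    lin (a :: L) φ = a.1 * φ a.2 + lin L φ := by simp [lin]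

theorem lin_append (L L' : List (ℂ × ℂ)) (φ : ℂ → ℂ) :
    lin (L ++ L') φ = lin L φ + lin L' φ := by simp [lin]

theorem lin_add (L : List (ℂ × ℂ)) (φ ψ : ℂ → ℂ) :
    lin L (fun z => φ z + ψ z) = lin L φ + lin L ψ := by
  induction L with
  | nil => simp [lin]
  | cons a L ih => rw [lin_cons, lin_cons, lin_cons, ih]; ring

theorem lin_mul (L : List (ℂ × ℂ)) (c : ℂ) (φ : ℂ → ℂ) :
    lin L (fun z => c * φ z) = c * lin L φ := by
  induction L with
  | nil => simp [lin]
  | cons a L ih => rw [lin_cons, lin_cons, ih]; ring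

/-- total weight -/
noncomputable def wt (L : List (ℂ × ℂ)) : ℝ := (L.map fun a => ‖a.1‖).sum

theorem wt_nil : wt [] = 0 := by simp [wt]

theorem wt_cons (a : ℂ × ℂ) (L : List (ℂ × ℂ)) : wt (a :: L) = ‖a.1‖ + wt L := by simp [wt]

theorem wt_append (L L' : List (ℂ × ℂ)) : wt (L ++ L') = wt L + wt L' := by simp [wt]

theorem wt_nonneg (L : List (ℂ × ℂ)) : 0 ≤ wt L := by
  induction L with
  | nil => simp [wt]
  | cons a L ih => rw [wt_cons]; positivity

/-- all points are on the unit circle -/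
def UC (L : List (ℂ × ℂ)) : Prop := ∀ a ∈ L, ‖a.2‖ = 1

theorem UC.tail {a : ℂ × ℂ} {L : List (ℂ × ℂ)} (h : UC (a :: L)) : UC L := fun b hb =>
  h b (List.mem_cons_of_mem _ hb)

theorem UC.head {a : ℂ × ℂ} {L : List (ℂ × ℂ)} (h : UC (a :: L)) : ‖a.2‖ = 1 :=
  h a List.mem_cons_self

theorem lin_bound (L : List (ℂ × ℂ)) (hL : UC L) (φ : ℂ → ℂ) (K : ℝ)
    (hφ : ∀ z : ℂ, ‖z‖ = 1 → ‖φ z‖ ≤ K) : ‖lin L φ‖ ≤ K * wt L := by
  induction L with
  | nil => simp [lin, wt]
  | cons a L ih =>
    rw [lin_cons, wt_cons, mul_add]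
    refine (norm_add_le _ _).trans (add_le_add ?_ (ih hL.tail))
    rw [norm_mul, mul_comm]
    exact mul_le_mul_of_nonneg_right (hφ _ hL.head) (norm_nonneg _)

theorem lin_hasSum {ι : Type} (L : List (ℂ × ℂ)) (hL : UC L) (s : ι → ℂ) (f : ι → ℂ → ℂ)
    (F : ℂ → ℂ) (h : ∀ z : ℂ, ‖z‖ = 1 → HasSum (fun k => s k * f k z) (F z)) :
    HasSum (fun k => s k * lin L (f k)) (lin L F) := by
  induction L with
  | nil =>
    simp only [lin_nil, mul_zero]
    exact hasSum_zero
  | cons a L ih =>
    have h1 := (h a.2 hL.head).mul_left a.1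
    have h2 := h1.add (ih hL.tail)
    rw [lin_cons]
    refine h2.congr_fun ?_
    intro k
    rw [lin_cons]
    ring

/-! ### forcing evaluation -/

/-- evaluate a natural number, then continue -/
def fN {α : Type} : ℕ → (ℕ → α) → α
  | 0, k => k 0
  | Nat.succ n, k => k (Nat.succ n)

@[simp] theorem fN_eq {α : Type} (n : ℕ) (k : ℕ → α) : fN n k = k n := by cases n <;> rfl

/-- evaluate an integer, then continue -/
def fI {α : Type} : ℤ → (ℤ → α) → α
  | Int.ofNat n, k => fN n fun n => k (Int.ofNat n)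
  | Int.negSucc n, k => fN n fun n => k (Int.negSucc n)

@[simp] theorem fI_eq {α : Type} (n : ℤ) (k : ℤ → α) : fI n k = k n := by
  cases n <;> simp [fI]

/-- Gaussian integer, evaluated -/
def gi (x y : ℤ) : GI := fI x fun x => fI y fun y => ⟨x, y⟩

@[simp] theorem gi_eq (x y : ℤ) : gi x y = ⟨x, y⟩ := by simp [gi]

/-! ### rows of powers -/

/-- the list approximates `S f` up to `100` -/
def RowOK : (ℕ → ℂ) → List GI → Prop
  | _, [] => True
  | f, g :: t => ‖cv g.x g.y - S * f 0‖ ≤ 100 ∧ RowOK (fun k => f (k + 1)) t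

/-- check of a row -/
def chkRow (a b : ℤ) (c : ℕ) : GI → List GI → Bool
  | _, [] => true
  | p, q :: t =>
    let dx := (c : ℤ) * q.x - (a * p.x - b * p.y)
    let dy := (c : ℤ) * q.y - (a * p.y + b * p.x)
    decide (4 * (dx * dx + dy * dy) ≤ 9 * ((c : ℤ) * c)) && chkRow a b c q t

theorem rowOK_aux (a b : ℤ) (c : ℕ) (hc : 0 < c) (z : ℂ) (hz : z * c = cv a b) (hz1 : ‖z‖ = 1)
    (l : List GI) : ∀ (p : GI) (k : ℕ), ‖cv p.x p.y - S * z ^ k‖ ≤ 3 / 2 * k →
    k + l.length ≤ 66 → chkRow a b c p l = true → RowOK (fun i => z ^ (k + 1 + i)) l := by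
  induction l with
  | nil => intro p k _ _ _; trivial
  | cons q t ih =>
    intro p k hp hk hc2
    simp only [chkRow, Bool.and_eq_true, decide_eq_true_eq] at hc2
    obtain ⟨h1, h2⟩ := hc2
    simp only [List.length_cons] at hk
    have hcR : (0 : ℝ) < c := by exact_mod_cast hc
    have h3 : ‖cv q.x q.y - S * z ^ (k + 1)‖ ≤ 3 / 2 * ((k + 1 : ℕ) : ℝ) := by
      have e1 : ‖(c : ℂ) * cv q.x q.y - cv a b * cv p.x p.y‖ ≤ 3 / 2 * c := by
        have e2 : (c : ℂ) * cv q.x q.y - cv a b * cv p.x p.y =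
            cv ((c : ℤ) * q.x - (a * p.x - b * p.y)) ((c : ℤ) * q.y - (a * p.y + b * p.x)) := by
          rw [← cv_mul]
          unfold cv
          push_cast
          ring
        rw [e2]
        have e3 := norm_cv_sq ((c : ℤ) * q.x - (a * p.x - b * p.y))
          ((c : ℤ) * q.y - (a * p.y + b * p.x))
        have e4 : (4 : ℝ) * (((c : ℤ) * q.x - (a * p.x - b * p.y) : ℤ) ^ 2 +
          ((c : ℤ) * q.y - (a * p.y + b * p.x) : ℤ) ^ 2) ≤ 9 * (c : ℝ) ^ 2 := by
          have : (4 : ℤ) * (((c : ℤ) * q.x - (a * p.x - b * p.y)) ^ 2 +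
            ((c : ℤ) * q.y - (a * p.y + b * p.x)) ^ 2) ≤ 9 * (c : ℤ) ^ 2 := by
            nlinarith [h1]
          exact_mod_cast this
        rw [← e3] at e4
        have e5 : ‖cv ((c : ℤ) * q.x - (a * p.x - b * p.y)) ((c : ℤ) * q.y - (a * p.y + b * p.x))‖ ^ 2
          ≤ (3 / 2 * c) ^ 2 := by linarith
        exact (abs_le_of_sq_le_sq' e5 (by positivity)).2
      have e6 : (c : ℂ) * (cv q.x q.y - S * z ^ (k + 1)) =
          ((c : ℂ) * cv q.x q.y - cv a b * cv p.x p.y) + cv a b * (cv p.x p.y - S * z ^ k) := by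
        rw [← hz]; ring
      have e7 : c * ‖cv q.x q.y - S * z ^ (k + 1)‖ ≤ 3 / 2 * c + c * (3 / 2 * k) := by
        calc c * ‖cv q.x q.y - S * z ^ (k + 1)‖
            = ‖(c : ℂ) * (cv q.x q.y - S * z ^ (k + 1))‖ := by rw [norm_mul]; simp
          _ = _ := by rw [e6]
          _ ≤ _ := norm_add_le _ _
          _ ≤ _ := by
            refine add_le_add e1 ?_
            rw [norm_mul, ← hz, norm_mul, hz1, one_mul]
            simp only [Complex.norm_natCast]
            exact mul_le_mul_of_nonneg_left hp hcR.le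
      have e8 : c * ‖cv q.x q.y - S * z ^ (k + 1)‖ ≤ c * (3 / 2 * ((k + 1 : ℕ) : ℝ)) := by
        push_cast; linarith
      exact le_of_mul_le_mul_left e8 hcR
    refine ⟨?_, ?_⟩
    · have : ((k + 1 : ℕ) : ℝ) ≤ 66 := by exact_mod_cast (by omega : k + 1 ≤ 66)
      simp only [add_zero]
      linarith
    · have := ih q (k + 1) h3 (by omega) h2
      have e : (fun i => z ^ (k + 1 + 1 + i)) = fun i => (fun j => z ^ (k + 1 + j)) (i + 1) := by
        funext i
        ring_nf
      rw [e] at this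
      exact this

/-! ### packed rows -/

/-- slot width -/
def W : ℕ := 18446744073709551616

theorem W_pos : 0 < W := by norm_num [W]

/-- `2 S` in each slot -/
def T2 : ℕ := 0x20000000000000002000000000000000200000000000000020000000000000002000000000000000200000000000000020000000000000002000000000000000200000000000000020000000000000002000000000000000200000000000000020000000000000002000000000000000200000000000000020000000000000002000000000000000200000000000000020000000000000002000000000000000200000000000000020000000000000002000000000000000200000000000000020000000000000002000000000000000200000000000000020000000000000002000000000000000200000000000000020000000000000002000000000000000200000000000000020000000000000002000000000000000200000000000000020000000000000002000000000000000200000000000000020000000000000002000000000000000200000000000000020000000000000002000000000000000200000000000000020000000000000002000000000000000200000000000000020000000000000002000000000000000200000000000000020000000000000002000000000000000200000000000000020000000000000002000000000000000200000000000000020000000000000002000000000000000200000000000000020000000000000002000000000000000200000000000000020000000000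

/-- unpack two rows -/
def un : ℕ → ℕ → ℕ → List GI
  | 0, _, _ => []
  | n + 1, X, Y => gi (Int.subNatNat (X % W) S) (Int.subNatNat (Y % W) S) ::
      fN (X / W) fun X => fN (Y / W) fun Y => un n X Y

/-- check of the complement -/
def chkC : ℕ → ℕ → ℕ → Bool
  | 0, _, _ => true
  | n + 1, X, Y => decide (X % W + Y % W = 2 * S) && fN (X / W) fun X => fN (Y / W) fun Y => chkC n X Y

/-- an entry of the table: the point `(a + b i) / c` and the packed rows of its powers -/
structure Ent where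
  a : ℤ
  b : ℤ
  c : ℕ
  X : ℕ
  Y : ℕ

/-- the point of an entry -/
noncomputable def Ent.pt (e : Ent) : ℂ := cv e.a e.b / e.c

/-- check of an entry -/
def Ent.chk (e : Ent) : Bool :=
  decide (e.a * e.a + e.b * e.b = (e.c : ℤ) * e.c) && decide (0 < e.c) &&
    chkC 64 e.X (T2 - e.X) && chkC 64 e.Y (T2 - e.Y) &&
    (match un 64 e.X e.Y with
      | [] => true
      | p :: t => decide (p.x = (S : ℤ)) && decide (p.y = 0) && decide (t.length ≤ 65) &&
          chkRow e.a e.b e.c p t)

theorem Ent.chk_spec (e : Ent) (h : e.chk = true) : ‖e.pt‖ = 1 ∧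
    RowOK (fun k => e.pt ^ k) (un 64 e.X e.Y) ∧ chkC 64 e.X (T2 - e.X) = true ∧
    chkC 64 e.Y (T2 - e.Y) = true := by
  unfold Ent.chk at h
  simp only [Bool.and_eq_true, decide_eq_true_eq] at h
  obtain ⟨⟨⟨⟨h1, h2⟩, hx⟩, hy⟩, h3⟩ := h
  have hcR : (0 : ℝ) < e.c := by exact_mod_cast h2
  have hcC : (e.c : ℂ) ≠ 0 := by exact_mod_cast hcR.ne'
  have hn : ‖e.pt‖ = 1 := by
    unfold Ent.pt
    rw [norm_div, Complex.norm_natCast, div_eq_one_iff_eq hcR.ne']
    have e1 := norm_cv_sq e.a e.b
    have e2 : (e.a : ℝ) ^ 2 + (e.b : ℝ) ^ 2 = (e.c : ℝ) ^ 2 := by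
      have : (e.a : ℤ) ^ 2 + (e.b : ℤ) ^ 2 = (e.c : ℤ) ^ 2 := by rw [pow_two, pow_two, h1]; ring
      exact_mod_cast this
    rw [e2] at e1
    exact (sq_eq_sq₀ (norm_nonneg _) hcR.le).1 e1
  refine ⟨hn, ?_, hx, hy⟩
  rcases hr : un 64 e.X e.Y with _ | ⟨p, t⟩
  · trivial
  · rw [hr] at h3
    simp only [Bool.and_eq_true, decide_eq_true_eq] at h3
    obtain ⟨⟨⟨h4, h5⟩, h6⟩, h7⟩ := h3
    have h8 : ‖cv p.x p.y - S * e.pt ^ 0‖ ≤ 3 / 2 * ((0 : ℕ) : ℝ) := by
      rw [h4, h5]
      unfold cv
      simp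
    refine ⟨h8.trans (by norm_num), ?_⟩
    have := rowOK_aux e.a e.b e.c h2 e.pt (by unfold Ent.pt; field_simp) hn t p 0 h8 (by omega) h7
    have e : (fun k => e.pt ^ (k + 1)) = fun i => e.pt ^ (0 + 1 + i) := by
      funext i
      ring_nf
    rw [e]
    exact this

/-- digits of `X` approximate `S (g + w)` -/
def SD (w : ℕ) : (ℕ → ℝ) → ℕ → ℕ → Prop
  | _, 0, _ => True
  | g, n + 1, X => |((X % W : ℕ) : ℝ) - S * g 0 - S * w| ≤ 100 * w ∧ X % W ≤ 2 * S * w ∧
      SD w (fun k => g (k + 1)) n (X / W)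

theorem sd_of_row (n : ℕ) : ∀ (f : ℕ → ℂ) (X Y X' Y' : ℕ), RowOK f (un n X Y) →
    chkC n X X' = true → chkC n Y Y' = true →
    SD 1 (fun k => (f k).re) n X ∧ SD 1 (fun k => -(f k).re) n X' ∧
    SD 1 (fun k => (f k).im) n Y ∧ SD 1 (fun k => -(f k).im) n Y' := by
  induction n with
  | zero => intro f X Y X' Y' _ _ _; exact ⟨trivial, trivial, trivial, trivial⟩
  | succ n ih =>
    intro f X Y X' Y' h1 h2 h3
    simp only [un, fN_eq, gi_eq] at h1
    obtain ⟨h1, h1'⟩ := h1
    simp only [chkC, fN_eq, Bool.and_eq_true, decide_eq_true_eq] at h2 h3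
    obtain ⟨h2, h2'⟩ := h2
    obtain ⟨h3, h3'⟩ := h3
    obtain ⟨i1, i2, i3, i4⟩ := ih (fun k => f (k + 1)) _ _ _ _ h1' h2' h3'
    have k1 := (Complex.abs_re_le_norm _).trans h1
    have k2 := (Complex.abs_im_le_norm _).trans h1
    have hre : ((S : ℂ) * f 0).re = S * (f 0).re := by simp
    have him : ((S : ℂ) * f 0).im = S * (f 0).im := by simp
    rw [sub_re, cv_re, hre] at k1
    rw [sub_im, cv_im, him] at k2
    simp only [Int.subNatNat_eq_coe, Int.cast_sub, Int.cast_natCast] at k1 k2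
    have h2R : ((X % W : ℕ) : ℝ) + ((X' % W : ℕ) : ℝ) = 2 * S := by exact_mod_cast h2
    have h3R : ((Y % W : ℕ) : ℝ) + ((Y' % W : ℕ) : ℝ) = 2 * S := by exact_mod_cast h3
    rw [abs_le] at k1 k2
    refine ⟨⟨?_, by omega, i1⟩, ⟨?_, by omega, i2⟩, ⟨?_, by omega, i3⟩, ⟨?_, by omega, i4⟩⟩
    all_goals
      rw [abs_le, Nat.cast_one]
      constructor <;> linarith [k1.1, k1.2, k2.1, k2.2]

theorem SD.mul {w : ℕ} (m : ℕ) (hb : 2 * S * (m * w) < W) (n : ℕ) : ∀ {g : ℕ → ℝ} {X : ℕ},
    SD w g n X → SD (m * w) (fun k => m * g k) n (m * X) := by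
  induction n with
  | zero => intro g X _; trivial
  | succ n ih =>
    intro g X h
    obtain ⟨h1, h2, h3⟩ := h
    have hm : m * (X % W) ≤ 2 * S * (m * w) := by
      calc m * (X % W) ≤ m * (2 * S * w) := Nat.mul_le_mul_left _ h2
        _ = _ := by ring
    have hx : m * X = m * (X % W) + W * (m * (X / W)) := by
      conv_lhs => rw [← Nat.mod_add_div X W]
      ring
    have e1 : m * X % W = m * (X % W) := by
      rw [hx, Nat.add_mul_mod_self_left, Nat.mod_eq_of_lt (by omega)]
    have e2 : m * X / W = m * (X / W) := by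
      rw [hx, Nat.add_mul_div_left _ _ W_pos, Nat.div_eq_of_lt (by omega), zero_add]
    refine ⟨?_, ?_, ?_⟩
    · rw [e1]
      push_cast
      have : (m : ℝ) * ((X % W : ℕ) : ℝ) - S * (m * g 0) - S * (m * w) =
        m * (((X % W : ℕ) : ℝ) - S * g 0 - S * w) := by ring
      rw [this, abs_mul, Nat.abs_cast]
      calc (m : ℝ) * |_| ≤ m * (100 * w) := mul_le_mul_of_nonneg_left h1 (by positivity)
        _ = _ := by ring
    · rw [e1]; exact hm
    · rw [e2]; exact ih h3

theorem SD.add {w w' : ℕ} (hb : 2 * S * (w + w') < W) (n : ℕ) : ∀ {g g' : ℕ → ℝ} {X X' : ℕ},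
    SD w g n X → SD w' g' n X' → SD (w + w') (fun k => g k + g' k) n (X + X') := by
  induction n with
  | zero => intro g g' X X' _ _; trivial
  | succ n ih =>
    intro g g' X X' h h'
    obtain ⟨h1, h2, h3⟩ := h
    obtain ⟨h1', h2', h3'⟩ := h'
    have hm : X % W + X' % W ≤ 2 * S * (w + w') := by
      rw [mul_add]; omega
    have hx : X + X' = (X % W + X' % W) + W * (X / W + X' / W) := by
      have e1 := Nat.mod_add_div X W
      have e2 := Nat.mod_add_div X' W
      rw [mul_add]; omega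
    have e1 : (X + X') % W = X % W + X' % W := by
      rw [hx, Nat.add_mul_mod_self_left, Nat.mod_eq_of_lt (by omega)]
    have e2 : (X + X') / W = X / W + X' / W := by
      rw [hx, Nat.add_mul_div_left _ _ W_pos, Nat.div_eq_of_lt (by omega), zero_add]
    refine ⟨?_, ?_, ?_⟩
    · rw [e1]
      push_cast at h1 h1' ⊢
      rw [abs_le] at *
      constructor <;> linarith [h1.1, h1.2, h1'.1, h1'.2]
    · rw [e1]; exact hm
    · rw [e2]; exact ih h3 h3'

theorem SD.congr {w : ℕ} (n : ℕ) : ∀ {g g' : ℕ → ℝ} {X : ℕ}, SD w g n X → (∀ k, g k = g' k) →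
    SD w g' n X := by
  intro g g' X h e
  have : g = g' := funext e
  rwa [← this]

theorem SD.zero (n : ℕ) : SD 0 (fun _ => 0) n 0 := by
  induction n with
  | zero => trivial
  | succ n ih =>
    refine ⟨by simp, by simp, ?_⟩
    rw [Nat.zero_div]
    exact ih

end Run7.h281
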