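import Mathlib
set_option autoImplicit false

/-! Complex ball arithmetic with integers, evaluated by the kernel. -/

namespace Run7.h281

open Complex

/-- scale -/
def S : ℕ := 1099511627776

theorem S_pos : 0 < S := by norm_num [S]

theorem S_posR : (0 : ℝ) < (S : ℝ) := by exact_mod_cast S_pos

/-- Gaussian integer -/
structure GI where
  x : ℤ
  y : ℤ

/-- ball -/
structure Bl where
  x : ℤ
  y : ℤ
  r : ℕ

/-- complex value -/
noncomputable def cv (x y : ℤ) : ℂ := (x : ℂ) + (y : ℂ) * I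

theorem cv_add (a b c d : ℤ) : cv (a + c) (b + d) = cv a b + cv c d := by
  unfold cv; push_cast; ring

theorem cv_mul (a b c d : ℤ) : cv (a * c - b * d) (a * d + b * c) = cv a b * cv c d := by
  unfold cv
  push_cast
  linear_combination (-(b : ℂ) * d) * I_mul_I

theorem cv_conj (a b : ℤ) : (starRingEnd ℂ) (cv a b) = cv a (-b) := by
  unfold cv
  simp

theorem cv_re (a b : ℤ) : (cv a b).re = a := by
  unfold cv; simp

theorem cv_im (a b : ℤ) : (cv a b).im = b := by
  unfold cv; simp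

theorem norm_cv_sq (a b : ℤ) : ‖cv a b‖ ^ 2 = (a : ℝ) ^ 2 + (b : ℝ) ^ 2 := by
  rw [← Complex.normSq_eq_norm_sq, Complex.normSq_apply, cv_re, cv_im]; ring

theorem norm_cv_le (a b : ℤ) : ‖cv a b‖ ≤ |(a : ℝ)| + |(b : ℝ)| := by
  have := Complex.norm_le_abs_re_add_abs_im (cv a b)
  rwa [cv_re, cv_im] at this

/-- Newton iteration -/
def nit (n : ℕ) : ℕ → ℕ → ℕ
  | 0, g => g
  | f + 1, g => nit n f ((g + n / g) / 2)

/-- upper bound of the square root -/
def sq (n : ℕ) : ℕ :=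
  let g := nit n 6 (2 ^ (Nat.log2 n / 2 + 1)) + 1
  if n ≤ g * g then g else n

theorem sq_spec (n : ℕ) : n ≤ sq n * sq n := by
  unfold sq
  simp only
  split_ifs with h
  · exact h
  · exact Nat.le_mul_self n

theorem norm_cv_le_sq (a b : ℤ) : ‖cv a b‖ ≤ (sq (a * a + b * b).toNat : ℝ) := by
  have h1 := sq_spec (a * a + b * b).toNat
  have h0 : 0 ≤ a * a + b * b := add_nonneg (mul_self_nonneg a) (mul_self_nonneg b)
  have h2 : ((a * a + b * b).toNat : ℝ) = (a : ℝ) ^ 2 + (b : ℝ) ^ 2 := by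
    have : (((a * a + b * b).toNat : ℤ) : ℝ) = ((a * a + b * b : ℤ) : ℝ) := by
      rw [Int.toNat_of_nonneg h0]
    rw [Int.cast_natCast] at this
    rw [this]; push_cast; ring
  have h3 : ((a * a + b * b).toNat : ℝ) ≤ (sq (a * a + b * b).toNat : ℝ) ^ 2 := by
    rw [pow_two]; exact_mod_cast h1
  rw [h2, ← norm_cv_sq] at h3
  exact le_of_sq_le_sq h3 (by positivity)
where
  le_of_sq_le_sq {a b : ℝ} (h : a ^ 2 ≤ b ^ 2) (hb : 0 ≤ b) : a ≤ b := by
    exact (abs_le_of_sq_le_sq' h hb).2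

namespace Bl

/-- the ball `b` at scale `S` contains `z` -/
def In (b : Bl) (z : ℂ) : Prop := ‖z * S - cv b.x b.y‖ ≤ b.r

def add (a b : Bl) : Bl := ⟨a.x + b.x, a.y + b.y, a.r + b.r⟩

theorem In.add {a b : Bl} {z w : ℂ} (ha : a.In z) (hb : b.In w) : (a.add b).In (z + w) := by
  unfold In Bl.add at *
  simp only [cv_add]
  calc ‖(z + w) * S - (cv a.x a.y + cv b.x b.y)‖
      = ‖(z * S - cv a.x a.y) + (w * S - cv b.x b.y)‖ := by congr 1; ring
    _ ≤ _ := norm_add_le _ _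
    _ ≤ _ := by push_cast; linarith

/-- upper bound for the absolute value of the centre -/
def ca (a : Bl) : ℕ := sq (a.x * a.x + a.y * a.y).toNat

/-- upper bound for the absolute value -/
def ab (a : Bl) : ℕ := a.ca + a.r

theorem In.ab {a : Bl} {z : ℂ} (ha : a.In z) : ‖z‖ * S ≤ (a.ab : ℝ) := by
  unfold In at ha
  have h1 := norm_cv_le_sq a.x a.y
  have h2 : ‖z‖ * S = ‖z * S‖ := by
    rw [norm_mul]; simp
  rw [h2]
  calc ‖z * S‖ = ‖(z * S - cv a.x a.y) + cv a.x a.y‖ := by congr 1; ring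
    _ ≤ _ := norm_add_le _ _
    _ ≤ a.r + (a.ca : ℝ) := add_le_add ha h1
    _ = _ := by unfold Bl.ab; push_cast; ring

def mul (a b : Bl) : Bl :=
  ⟨(a.x * b.x - a.y * b.y) / (S : ℤ), (a.x * b.y + a.y * b.x) / (S : ℤ),
    (a.ca * b.r + b.ca * a.r + a.r * b.r) / S + 3⟩

theorem div_err (n : ℤ) : |((n / (S : ℤ) : ℤ) : ℝ) - (n : ℝ) / S| ≤ 1 := by
  have h1 := Int.emod_add_mul_ediv n (S : ℤ)
  have h2 := Int.emod_nonneg n (b := (S : ℤ)) (by norm_num [S])
  have h3 := Int.emod_lt_of_pos n (b := (S : ℤ)) (by norm_num [S])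
  have hS := S_posR
  have h1' : (n : ℝ) = (n % (S : ℤ) : ℤ) + (S : ℝ) * ((n / (S : ℤ) : ℤ) : ℝ) := by
    exact_mod_cast h1.symm
  have h2' : (0 : ℝ) ≤ ((n % (S : ℤ) : ℤ) : ℝ) := by exact_mod_cast h2
  have h3' : ((n % (S : ℤ) : ℤ) : ℝ) ≤ (S : ℝ) := by exact_mod_cast h3.le
  rw [abs_le]
  constructor
  · rw [le_sub_iff_add_le, add_comm, ← sub_eq_add_neg, sub_le_iff_le_add, div_le_iff₀ hS]
    nlinarith
  · rw [sub_le_iff_le_add, ← sub_le_iff_le_add', le_div_iff₀ hS]
    nlinarith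

theorem nat_div_err (n : ℕ) : (n : ℝ) / S ≤ ((n / S : ℕ) : ℝ) + 1 := by
  have hS := S_posR
  rw [div_le_iff₀ hS]
  have h := Nat.lt_div_mul_add (a := n) S_pos
  have h' : (n : ℝ) ≤ ((n / S : ℕ) : ℝ) * S + S := by exact_mod_cast h.le
  linarith

theorem In.mul {a b : Bl} {z w : ℂ} (ha : a.In z) (hb : b.In w) : (a.mul b).In (z * w) := by
  have h1 := norm_cv_le_sq a.x a.y
  have h2 := norm_cv_le_sq b.x b.y
  unfold In at *
  have hS := S_posR
  have hSc : (S : ℂ) ≠ 0 := by exact_mod_cast hS.ne'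
  set A := cv a.x a.y
  set B := cv b.x b.y
  have e1 : z * w * S - A * B / S = ((z * S - A) * B + A * (w * S - B) +
      (z * S - A) * (w * S - B)) / S := by
    field_simp
    ring
  have e2 : ‖z * w * S - A * B / S‖ ≤
      ((a.ca * b.r + b.ca * a.r + a.r * b.r : ℕ) : ℝ) / S := by
    rw [e1, norm_div]
    have : ‖(S : ℂ)‖ = (S : ℝ) := by simp
    rw [this]
    apply div_le_div_of_nonneg_right _ hS.le
    calc ‖(z * S - A) * B + A * (w * S - B) + (z * S - A) * (w * S - B)‖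
        ≤ ‖z * S - A‖ * ‖B‖ + ‖A‖ * ‖w * S - B‖ + ‖z * S - A‖ * ‖w * S - B‖ := by
          refine (norm_add_le _ _).trans (add_le_add ((norm_add_le _ _).trans ?_) ?_)
          · rw [norm_mul, norm_mul]
          · rw [norm_mul]
      _ ≤ a.r * b.ca + a.ca * b.r + a.r * b.r := by
          refine add_le_add (add_le_add ?_ ?_) ?_
          · exact mul_le_mul ha h2 (norm_nonneg _) (by positivity)
          · exact mul_le_mul h1 hb (norm_nonneg _) (by positivity)
          · exact mul_le_mul ha hb (norm_nonneg _) (by positivity)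
      _ = _ := by push_cast; ring
  have e3 : ‖A * B / S - cv (a.mul b).x (a.mul b).y‖ ≤ 2 := by
    have : A * B = cv (a.x * b.x - a.y * b.y) (a.x * b.y + a.y * b.x) := (cv_mul _ _ _ _).symm
    rw [this]
    unfold Bl.mul
    simp only
    have h5 := div_err (a.x * b.x - a.y * b.y)
    have h6 := div_err (a.x * b.y + a.y * b.x)
    refine (Complex.norm_le_abs_re_add_abs_im _).trans ?_
    rw [sub_re, sub_im, cv_re, cv_im, Complex.div_natCast_re, Complex.div_natCast_im, cv_re,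
      cv_im, abs_sub_comm, abs_sub_comm (_ / _) _]
    linarith
  have e4 := nat_div_err (a.ca * b.r + b.ca * a.r + a.r * b.r)
  calc ‖z * w * S - cv (a.mul b).x (a.mul b).y‖
      ≤ ‖z * w * S - A * B / S‖ + ‖A * B / S - cv (a.mul b).x (a.mul b).y‖ :=
        norm_sub_le_norm_sub_add_norm_sub _ _ _
    _ ≤ _ := by
      unfold Bl.mul at e3 ⊢
      simp only at e3 ⊢
      push_cast at *
      linarith

theorem In.mono {a : Bl} {z : ℂ} {r : ℕ} (ha : a.In z) (h : a.r ≤ r) :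
    (⟨a.x, a.y, r⟩ : Bl).In z := by
  unfold In at *
  have : (a.r : ℝ) ≤ r := by exact_mod_cast h
  linarith

theorem In.re_ge {a : Bl} {z : ℂ} (ha : a.In z) : ((a.x - a.r : ℤ) : ℝ) ≤ z.re * S := by
  unfold In at ha
  have h1 := (Complex.abs_re_le_norm (z * S - cv a.x a.y)).trans ha
  have h2 : (z * (S : ℂ)).re = z.re * S := by simp
  rw [sub_re, cv_re, h2, abs_le] at h1
  push_cast
  linarith [h1.1]

end Bl

/-- upper bound of `(q / S) ^ n * S` -/
def pwU (q : ℕ) : ℕ → ℕ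
  | 0 => S
  | n + 1 => pwU q n * q / S + 1

theorem pwU_spec (q : ℕ) (x : ℝ) (h0 : 0 ≤ x) (h : x * S ≤ q) (n : ℕ) :
    x ^ n * S ≤ pwU q n := by
  have hS := S_posR
  induction n with
  | zero => simp [pwU]
  | succ n ih =>
    unfold pwU
    have e := Bl.nat_div_err (pwU q n * q)
    have h1 : x ^ (n + 1) * S ≤ ((pwU q n * q : ℕ) : ℝ) / S := by
      rw [le_div_iff₀ hS]
      push_cast
      calc x ^ (n + 1) * S * S = (x ^ n * S) * (x * S) := by ring
        _ ≤ _ := mul_le_mul ih h (by positivity) (by positivity)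
    push_cast at *
    linarith

end Run7.h281
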