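import Pool.Agent.Run7.h281.Two
import Pool.Agent.H792R3.BB.CH
import Pool.Agent.H792R3.BB.PA
import Pool.Agent.H792R3.BB.UF
import Pool.Agent.H792R3.BB.CY
set_option autoImplicit false

/-! From power series to the two-sided picture. -/

namespace Run7.h281

open Pool.Agent.H792R3.BB Filter Topology

/-- extension by zero -/
noncomputable def ext (a : ℕ → ℂ) (k : ℤ) : ℂ := if 0 ≤ k then a k.toNat else 0

theorem ext_nat (a : ℕ → ℂ) (n : ℕ) : ext a n = a n := by simp [ext]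

theorem ext_out (a : ℕ → ℂ) (k : ℤ) (hk : k ∉ Set.range (fun n : ℕ => (n : ℤ))) :
    ext a k = 0 := by
  unfold ext
  rw [if_neg]
  intro h0
  apply hk
  exact ⟨k.toNat, Int.toNat_of_nonneg h0⟩

theorem ext_le {a : ℕ → ℂ} {r μ : ℝ} (hμ : 0 ≤ μ) (h : ∀ k, ‖a k‖ * r ^ k ≤ μ) (i : ℤ) :
    ‖ext a i‖ * r ^ i ≤ μ := by
  by_cases hi : i ∈ Set.range (fun n : ℕ => (n : ℤ))
  · obtain ⟨n, rfl⟩ := hi
    simp only [ext_nat, zpow_natCast]
    exact h n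
  · rw [ext_out a i hi, norm_zero, zero_mul]
    exact hμ

theorem Fz_ext {a : ℕ → ℂ} {N : ℕ} {z : ℂ} (hz : z ≠ 0) :
    Fz (fun k => ext a (N + k) / a N) z = (∑' n, a n * z ^ n) / (a N * z ^ N) := by
  unfold Fz
  have e1 : (∑' k : ℤ, ext a (N + k) / a N * z ^ k) =
      ∑' k : ℤ, (ext a (N + k) * z ^ ((N : ℤ) + k)) / (a N * z ^ N) := by
    refine tsum_congr fun k => ?_
    rw [zpow_add₀ hz, zpow_natCast]
    have : z ^ N ≠ 0 := pow_ne_zero _ hz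
    by_cases ha : a N = 0
    · simp [ha]
    · field_simp
  rw [e1, tsum_div_const]
  congr 1
  have e2 := (Equiv.addLeft (N : ℤ)).tsum_eq (fun k : ℤ => ext a k * z ^ k)
  simp only [Equiv.coe_addLeft] at e2
  rw [e2, ← (Nat.cast_injective (R := ℤ)).tsum_eq]
  · simp only [ext_nat, zpow_natCast]
  · intro k hk
    by_contra hne
    apply hk
    simp only
    rw [ext_out a k hne, zero_mul]

theorem sum_ext {a : ℕ → ℂ} {N : ℕ} {r : ℝ} (hr : 0 < r) (ha : a N ≠ 0)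
    (h : Summable fun n => ‖a n‖ * r ^ n) :
    Summable fun k : ℤ => ‖ext a (N + k) / a N‖ * r ^ k := by
  have h1 : Summable fun k : ℤ => ‖ext a k‖ * r ^ k := by
    rw [← (Nat.cast_injective (R := ℤ)).summable_iff]
    · refine h.congr fun n => ?_
      simp only [Function.comp, ext_nat, zpow_natCast]
    · intro k hk
      rw [ext_out a k hk, norm_zero, zero_mul]
  have h2 := ((Equiv.addLeft (N : ℤ)).summable_iff.2 h1).mul_left ((‖a N‖ * r ^ N)⁻¹)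
  refine h2.congr fun k => ?_
  simp only [Function.comp, Equiv.coe_addLeft]
  have h3 : ‖a N‖ ≠ 0 := norm_ne_zero_iff.2 ha
  rw [norm_div, zpow_add₀ hr.ne', zpow_natCast]
  field_simp

theorem sel (x : ℕ → ℝ) (h0 : ∀ m, 0 ≤ x m) (h1 : ∀ m, x m ≤ 1) (δ : ℝ) (hδ : 0 < δ) (m₀ : ℕ) :
    ∃ m, m₀ ≤ m ∧ x m ≤ x (m + 1) + δ ∧ x (m + 2) ≤ x (m + 1) + δ := by
  have hb : IsBoundedUnder (· ≤ ·) atTop x := isBoundedUnder_of ⟨1, h1⟩
  have hb2 : IsBoundedUnder (· ≥ ·) atTop x := isBoundedUnder_of ⟨0, h0⟩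
  have hcb : IsCoboundedUnder (· ≤ ·) atTop x := hb2.isCoboundedUnder_le
  set S := limsup x atTop with hS
  have ev : ∀ᶠ m in atTop, x m < S + δ / 2 :=
    eventually_lt_of_limsup_lt (by rw [← hS]; linarith) hb
  have fr : ∃ᶠ m in atTop, S - δ / 2 < x m :=
    frequently_lt_of_lt_limsup hcb (by rw [← hS]; linarith)
  obtain ⟨m₁, hm₁⟩ := eventually_atTop.1 ev
  obtain ⟨m', hm', hx⟩ := (frequently_atTop.1 fr) (max m₀ m₁ + 1)
  obtain ⟨m, rfl⟩ : ∃ m, m' = m + 1 := ⟨m' - 1, by omega⟩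
  have g1 : m₀ ≤ m := by have := le_max_left m₀ m₁; omega
  have g2 : m₁ ≤ m := by have := le_max_right m₀ m₁; omega
  have g3 := hm₁ m g2
  have g4 := hm₁ (m + 2) (by omega)
  exact ⟨m, g1, by linarith, by linarith⟩

theorem mkTwo {a : ℕ → ℂ} {n0 n1 n2 : ℕ} {R0 R1 R2 R3 M1 M2 : ℝ} (hn : n0 < n1) (hn2 : n1 < n2)
    (p0 : 0 < R0) (p1 : R0 ≤ R1) (p2 : R1 ≤ R2) (p3 : R2 ≤ R3) (ha : a n1 ≠ 0)
    (m0 : ∀ k, ‖a k‖ * R0 ^ k ≤ ‖a n0‖ * R0 ^ n0)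
    (m1 : ∀ k, ‖a k‖ * R1 ^ k ≤ ‖a n0‖ * R1 ^ n0) (E1 : ‖a n1‖ * R1 ^ n1 = ‖a n0‖ * R1 ^ n0)
    (m2 : ∀ k, ‖a k‖ * R2 ^ k ≤ ‖a n1‖ * R2 ^ n1) (E2 : ‖a n2‖ * R2 ^ n2 = ‖a n1‖ * R2 ^ n1)
    (m3 : ∀ k, ‖a k‖ * R3 ^ k ≤ ‖a n2‖ * R3 ^ n2)
    (b1 : Bd a R1 M1) (c1 : M1 ≤ 80 / 49 * (‖a n1‖ * R1 ^ n1))
    (b2 : Bd a R2 M2) (c2 : M2 ≤ 80 / 49 * (‖a n1‖ * R2 ^ n1)) :
    Two (80 / 49) R0 R1 R2 R3 (n1 - n0) (n2 - n1) (fun k => ext a (n1 + k) / a n1) := by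
  have q1 : 0 < R1 := p0.trans_le p1
  have q2 : 0 < R2 := q1.trans_le p2
  have q3 : 0 < R3 := q2.trans_le p3
  have han : 0 < ‖a n1‖ := norm_pos_iff.2 ha
  obtain ⟨e, rfl⟩ : ∃ e, n1 = n0 + e := ⟨n1 - n0, by omega⟩
  obtain ⟨d, rfl⟩ : ∃ d, n2 = n0 + e + d := ⟨n2 - (n0 + e), by omega⟩
  rw [show n0 + e - n0 = e by omega, show n0 + e + d - (n0 + e) = d by omega]
  -- simplified relations
  have E1' : ‖a (n0 + e)‖ * R1 ^ e = ‖a n0‖ := by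
    have : R1 ^ n0 ≠ 0 := by positivity
    rw [pow_add] at E1
    apply mul_right_cancel₀ this
    linarith
  have E2' : ‖a (n0 + e + d)‖ * R2 ^ d = ‖a (n0 + e)‖ := by
    have : R2 ^ (n0 + e) ≠ 0 := by positivity
    rw [pow_add R2 (n0 + e) d] at E2
    apply mul_right_cancel₀ this
    linarith
  have nrm : ∀ (r : ℝ) (k : ℤ), 0 < r → ‖ext a (((n0 + e : ℕ) : ℤ) + k) / a (n0 + e)‖ * r ^ k =
      (‖ext a (((n0 + e : ℕ) : ℤ) + k)‖ * r ^ (((n0 + e : ℕ) : ℤ) + k)) /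
        (‖a (n0 + e)‖ * r ^ (n0 + e)) := by
    intro r k hr
    rw [norm_div, zpow_add₀ hr.ne', zpow_natCast]
    field_simp
  have vd : ext a (((n0 + e : ℕ) : ℤ) + (d : ℤ)) = a (n0 + e + d) := by
    rw [← ext_nat a (n0 + e + d)]
    push_cast
    rfl
  have ve : ext a (((n0 + e : ℕ) : ℤ) + (-(e : ℤ))) = a n0 := by
    rw [← ext_nat a n0]
    push_cast
    congr 1
    ring
  -- Parseval
  have hpars : ∀ (r M : ℝ), 0 < r → Bd a r M → M ≤ 80 / 49 * (‖a (n0 + e)‖ * r ^ (n0 + e)) →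
      (‖a n0‖ * r ^ n0) ^ 2 + (‖a (n0 + e)‖ * r ^ (n0 + e)) ^ 2 +
        (‖a (n0 + e + d)‖ * r ^ (n0 + e + d)) ^ 2 ≤
        (80 / 49 * (‖a (n0 + e)‖ * r ^ (n0 + e))) ^ 2 := by
    intro r M hr hb hM
    have h1 := t_PA a r M hb {n0, n0 + e, n0 + e + d}
    rw [Finset.sum_insert (by simp; omega), Finset.sum_insert (by simp; omega),
      Finset.sum_singleton] at h1
    have hM0 : 0 ≤ M := by
      have h2 := hb.2.2 r (by rw [Complex.norm_real, Real.norm_eq_abs, abs_of_pos hr])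
      exact (norm_nonneg _).trans h2
    have h3 : M ^ 2 ≤ (80 / 49 * (‖a (n0 + e)‖ * r ^ (n0 + e))) ^ 2 :=
      pow_le_pow_left₀ hM0 hM 2
    linarith
  have hsq : ∀ x : ℝ, 0 ≤ x → 2 + x ^ 2 ≤ (80 / 49) ^ 2 → x ≤ 8159 / 10000 := by
    intro x hx0 hx
    by_contra hcon
    push Not at hcon
    nlinarith
  have hB : ∀ (r M : ℝ), 0 < r → Bd a r M → M ≤ 80 / 49 * (‖a (n0 + e)‖ * r ^ (n0 + e)) →
      ∀ z : ℂ, ‖z‖ = r → ‖Fz (fun k => ext a (((n0 + e : ℕ) : ℤ) + k) / a (n0 + e)) z‖ ≤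
        80 / 49 := by
    intro r M hr hb hM z hz
    have hz0 : z ≠ 0 := by
      rw [← norm_ne_zero_iff, hz]; exact hr.ne'
    rw [Fz_ext hz0, norm_div, norm_mul, norm_pow, hz, div_le_iff₀ (by positivity)]
    exact (hb.2.2 z hz).trans hM
  refine ⟨by omega, by omega, p0, p1, p2, p3, ?_, ?_, ?_, ?_, ?_, ?_, ?_, hB _ _ q2 b2 c2,
    hB _ _ q1 b1 c1, sum_ext q2 ha b2.2.1, sum_ext q1 ha b1.2.1, ?_, ?_⟩
  · simp only [add_zero]
    rw [ext_nat, div_self ha]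
  · intro k
    rw [nrm _ _ q2, div_le_one (by positivity)]
    exact ext_le (by positivity) m2 _
  · intro k
    rw [nrm _ _ q1, div_le_one (by positivity)]
    refine ext_le (by positivity) ?_ _
    intro j
    rw [E1]
    exact m1 j
  · rw [vd, norm_div, zpow_natCast, div_mul_eq_mul_div, E2', div_self han.ne']
  · rw [ve, norm_div, zpow_neg, zpow_natCast, ← E1']
    field_simp
  · intro t
    have v : ext a (((n0 + e : ℕ) : ℤ) + ((d : ℤ) + (t : ℤ))) = a (n0 + e + d + t) := by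
      rw [← ext_nat a (n0 + e + d + t)]
      push_cast
      congr 1
      ring
    rw [v, norm_div, zpow_natCast, zpow_natCast, div_mul_eq_mul_div, div_le_one han, ← E2']
    have h1 := m3 (n0 + e + d + t)
    rw [pow_add R3 (n0 + e + d) t] at h1
    have h2 : ‖a (n0 + e + d + t)‖ * R3 ^ t ≤ ‖a (n0 + e + d)‖ := by
      have h4 : 0 < R3 ^ (n0 + e + d) := by positivity
      apply le_of_mul_le_mul_right _ h4
      linarith
    calc ‖a (n0 + e + d + t)‖ * (R2 ^ d * R3 ^ t) = ‖a (n0 + e + d + t)‖ * R3 ^ t * R2 ^ d := by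
          ring
      _ ≤ _ := mul_le_mul_of_nonneg_right h2 (by positivity)
  · intro t
    have v : ((n0 + e : ℕ) : ℤ) + (-((e : ℤ) + (t : ℤ))) = (n0 : ℤ) + (-(t : ℤ)) := by
      push_cast
      ring
    rw [v, norm_div, div_mul_eq_mul_div, div_le_one han]
    have h1 := ext_le (by positivity) m0 ((n0 : ℤ) + (-(t : ℤ)))
    rw [zpow_add₀ p0.ne', zpow_natCast] at h1
    have h2 : ‖ext a ((n0 : ℤ) + (-(t : ℤ)))‖ * R0 ^ (-(t : ℤ)) ≤ ‖a n0‖ := by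
      have h4 : 0 < R0 ^ n0 := by positivity
      apply le_of_mul_le_mul_right _ h4
      linarith
    have h5 : ‖a (n0 + e)‖ = ‖a n0‖ * R1 ^ (-(e : ℤ)) := by
      rw [← E1', zpow_neg, zpow_natCast]
      field_simp
    rw [h5]
    calc ‖ext a ((n0 : ℤ) + (-(t : ℤ)))‖ * (R1 ^ (-(e : ℤ)) * R0 ^ (-(t : ℤ))) =
        ‖ext a ((n0 : ℤ) + (-(t : ℤ)))‖ * R0 ^ (-(t : ℤ)) * R1 ^ (-(e : ℤ)) := by ring
      _ ≤ _ := mul_le_mul_of_nonneg_right h2 (by positivity)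
  · apply hsq _ (by positivity)
    have h1 := hpars R2 M2 q2 b2 c2
    rw [E2] at h1
    have h2 : ‖a n0‖ * R2 ^ n0 = (R1 / R2) ^ e * (‖a (n0 + e)‖ * R2 ^ (n0 + e)) := by
      rw [← E1', div_pow, pow_add]
      field_simp
    rw [h2] at h1
    have h3 : 0 < (‖a (n0 + e)‖ * R2 ^ (n0 + e)) ^ 2 := by positivity
    apply le_of_mul_le_mul_right _ h3
    linarith
  · apply hsq _ (by positivity)
    have h1 := hpars R1 M1 q1 b1 c1
    rw [← E1] at h1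
    have h2 : ‖a (n0 + e + d)‖ * R1 ^ (n0 + e + d) =
        (R1 / R2) ^ d * (‖a (n0 + e)‖ * R1 ^ (n0 + e)) := by
      rw [← E2', div_pow, pow_add]
      field_simp
    rw [h2] at h1
    have h3 : 0 < (‖a (n0 + e)‖ * R1 ^ (n0 + e)) ^ 2 := by positivity
    apply le_of_mul_le_mul_right _ h3
    linarith

theorem up (a : ℕ → ℂ) (hs : ∀ r : ℝ, 0 < r → Summable (fun n => ‖a n‖ * r ^ n))
    (hinf : ∀ N : ℕ, ∃ n, N ≤ n ∧ a n ≠ 0) (R₀ : ℝ) : ∃ r, R₀ ≤ r ∧ 0 < r ∧ ∃ μ : ℝ, 0 < μ ∧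
    (∀ k, ‖a k‖ * r ^ k ≤ μ) ∧ ∀ M : ℝ, Bd a r M → 80 / 49 * μ ≤ M := by
  by_contra hcon
  push Not at hcon
  obtain ⟨n, R, hn, hR, hRp, hRt, hne, hmax, heq⟩ :=
    t_CH a (fun r hr => (hs r hr).tendsto_atTop_zero) hinf
  obtain ⟨m₀, hm₀⟩ := (hRt.eventually_ge_atTop R₀).exists_forall_of_atTop
  set y : ℕ → ℝ := fun m => (R m / R (m + 1)) ^ (min (n (m + 1) - n m) (n (m + 2) - n (m + 1)))
    with hy
  have hr1 : ∀ m, R m / R (m + 1) ≤ 1 := fun m => (div_le_one (hRp _)).2 (hR (Nat.le_succ m))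
  have hr0 : ∀ m, 0 ≤ R m / R (m + 1) := fun m => (div_pos (hRp _) (hRp _)).le
  obtain ⟨m, hm, g1, g2⟩ := sel y (fun m => pow_nonneg (hr0 m) _)
    (fun m => pow_le_one₀ (hr0 m) (hr1 m)) dlt (by unfold dlt; norm_num) m₀
  have ex : ∀ j, m₀ ≤ j → ∃ M, Bd a (R j) M ∧ M < 80 / 49 * (‖a (n j)‖ * R j ^ n j) := by
    intro j hj
    have h1 := hRp j
    have h2 : 0 < ‖a (n j)‖ := norm_pos_iff.2 (hne j)
    exact hcon (R j) (hm₀ j hj) h1 _ (by positivity) (hmax j)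
  obtain ⟨M1, b1, c1⟩ := ex (m + 1) (by omega)
  obtain ⟨M2, b2, c2⟩ := ex (m + 2) (by omega)
  have T := mkTwo (a := a) (n0 := n (m + 1)) (n1 := n (m + 2)) (n2 := n (m + 3))
    (R0 := R m) (R1 := R (m + 1)) (R2 := R (m + 2)) (R3 := R (m + 3)) (M1 := M1) (M2 := M2)
    (hn (by omega)) (hn (by omega)) (hRp _) (hR (by omega)) (hR (by omega)) (hR (by omega))
    (hne _) (fun k => by rw [heq m]; exact hmax m k) (hmax _) (heq _) (hmax _) (heq _) (hmax _)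
    b1 (by rw [heq (m + 1)]; exact c1.le) b2 c2.le
  refine T.false ?_ ?_
  · refine le_trans ?_ g1
    exact pow_le_pow_of_le_one (hr0 m) (hr1 m) (min_le_right _ _)
  · refine le_trans ?_ g2
    exact pow_le_pow_of_le_one (hr0 (m + 2)) (hr1 (m + 2)) (min_le_left _ _)

end Run7.h281
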