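import Pool.Agent.Run7.h281.LocA
import Pool.Agent.Run7.h281.Red
set_option autoImplicit false

/-! From power series whose indices of maximum terms form an arithmetic progression to the local
picture with equal gaps. -/

namespace Run7.h281

open Pool.Agent.H792R3.BB Filter Topology

theorem capT {T : ℕ → ℝ} {q : ℝ} (hq0 : 0 ≤ q) (hq : ∀ i < 20, T i ≤ q * T (i + 1)) :
    ∀ i ≤ 20, T 0 ≤ q ^ i * T i := by
  intro i
  induction i with
  | zero => intro _; simp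
  | succ i ih =>
    intro hi
    have h1 := ih (by omega)
    have h2 := mul_le_mul_of_nonneg_left (hq i (by omega)) (pow_nonneg hq0 i)
    calc T 0 ≤ q ^ i * T i := h1
      _ ≤ q ^ i * (q * T (i + 1)) := h2
      _ = q ^ (i + 1) * T (i + 1) := by ring

theorem tri (N : ℕ) : (N + 1) * (N + 1 + 1) / 2 = N * (N + 1) / 2 + (N + 1) := by
  have : (N + 1) * (N + 1 + 1) = N * (N + 1) + (N + 1) * 2 := by ring
  rw [this, Nat.add_mul_div_right _ _ (by norm_num)]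

theorem capV {v T : ℕ → ℝ} {q : ℝ} (hv : ∀ i, 0 ≤ v i) (hT : ∀ i, 0 < T i) (hq0 : 0 ≤ q)
    (h : ∀ i < 21, v (i + 1) * T i = v i) (hq : ∀ i < 20, T i ≤ q * T (i + 1)) :
    ∀ N ≤ 20, v (N + 1) * T 0 ^ (N + 1) ≤ q ^ (N * (N + 1) / 2) * v 0 := by
  intro N
  induction N with
  | zero =>
    intro _
    have := h 0 (by norm_num)
    simp only [zero_add, pow_one, zero_mul, Nat.zero_div, pow_zero, one_mul]
    rw [← this, zero_add]
  | succ N ih =>
    intro hN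
    have h1 := ih (by omega)
    have h2 := capT hq0 hq (N + 1) (by omega)
    have h3 := h (N + 1) (by omega)
    have h4 : 0 ≤ v (N + 1 + 1) * T 0 ^ (N + 1) := mul_nonneg (hv _) (pow_nonneg (hT 0).le _)
    have h5 := mul_le_mul_of_nonneg_left h2 h4
    have h6 := mul_le_mul_of_nonneg_left h1 (pow_nonneg hq0 (N + 1))
    rw [tri, pow_add q]
    calc v (N + 1 + 1) * T 0 ^ (N + 1 + 1) = v (N + 1 + 1) * T 0 ^ (N + 1) * T 0 := by ring
      _ ≤ v (N + 1 + 1) * T 0 ^ (N + 1) * (q ^ (N + 1) * T (N + 1)) := h5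
      _ = q ^ (N + 1) * ((v (N + 1 + 1) * T (N + 1)) * T 0 ^ (N + 1)) := by ring
      _ = q ^ (N + 1) * (v (N + 1) * T 0 ^ (N + 1)) := by rw [h3]
      _ ≤ q ^ (N + 1) * (q ^ (N * (N + 1) / 2) * v 0) := h6
      _ = _ := by ring

theorem selA (x : ℕ → ℝ) (h0 : ∀ m, 0 ≤ x m) (h1 : ∀ m, x m ≤ 1) (δ : ℝ) (hδ : 0 < δ) (m₀ : ℕ) :
    ∃ m, m₀ ≤ m ∧ ∀ i ≤ 40, x (m + i) ≤ x (m + 20) + δ := by
  have hb : IsBoundedUnder (· ≤ ·) atTop x := isBoundedUnder_of ⟨1, h1⟩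
  have hb2 : IsBoundedUnder (· ≥ ·) atTop x := isBoundedUnder_of ⟨0, h0⟩
  have hcb : IsCoboundedUnder (· ≤ ·) atTop x := hb2.isCoboundedUnder_le
  set S := limsup x atTop with hS
  have ev : ∀ᶠ m in atTop, x m < S + δ / 2 :=
    eventually_lt_of_limsup_lt (by rw [← hS]; linarith) hb
  have fr : ∃ᶠ m in atTop, S - δ / 2 < x m :=
    frequently_lt_of_lt_limsup hcb (by rw [← hS]; linarith)
  obtain ⟨m₁, hm₁⟩ := eventually_atTop.1 ev
  obtain ⟨m', hm', hx⟩ := (frequently_atTop.1 fr) (max m₀ m₁ + 20)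
  obtain ⟨m, rfl⟩ : ∃ m, m' = m + 20 := ⟨m' - 20, by omega⟩
  have g1 : m₀ ≤ m := by have := le_max_left m₀ m₁; omega
  have g2 : m₁ ≤ m := by have := le_max_right m₀ m₁; omega
  refine ⟨m, g1, fun i _ => ?_⟩
  have := hm₁ (m + i) (by omega)
  linarith

/-- the vertices of the Newton polygon are `n₀ + d j`, `j ≥ j₀` -/
structure AP (a : ℕ → ℂ) (n₀ d j₀ : ℕ) (R : ℕ → ℝ) : Prop where
  hd : 0 < d
  pos : ∀ j, 0 < R j
  ne : ∀ j, j₀ ≤ j → a (n₀ + d * j) ≠ 0
  mx : ∀ j, j₀ ≤ j → ∀ k, ‖a k‖ * R j ^ k ≤ ‖a (n₀ + d * j)‖ * R j ^ (n₀ + d * j)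
  eq : ∀ j, j₀ ≤ j → ‖a (n₀ + d * (j + 1))‖ * R j ^ d = ‖a (n₀ + d * j)‖
  mono : ∀ j, j₀ ≤ j → R j ≤ R (j + 1)

section

variable {a : ℕ → ℂ} {n₀ d j₀ : ℕ} {R : ℕ → ℝ}

/-- the local picture at `n₀ + d j`, `j = m + 21` -/
theorem AP.loc (h : AP a n₀ d j₀ R) {m : ℕ} (hm : j₀ ≤ m)
    (hs : ∀ i ≤ 40, (R (m + i) / R (m + i + 1)) ^ d ≤ (R (m + 20) / R (m + 20 + 1)) ^ d + dlt)
    {M1 M2 : ℝ} (b1 : Bd a (R (m + 20)) M1)
    (c1 : M1 ≤ 1000 / 589 * (‖a (n₀ + d * (m + 21))‖ * R (m + 20) ^ (n₀ + d * (m + 21))))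
    (b2 : Bd a (R (m + 21)) M2)
    (c2 : M2 ≤ 1000 / 589 * (‖a (n₀ + d * (m + 21))‖ * R (m + 21) ^ (n₀ + d * (m + 21)))) :
    False := by
  have hd := h.hd
  have r0 := h.pos (m + 20)
  have s0 := h.pos (m + 21)
  set N1 : ℕ := n₀ + d * (m + 21) with hN1
  set r := R (m + 20) with hr
  set s := R (m + 21) with hs'
  have ha : a N1 ≠ 0 := h.ne _ (by omega)
  have han : 0 < ‖a N1‖ := norm_pos_iff.2 ha
  have hrs : r ≤ s := h.mono (m + 20) (by omega)
  set q : ℝ := (r / s) ^ d + dlt with hq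
  have hrs0 : 0 < (r / s) ^ d := by positivity
  have hq0 : 0 ≤ q := add_nonneg hrs0.le dlt_0
  -- equalities at the two radii
  have E1 : ‖a N1‖ * r ^ d = ‖a (n₀ + d * (m + 20))‖ := h.eq (m + 20) (by omega)
  have E2 : ‖a (n₀ + d * (m + 22))‖ * s ^ d = ‖a N1‖ := h.eq (m + 21) (by omega)
  have mxr : ∀ k, ‖a k‖ * r ^ k ≤ ‖a N1‖ * r ^ N1 := by
    intro k
    refine (h.mx (m + 20) (by omega) k).trans (le_of_eq ?_)
    rw [← E1]
    have : N1 = d + (n₀ + d * (m + 20)) := by rw [hN1]; ring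
    rw [this, pow_add]
    ring
  have mxs : ∀ k, ‖a k‖ * s ^ k ≤ ‖a N1‖ * s ^ N1 := h.mx (m + 21) (by omega)
  -- shifts
  have shr : ∀ (i j : ℕ), j₀ ≤ i → ‖a (n₀ + d * (i + 1 + j))‖ * (R i ^ d) ^ j ≤
      ‖a (n₀ + d * (i + 1))‖ := by
    intro i j hi
    have h1 := h.mx i hi (n₀ + d * (i + 1 + j))
    rw [← h.eq i hi] at h1
    have h2 := h.pos i
    have e1 : n₀ + d * (i + 1 + j) = (n₀ + d * (i + 1)) + d * j := by ring
    have e2 : n₀ + d * (i + 1) = d + (n₀ + d * i) := by ring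
    rw [← pow_mul]
    have h3 : 0 < R i ^ (n₀ + d * (i + 1)) := by positivity
    apply le_of_mul_le_mul_right _ h3
    calc ‖a (n₀ + d * (i + 1 + j))‖ * R i ^ (d * j) * R i ^ (n₀ + d * (i + 1))
        = ‖a (n₀ + d * (i + 1 + j))‖ * R i ^ (n₀ + d * (i + 1 + j)) := by
          rw [e1, pow_add (R i) (n₀ + d * (i + 1)) (d * j)]; ring
      _ ≤ _ := h1
      _ = ‖a (n₀ + d * (i + 1))‖ * R i ^ (n₀ + d * (i + 1)) := by
          rw [e2, pow_add (R i) d]; ring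
  have shl : ∀ (i j : ℕ), j₀ ≤ i →
      ‖ext a (((n₀ + d * i : ℕ) : ℤ) + -((d * j : ℕ) : ℤ))‖ * ((R i ^ d) ^ j)⁻¹ ≤
      ‖a (n₀ + d * i)‖ := by
    intro i j hi
    have h2 := h.pos i
    have h1 := ext_le (by positivity) (h.mx i hi) (((n₀ + d * i : ℕ) : ℤ) + -((d * j : ℕ) : ℤ))
    rw [zpow_add₀ h2.ne', zpow_natCast, zpow_neg, zpow_natCast] at h1
    rw [← pow_mul]
    have h3 : 0 < R i ^ (n₀ + d * i) := by positivity
    apply le_of_mul_le_mul_right _ h3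
    calc _ = _ := by ring
      _ ≤ _ := h1
  -- right caps
  have capr : ∀ N j : ℕ, N ≤ 20 → ‖a (n₀ + d * (m + 21 + (N + j + 1)))‖ * (s ^ d) ^ (N + j + 1) ≤
      q ^ (N * (N + 1) / 2 + N * j) * ‖a N1‖ := by
    intro N j hN
    have hqT : ∀ i < 20, R (m + 21 + i) ^ d ≤ q * R (m + 21 + (i + 1)) ^ d := by
      intro i hi
      have h1 := hs (21 + i) (by omega)
      rw [div_pow, div_le_iff₀ (pow_pos (h.pos _) _)] at h1
      rwa [show m + (21 + i) = m + 21 + i by ring, show m + 21 + i + 1 = m + 21 + (i + 1) by ring]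
        at h1
    have h1 := capV (v := fun i => ‖a (n₀ + d * (m + 21 + i))‖) (T := fun i => R (m + 21 + i) ^ d)
      (q := q) (fun i => norm_nonneg _) (fun i => pow_pos (h.pos _) _) hq0
      (fun i _ => h.eq (m + 21 + i) (by omega)) hqT N hN
    have h2 := capT (T := fun i => R (m + 21 + i) ^ d) hq0 hqT N hN
    have h3 := shr (m + 21 + N) j (by omega)
    simp only [add_zero] at h1 h2
    rw [← hs'] at h1 h2
    have p1 : 0 < s ^ d := by positivity
    have p2 : 0 < R (m + 21 + N) ^ d := pow_pos (h.pos _) _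
    rw [show m + 21 + (N + j + 1) = m + 21 + N + 1 + j by ring]
    calc ‖a (n₀ + d * (m + 21 + N + 1 + j))‖ * (s ^ d) ^ (N + j + 1)
        = (‖a (n₀ + d * (m + 21 + N + 1 + j))‖ * (s ^ d) ^ (N + 1)) * (s ^ d) ^ j := by
          rw [show N + j + 1 = (N + 1) + j by ring, pow_add]; ring
      _ ≤ (‖a (n₀ + d * (m + 21 + N + 1 + j))‖ * (s ^ d) ^ (N + 1)) *
            (q ^ N * R (m + 21 + N) ^ d) ^ j :=
          mul_le_mul_of_nonneg_left (pow_le_pow_left₀ p1.le h2 j) (by positivity)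
      _ = (‖a (n₀ + d * (m + 21 + N + 1 + j))‖ * (R (m + 21 + N) ^ d) ^ j) *
            ((s ^ d) ^ (N + 1) * q ^ (N * j)) := by
          rw [mul_pow, ← pow_mul q]; ring
      _ ≤ ‖a (n₀ + d * (m + 21 + N + 1))‖ * ((s ^ d) ^ (N + 1) * q ^ (N * j)) :=
          mul_le_mul_of_nonneg_right h3 (by positivity)
      _ = (‖a (n₀ + d * (m + 21 + (N + 1)))‖ * (s ^ d) ^ (N + 1)) * q ^ (N * j) := by
          rw [show m + 21 + N + 1 = m + 21 + (N + 1) by ring]; ring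
      _ ≤ (q ^ (N * (N + 1) / 2) * ‖a N1‖) * q ^ (N * j) :=
          mul_le_mul_of_nonneg_right h1 (by positivity)
      _ = _ := by rw [pow_add]; ring
  -- left caps
  have capl : ∀ N j : ℕ, N ≤ 20 →
      ‖ext a ((N1 : ℤ) + -((d * (N + j + 1) : ℕ) : ℤ))‖ * ((r ^ d) ^ (N + j + 1))⁻¹ ≤
      q ^ (N * (N + 1) / 2 + N * j) * ‖a N1‖ := by
    intro N j hN
    have hqT : ∀ i < 20, ((R (m + 20 - i) ^ d)⁻¹ : ℝ) ≤ q * (R (m + 20 - (i + 1)) ^ d)⁻¹ := by
      intro i hi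
      have h1 := hs (20 - (i + 1)) (by omega)
      have e1 : m + (20 - (i + 1)) = m + 20 - (i + 1) := by omega
      have e2 : m + 20 - (i + 1) + 1 = m + 20 - i := by omega
      rw [e1, e2, div_pow, div_le_iff₀ (pow_pos (h.pos _) _)] at h1
      have p1 : 0 < R (m + 20 - i) ^ d := pow_pos (h.pos _) _
      have p2 : 0 < R (m + 20 - (i + 1)) ^ d := pow_pos (h.pos _) _
      rw [← div_eq_mul_inv, le_div_iff₀ p2, inv_mul_le_iff₀ p1]
      linarith
    have h1 := capV (v := fun i => ‖a (n₀ + d * (m + 21 - i))‖)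
      (T := fun i => (R (m + 20 - i) ^ d)⁻¹)
      (q := q) (fun i => norm_nonneg _) (fun i => inv_pos.2 (pow_pos (h.pos _) _)) hq0
      (fun i hi => by
        have h2 := h.eq (m + 20 - i) (by omega)
        have e1 : m + 20 - i + 1 = m + 21 - i := by omega
        have e2 : m + 21 - (i + 1) = m + 20 - i := by omega
        rw [e1] at h2
        rw [e2, ← h2, mul_assoc, mul_inv_cancel₀ (pow_pos (h.pos _) _).ne', mul_one]) hqT N hN
    have h2 := capT (T := fun i => (R (m + 20 - i) ^ d)⁻¹) hq0 hqT N hN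
    have h3 := shl (m + 20 - N) j (by omega)
    simp only [Nat.sub_zero] at h1 h2
    rw [← hr] at h1 h2
    rw [← hN1] at h1
    have p1 : 0 < (r ^ d)⁻¹ := by positivity
    have p2 : 0 < R (m + 20 - N) ^ d := pow_pos (h.pos _) _
    have e3 : ((n₀ + d * (m + 20 - N) : ℕ) : ℤ) + -((d * j : ℕ) : ℤ) =
        (N1 : ℤ) + -((d * (N + j + 1) : ℕ) : ℤ) := by
      have : N1 = n₀ + d * (m + 20 - N) + d * (N + 1) := by
        rw [hN1, add_assoc, ← mul_add]
        congr 2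
        omega
      rw [this]
      push_cast
      ring
    rw [e3] at h3
    set Z := ‖ext a ((N1 : ℤ) + -((d * (N + j + 1) : ℕ) : ℤ))‖ with hZ
    have hZ0 : 0 ≤ Z := norm_nonneg _
    calc Z * ((r ^ d) ^ (N + j + 1))⁻¹
        = (Z * ((r ^ d)⁻¹) ^ (N + 1)) * ((r ^ d)⁻¹) ^ j := by
          rw [show N + j + 1 = (N + 1) + j by ring, pow_add, mul_inv, inv_pow, inv_pow]; ring
      _ ≤ (Z * ((r ^ d)⁻¹) ^ (N + 1)) * (q ^ N * (R (m + 20 - N) ^ d)⁻¹) ^ j :=
          mul_le_mul_of_nonneg_left (pow_le_pow_left₀ p1.le h2 j) (by positivity)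
      _ = (Z * ((R (m + 20 - N) ^ d) ^ j)⁻¹) * (((r ^ d)⁻¹) ^ (N + 1) * q ^ (N * j)) := by
          rw [mul_pow, ← pow_mul q, inv_pow]; ring
      _ ≤ ‖a (n₀ + d * (m + 20 - N))‖ * (((r ^ d)⁻¹) ^ (N + 1) * q ^ (N * j)) :=
          mul_le_mul_of_nonneg_right h3 (by positivity)
      _ = (‖a (n₀ + d * (m + 21 - (N + 1)))‖ * ((r ^ d)⁻¹) ^ (N + 1)) * q ^ (N * j) := by
          rw [show m + 21 - (N + 1) = m + 20 - N by omega]; ring
      _ ≤ (q ^ (N * (N + 1) / 2) * ‖a N1‖) * q ^ (N * j) :=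
          mul_le_mul_of_nonneg_right h1 (by positivity)
      _ = _ := by rw [pow_add]; ring
  -- the phase
  obtain ⟨ζ, hζ⟩ := IsAlgClosed.exists_pow_nat_eq (a N1 / a (n₀ + d * (m + 22))) hd
  have ha2 : a (n₀ + d * (m + 22)) ≠ 0 := h.ne _ (by omega)
  have hζs : ‖ζ‖ = s := by
    have h1 : ‖ζ‖ ^ d = s ^ d := by
      rw [← norm_pow, hζ, norm_div, ← E2, mul_comm, mul_div_assoc,
        div_self (norm_ne_zero_iff.2 ha2), mul_one]
    exact (pow_left_inj₀ (norm_nonneg _) s0.le hd.ne').1 h1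
  have hζ0 : ζ ≠ 0 := by
    intro h0
    rw [h0, norm_zero] at hζs
    exact s0.ne hζs
  set A : ℤ → ℂ := fun k => ext a (N1 + k) / a N1 with hA
  have nb : ∀ k : ℤ, ‖A k * ζ ^ k‖ = ‖A k‖ * s ^ k := by
    intro k
    rw [norm_mul, norm_zpow, hζs]
  have nrm : ∀ (x : ℝ) (k : ℤ), 0 < x → ‖A k‖ * x ^ k =
      (‖ext a ((N1 : ℤ) + k)‖ * x ^ k) / ‖a N1‖ := by
    intro x k hx
    simp only [hA]
    rw [norm_div]
    field_simp
  have hB : ∀ (x M : ℝ), 0 < x → Bd a x M → M ≤ 1000 / 589 * (‖a N1‖ * x ^ N1) →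
      ∀ z : ℂ, ‖z‖ = x → ‖Fz A z‖ ≤ 1000 / 589 := by
    intro x M hx hb hM z hz
    have hz0 : z ≠ 0 := by
      rw [← norm_ne_zero_iff, hz]; exact hx.ne'
    rw [hA, Fz_ext hz0, norm_div, norm_mul, norm_pow, hz, div_le_iff₀ (by positivity)]
    exact (hb.2.2 z hz).trans hM
  have T : LocA (1000 / 589) (r / s) d (fun k => A k * ζ ^ k) := by
    refine ⟨hd, by positivity, (div_le_one s0).2 hrs, ?_, ?_, ?_, ?_, ?_, ?_, ?_, ?_, ?_, ?_⟩
    · simp only [hA, add_zero, zpow_zero, mul_one]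
      rw [ext_nat, div_self ha]
    · have e1 : (N1 : ℤ) + (d : ℤ) = ((n₀ + d * (m + 22) : ℕ) : ℤ) := by
        rw [hN1]; push_cast; ring
      simp only [hA]
      rw [e1, ext_nat, zpow_natCast, hζ]
      field_simp
    · have h1 : ext a ((N1 : ℤ) + -(d : ℤ)) = a (n₀ + d * (m + 20)) := by
        rw [← ext_nat a (n₀ + d * (m + 20)), hN1]
        push_cast
        congr 1
        ring
      rw [nb, nrm _ _ s0, h1, ← E1, zpow_neg, zpow_natCast, div_pow]
      field_simp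
    · exact (sum_ext s0 ha b2.2.1).congr fun k => (nb k).symm
    · refine (sum_ext r0 ha b1.2.1).congr fun k => ?_
      rw [norm_mul, nb, norm_zpow, Complex.norm_real, Real.norm_eq_abs,
        abs_of_pos (by positivity : 0 < r / s), div_zpow]
      field_simp
      rfl
    · intro N j hN
      have h1 := capr N j hN
      have e1 : (N1 : ℤ) + (d : ℤ) * (((N + j : ℕ) : ℤ) + 1) =
          ((n₀ + d * (m + 21 + (N + j + 1)) : ℕ) : ℤ) := by
        rw [hN1]; push_cast; ring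
      have e2 : (d : ℤ) * (((N + j : ℕ) : ℤ) + 1) = ((d * (N + j + 1) : ℕ) : ℤ) := by
        push_cast; ring
      rw [nb, nrm _ _ s0, e1, e2, ext_nat, zpow_natCast, pow_mul, div_le_iff₀ han]
      exact h1
    · intro N j hN
      have h1 := capl N j hN
      have e2 : (d : ℤ) * (-(((N + j : ℕ) : ℤ) + 1)) = -((d * (N + j + 1) : ℕ) : ℤ) := by
        push_cast; ring
      rw [nb, nrm _ _ s0, e2, zpow_neg, zpow_natCast, pow_mul, div_le_iff₀ han]
      have p1 : 0 < (r ^ d) ^ (N + j + 1) := by positivity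
      calc ‖ext a ((N1 : ℤ) + -((d * (N + j + 1) : ℕ) : ℤ))‖ * ((s ^ d) ^ (N + j + 1))⁻¹
          = (‖ext a ((N1 : ℤ) + -((d * (N + j + 1) : ℕ) : ℤ))‖ * ((r ^ d) ^ (N + j + 1))⁻¹) *
            ((r / s) ^ d) ^ (N + j + 1) := by
            rw [div_pow r s d, div_pow]
            field_simp
        _ ≤ (q ^ (N * (N + 1) / 2 + N * j) * ‖a N1‖) * ((r / s) ^ d) ^ (N + j + 1) :=
            mul_le_mul_of_nonneg_right h1 (by positivity)
        _ = _ := by ring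
    · intro u hu
      rw [Fz_twistA]
      exact hB _ _ s0 b2 c2 _ (by rw [norm_mul, hu, hζs, mul_one])
    · intro u hu
      rw [Fz_twistA, Fz_twistA]
      refine hB _ _ r0 b1 c1 _ ?_
      rw [norm_mul, norm_mul, hu, hζs, Complex.norm_real, Real.norm_eq_abs,
        abs_of_pos (by positivity : 0 < r / s)]
      field_simp
    · -- Parseval
      have h1 := t_PA a s M2 b2 {n₀ + d * (m + 20), N1, n₀ + d * (m + 22)}
      have n1 : n₀ + d * (m + 20) < N1 := by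
        rw [hN1]; exact Nat.add_lt_add_left (Nat.mul_lt_mul_of_pos_left (by omega) hd) _
      have n2 : N1 < n₀ + d * (m + 22) := by
        rw [hN1]; exact Nat.add_lt_add_left (Nat.mul_lt_mul_of_pos_left (by omega) hd) _
      rw [Finset.sum_insert (by simp; omega), Finset.sum_insert (by simp; omega),
        Finset.sum_singleton] at h1
      have hM0 : 0 ≤ M2 := by
        have h2 := b2.2.2 s (by rw [Complex.norm_real, Real.norm_eq_abs, abs_of_pos s0])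
        exact (norm_nonneg _).trans h2
      have h3 : M2 ^ 2 ≤ (1000 / 589 * (‖a N1‖ * s ^ N1)) ^ 2 := pow_le_pow_left₀ hM0 c2 2
      have e1 : ‖a (n₀ + d * (m + 20))‖ * s ^ (n₀ + d * (m + 20)) =
          (r / s) ^ d * (‖a N1‖ * s ^ N1) := by
        rw [← E1, show N1 = (n₀ + d * (m + 20)) + d by rw [hN1]; ring, pow_add, div_pow]
        field_simp
        ring
      have e2 : ‖a (n₀ + d * (m + 22))‖ * s ^ (n₀ + d * (m + 22)) = ‖a N1‖ * s ^ N1 := by
        rw [← E2, show n₀ + d * (m + 22) = N1 + d by rw [hN1]; ring, pow_add]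
        ring
      rw [e1, e2] at h1
      have h4 : 0 < (‖a N1‖ * s ^ N1) ^ 2 := by positivity
      have h5 : 2 + ((r / s) ^ d) ^ 2 ≤ (1000 / 589) ^ 2 := by
        apply le_of_mul_le_mul_right _ h4
        linarith
      by_contra hcon
      push Not at hcon
      nlinarith
  exact T.false

end

end Run7.h281
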