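import Pool.Agent.Run7.h281.Cst
set_option autoImplicit false

/-! Certificate checker for the symmetric vertex (equal gaps). -/

namespace Run7.h281

open Complex

/-- quadtree -/
inductive T
  | o
  | l (c : ℕ)
  | n (a b c d : T)

/-- check of a tree over a square with centre `(x, y)` and half side `h` -/
def T.chk (leaf : ℤ → ℤ → ℕ → ℕ → Bool) (out : ℤ → ℤ → ℕ → Bool) : T → ℤ → ℤ → ℕ → Bool
  | .o, x, y, h => out x y h
  | .l c, x, y, h => leaf x y h c
  | .n a b c d, x, y, h =>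
    fI x fun x => fI y fun y => fN (h / 2) fun h' => decide (h ≤ 2 * h') &&
      a.chk leaf out (x - h') (y - h') h' && b.chk leaf out (x - h') (y + h') h' &&
      c.chk leaf out (x + h') (y - h') h' && d.chk leaf out (x + h') (y + h') h'

/-- `Q` in the square -/
def Sq (Q : ℂ) (x y : ℤ) (h : ℕ) : Prop := |Q.re * S - x| ≤ h ∧ |Q.im * S - y| ≤ h

theorem T.chk_ok {leaf : ℤ → ℤ → ℕ → ℕ → Bool} {out : ℤ → ℤ → ℕ → Bool} {P : ℂ → Prop}
    (hl : ∀ x y h c, leaf x y h c = true → ∀ Q, Sq Q x y h → P Q)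
    (ho : ∀ x y h, out x y h = true → ∀ Q, Sq Q x y h → P Q) (t : T) :
    ∀ (x y : ℤ) (h : ℕ), t.chk leaf out x y h = true → ∀ Q, Sq Q x y h → P Q := by
  induction t with
  | o => intro x y h hc Q hQ; exact ho x y h hc Q hQ
  | l c => intro x y h hc Q hQ; exact hl x y h c hc Q hQ
  | n a b c d iha ihb ihc ihd =>
    intro x y h hc Q hQ
    simp only [T.chk, fN_eq, fI_eq, Bool.and_eq_true, decide_eq_true_eq] at hc
    obtain ⟨⟨⟨⟨h0, h1⟩, h2⟩, h3⟩, h4⟩ := hc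
    obtain ⟨hx, hy⟩ := hQ
    generalize h / 2 = h' at h0 h1 h2 h3 h4
    have h0' : (h : ℝ) ≤ 2 * (h' : ℝ) := by exact_mod_cast h0
    rw [abs_le] at hx hy
    by_cases cx : Q.re * S ≤ x <;> by_cases cy : Q.im * S ≤ y
    · refine iha _ _ _ h1 Q ⟨?_, ?_⟩ <;> rw [abs_le] <;> push_cast <;> constructor <;>
        linarith [hx.1, hx.2, hy.1, hy.2]
    · refine ihb _ _ _ h2 Q ⟨?_, ?_⟩ <;> rw [abs_le] <;> push_cast <;> constructor <;>
        linarith [hx.1, hx.2, hy.1, hy.2]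
    · refine ihc _ _ _ h3 Q ⟨?_, ?_⟩ <;> rw [abs_le] <;> push_cast <;> constructor <;>
        linarith [hx.1, hx.2, hy.1, hy.2]
    · refine ihd _ _ _ h4 Q ⟨?_, ?_⟩ <;> rw [abs_le] <;> push_cast <;> constructor <;>
        linarith [hx.1, hx.2, hy.1, hy.2]

/-- the square lies outside the disc of radius `R / S` -/
def outS (R : ℕ) (x y : ℤ) (h : ℕ) : Bool :=
  decide (R * R < (x.natAbs - h) * (x.natAbs - h) + (y.natAbs - h) * (y.natAbs - h))

theorem outS_ok (R : ℕ) (x y : ℤ) (h : ℕ) (ho : outS R x y h = true) (Q : ℂ) (hQ : Sq Q x y h) :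
    (R : ℝ) < ‖Q‖ * S := by
  unfold outS at ho
  rw [decide_eq_true_eq] at ho
  obtain ⟨hx, hy⟩ := hQ
  have aux : ∀ (t : ℝ) (z : ℤ), |t - z| ≤ h → (((z.natAbs - h : ℕ) : ℝ)) ^ 2 ≤ t ^ 2 := by
    intro t z ht
    have h1 : ((z.natAbs - h : ℕ) : ℝ) ≤ |t| := by
      rcases le_total z.natAbs h with h2 | h2
      · rw [Nat.sub_eq_zero_of_le h2]; simp
      · rw [Nat.cast_sub h2, Nat.cast_natAbs, Int.cast_abs]
        have := abs_sub_abs_le_abs_sub (z : ℝ) t
        rw [abs_sub_comm] at this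
        linarith
    calc (((z.natAbs - h : ℕ) : ℝ)) ^ 2 ≤ |t| ^ 2 := pow_le_pow_left₀ (by positivity) h1 2
      _ = t ^ 2 := sq_abs t
  have h1 := aux _ _ hx
  have h2 := aux _ _ hy
  have h3 : ((R * R : ℕ) : ℝ) < (((x.natAbs - h : ℕ) : ℝ)) ^ 2 + (((y.natAbs - h : ℕ) : ℝ)) ^ 2 := by
    rw [pow_two, pow_two]
    exact_mod_cast ho
  have h4 : (‖Q‖ * S) ^ 2 = (Q.re * S) ^ 2 + (Q.im * S) ^ 2 := by
    rw [mul_pow, ← Complex.normSq_eq_norm_sq, Complex.normSq_apply]; ring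
  have h5 : (R : ℝ) ^ 2 < (‖Q‖ * S) ^ 2 := by
    rw [h4]; push_cast at h3; linarith
  exact lt_of_pow_lt_pow_left₀ 2 (by positivity) h5

def ecap (md : Bool) (n : ℕ) : ℕ := if md then n * (n + 1) / 2 else n
def gcap (md : Bool) (n : ℕ) : ℕ := if md then n else 1

/-- the certificate of a square -/
def t1leaf (md : Bool) (Nm KN KD dl : ℕ) (cx cy : ℤ) (h : ℕ) (code : ℕ) : Bool :=
  fN (code % 64) fun N =>
  match acc (dec (code / 64 % 64) (code / 4096)) ⟨0, 0, 0, 0, 0, 0, 0⟩ with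
  | ⟨A, B, C, D, wx, wy, Lm⟩ =>
  fN (200 * (wx + wy)) fun ε =>
  fN (h * 14143 / 10000 + 1) fun rad =>
  fI cx fun cx => fI cy fun cy =>
  fN (nsq cx cy) fun qc =>
  fN (qc + rad + dl) fun q =>
  match mP (wx * S) (wy * S) (N + 3) A B C D, mM (wx * S) (wy * S) (N + 1) A B C D with
  | p0 :: p1 :: p2 :: ps, _ :: ms =>
    match Bm.mul ⟨cx, cy, rad, qc⟩ (bm p2.x p2.y ε (nsq p2.x p2.y)) with
    | ⟨c, _, cr, _⟩ =>
    fN (pwU q (gcap md N)) fun ρ =>
    match phiL ⟨cx, cy, rad, qc⟩ ε ⟨cx, cy, rad, qc⟩ ps ms with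
    | phi =>
    fN (costL (fun k => pwU q (ecap md (k + 1))) 0 phi +
      tailU (2 * Lm) (pwU q (ecap md N) * ρ / S + 1) ρ) fun cost =>
    decide (2 * S * (wx + wy) < W) && decide (ρ < S) && decide (phi.length = N) &&
      decide (N ≤ Nm) &&
      decide ((KN * Lm + KD * cost : ℤ) < KD * (p0.x + p1.x + c - cr - 2 * ε))
  | _, _ => false

/-- no function with the given data and bound `K` -/
def No1 (md : Bool) (Nm : ℕ) (K δ : ℝ) (Q : ℂ) : Prop :=
  ∀ w : ℕ → ℂ, (∀ N j, N ≤ Nm → ‖w (N + j)‖ ≤ (‖Q‖ + δ) ^ (ecap md N + gcap md N * j)) →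
    ¬ ∀ z : ℂ, ‖z‖ = 1 →
      ‖1 + z + Q * z ^ 2 + ∑' k : ℕ, w (k + 1) * ((z ^ (k + 1))⁻¹ + Q ^ (k + 2) * z ^ (k + 3))‖ ≤ K

theorem MomOK.shift {ε : ℕ} {f g : ℕ → ℂ} {l : List GI} (h : MomOK ε f l) (e : ∀ k, f k = g k) :
    MomOK ε g l := by
  have : f = g := funext e
  rwa [← this]

theorem re_of_in {a : ℤ} {b : ℤ} {r : ℝ} {z : ℂ} (h : ‖z * S - cv a b‖ ≤ r) :
    (a : ℝ) - r ≤ z.re * S := by
  have h1 := (Complex.abs_re_le_norm _).trans h
  have h2 : (z * (S : ℂ)).re = z.re * S := by simp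
  rw [sub_re, cv_re, h2, abs_le] at h1
  linarith [h1.1]

theorem lin_pow_le {L : List (ℂ × ℂ)} (hL : UC L) (k : ℕ) : ‖lin L (fun z => z ^ k)‖ ≤ wt L := by
  have := lin_bound L hL (fun z => z ^ k) 1 (fun z hz => by rw [norm_pow, hz, one_pow])
  rwa [one_mul] at this

theorem lin_inv_le {L : List (ℂ × ℂ)} (hL : UC L) (k : ℕ) :
    ‖lin L (fun z => (z ^ k)⁻¹)‖ ≤ wt L := by
  have := lin_bound L hL (fun z => (z ^ k)⁻¹) 1
    (fun z hz => by rw [norm_inv, norm_pow, hz, one_pow, inv_one])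
  rwa [one_mul] at this

theorem sq_ball {Q : ℂ} {cx cy : ℤ} {h : ℕ} (hQ : Sq Q cx cy h) :
    ‖Q * S - cv cx cy‖ ≤ ((h * 14143 / 10000 + 1 : ℕ) : ℝ) := by
  obtain ⟨hx, hy⟩ := hQ
  have h1 : ‖Q * S - cv cx cy‖ ^ 2 ≤ 2 * (h : ℝ) ^ 2 := by
    rw [← Complex.normSq_eq_norm_sq, Complex.normSq_apply, sub_re, sub_im, cv_re, cv_im]
    have e1 : (Q * (S : ℂ)).re = Q.re * S := by simp
    have e2 : (Q * (S : ℂ)).im = Q.im * S := by simp
    rw [e1, e2]
    have h3 := sq_le_sq' (abs_le.1 hx).1 (abs_le.1 hx).2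
    have h4 := sq_le_sq' (abs_le.1 hy).1 (abs_le.1 hy).2
    nlinarith
  have h2 : (h * 14143 : ℝ) / 10000 ≤ ((h * 14143 / 10000 + 1 : ℕ) : ℝ) := by
    rw [div_le_iff₀ (by norm_num)]
    have : h * 14143 ≤ (h * 14143 / 10000 + 1) * 10000 := by omega
    exact_mod_cast this
  have h3 : ‖Q * S - cv cx cy‖ ≤ (h * 14143 : ℝ) / 10000 := by
    refine (abs_le_of_sq_le_sq' ?_ (by positivity)).2
    refine h1.trans ?_
    nlinarith [sq_nonneg (h : ℝ)]
  linarith

theorem t1leaf_ok (md : Bool) (Nm KN KD dl : ℕ) (hNm : Nm ≤ 61) (hKD : 0 < KD) (δ : ℝ)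
    (hδ0 : 0 ≤ δ) (hδ : δ * S ≤ dl) (cx cy : ℤ) (h code : ℕ)
    (hc : t1leaf md Nm KN KD dl cx cy h code = true) (Q : ℂ) (hQ : Sq Q cx cy h) :
    No1 md Nm ((KN : ℝ) / KD) δ Q := by
  intro w hw hA
  have hS := S_posR
  simp only [t1leaf, fN_eq, fI_eq, bm_eq] at hc
  set s := acc (dec (code / 64 % 64) (code / 4096)) ⟨0, 0, 0, 0, 0, 0, 0⟩ with hs
  set N := code % 64 with hN
  rcases hse : s with ⟨A, B, C, D, wx, wy, Lm⟩
  rw [hse] at hc
  simp only at hc
  rcases hPe : mP (wx * S) (wy * S) (N + 3) A B C D with _ | ⟨p0, _ | ⟨p1, _ | ⟨p2, ps⟩⟩⟩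
  · rw [hPe] at hc; simp at hc
  · rw [hPe] at hc; simp at hc
  · rw [hPe] at hc; simp at hc
  rcases hMe : mM (wx * S) (wy * S) (N + 1) A B C D with _ | ⟨m0, ms⟩
  · rw [hPe, hMe] at hc; simp at hc
  rw [hPe, hMe] at hc
  simp only at hc
  set ε := 200 * (wx + wy) with hε
  set rad := h * 14143 / 10000 + 1 with hrad
  set qc := nsq cx cy with hqc
  set q := qc + rad + dl with hq
  rcases hce : Bm.mul ⟨cx, cy, rad, qc⟩ ⟨p2.x, p2.y, ε, nsq p2.x p2.y⟩ with ⟨c, c', cr, c''⟩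
  rw [hce] at hc
  simp only [Bool.and_eq_true, decide_eq_true_eq] at hc
  set ρ := pwU q (gcap md N) with hρd
  set phi := phiL ⟨cx, cy, rad, qc⟩ ε ⟨cx, cy, rad, qc⟩ ps ms with hphi
  set cost := costL (fun k => pwU q (ecap md (k + 1))) 0 phi +
      tailU (2 * Lm) (pwU q (ecap md N) * ρ / S + 1) ρ with hcost
  obtain ⟨⟨⟨⟨hb, hρ⟩, hlen⟩, hNm'⟩, hfin⟩ := hc
  -- the functional
  obtain ⟨L, gA, gB, gC, gD, hL⟩ := acc_ok (dec (code / 64 % 64) (code / 4096)) _ _ _ _ _ _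
    AcOK.zero (by rw [← hs, hse]; exact hb)
  rw [← hs, hse] at hL
  have hN64 : N + 3 ≤ 64 := by omega
  have hP := (mP_ok (N + 3) (hL.hA.mono _ hN64) (hL.hB.mono _ hN64) (hL.hC.mono _ hN64)
    (hL.hD.mono _ hN64)).shift (fun k => (hL.hP k).symm)
  have hN64' : N + 1 ≤ 64 := by omega
  have hM := (mM_ok (N + 1) (hL.hA.mono _ hN64') (hL.hB.mono _ hN64') (hL.hC.mono _ hN64')
    (hL.hD.mono _ hN64')).shift (fun k => (hL.hM k).symm)
  simp only at hP hM
  rw [hPe] at hP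
  rw [hMe] at hM
  obtain ⟨hp0, hp1, hp2, hps⟩ := hP
  obtain ⟨-, hms⟩ := hM
  simp only [zero_add] at hp0 hp1 hp2
  have hQI : (⟨cx, cy, rad, qc⟩ : Bm).In Q := ⟨sq_ball hQ, norm_cv_le_nsq cx cy⟩
  have hphiOK := phiL_ok hQI ε ps ms _ Q _ _ hQI hps hms
  rw [← hphi] at hphiOK
  set Φ : ℕ → ℂ := fun k => lin L (fun z => (z ^ (k + 1))⁻¹) +
    Q ^ (k + 2) * lin L (fun z => z ^ (k + 3)) with hΦ
  have hub : UbOK (fun k => ‖Φ k‖) phi := by
    have e : (fun k => ‖Φ k‖) = fun k => ‖lin L (fun z => (z ^ (k + 1))⁻¹) +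
        Q * Q ^ (k + 1) * lin L (fun z => z ^ (k + 1 + 1 + 1))‖ := by
      funext k
      rw [hΦ]
      simp only
      rw [show k + 1 + 1 + 1 = k + 3 by ring]
      congr 2
      ring
    rw [e]
    exact hphiOK
  -- real quantities
  set qr : ℝ := ‖Q‖ + δ with hqr
  have hqr0 : 0 ≤ qr := by positivity
  have hqrS : qr * S ≤ q := by
    have h1 : ‖Q‖ * S ≤ qc + rad := by
      calc ‖Q‖ * S = ‖Q * S‖ := by rw [norm_mul]; simp
        _ = ‖cv cx cy + (Q * S - cv cx cy)‖ := by congr 1; ring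
        _ ≤ _ := norm_add_le _ _
        _ ≤ _ := add_le_add hQI.2 hQI.1
    rw [hq, hqr]
    push_cast
    linarith
  have hpw := pwU_spec q qr hqr0 hqrS
  set r : ℝ := qr ^ gcap md N with hr
  have hr0 : 0 ≤ r := by positivity
  have hrρ : r * S ≤ ρ := hpw _
  have hρR : (ρ : ℝ) < S := by exact_mod_cast hρ
  have hr1 : r < 1 := by
    by_contra hcon
    push Not at hcon
    nlinarith
  have hqr1 : qr < 1 := by
    by_contra hcon
    push Not at hcon
    have := one_le_pow₀ hcon (n := gcap md N)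
    linarith
  have hQ1 : ‖Q‖ ≤ 1 := by linarith
  set C : ℝ := qr ^ ecap md N * r with hC
  have hC0 : 0 ≤ C := by positivity
  have hCS : C * S ≤ ((pwU q (ecap md N) * ρ / S + 1 : ℕ) : ℝ) := by
    have h1 := Bl.nat_div_err (pwU q (ecap md N) * ρ)
    have h2 : C * S ≤ ((pwU q (ecap md N) * ρ : ℕ) : ℝ) / S := by
      rw [le_div_iff₀ hS]
      push_cast
      calc C * S * S = (qr ^ ecap md N * S) * (r * S) := by rw [hC]; ring
        _ ≤ _ := mul_le_mul (hpw _) hrρ (by positivity) (by positivity)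
    push_cast at *
    linarith
  have hwt : ∀ j, ‖w (N + j + 1)‖ ≤ C * r ^ j := by
    intro j
    have h1 := hw N (j + 1) hNm'
    rw [← add_assoc] at h1
    refine h1.trans (le_of_eq ?_)
    rw [hC, hr, ← pow_mul, mul_assoc, ← pow_add, ← pow_add]
    congr 1
    ring
  have hws : Summable (fun k => ‖w (k + 1)‖) := by
    rw [← summable_nat_add_iff N]
    refine Summable.of_nonneg_of_le (fun _ => norm_nonneg _) (fun j => ?_)
      ((summable_geometric_of_lt_one hr0 hr1).mul_left C)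
    have := hwt j
    rwa [show j + N + 1 = N + j + 1 by ring]
  have hhs : ∀ z : ℂ, ‖z‖ = 1 → HasSum (fun k => w (k + 1) * (fun (k : ℕ) (z : ℂ) =>
      (z ^ (k + 1))⁻¹ + Q ^ (k + 2) * z ^ (k + 3)) k z)
      (∑' k : ℕ, w (k + 1) * ((z ^ (k + 1))⁻¹ + Q ^ (k + 2) * z ^ (k + 3))) := by
    intro z hz
    apply Summable.hasSum
    refine Summable.of_norm_bounded (g := fun k => ‖w (k + 1)‖ * 2) (hws.mul_right 2) ?_
    intro k
    rw [norm_mul]
    refine mul_le_mul_of_nonneg_left ?_ (norm_nonneg _)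
    refine (norm_add_le _ _).trans ?_
    rw [norm_inv, norm_pow, hz, norm_mul, norm_pow, norm_pow, hz, one_pow, one_pow, inv_one,
      mul_one]
    have := pow_le_one₀ (norm_nonneg Q) hQ1 (n := k + 2)
    linarith
  have hV := lin_hasSum L hL.uc _ _ _ hhs
  set V := lin L (fun z => ∑' k : ℕ, w (k + 1) * ((z ^ (k + 1))⁻¹ + Q ^ (k + 2) * z ^ (k + 3)))
    with hVd
  have hV' : HasSum (fun k => w (k + 1) * Φ k) V := by
    refine hV.congr_fun ?_
    intro k
    rw [hΦ]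
    simp only
    rw [lin_add, lin_mul]
  have hwt0 := wt_nonneg L
  have htot := tot (fun k => w (k + 1)) Φ (fun k => qr ^ ecap md (k + 1)) V hV' N (2 * wt L) C r
    (fun k hk => by
      have := hw (k + 1) 0 (by omega)
      simpa using this)
    (fun j => by
      rw [hΦ]
      simp only
      refine (norm_add_le _ _).trans ?_
      rw [norm_mul, norm_pow]
      have h1 := lin_inv_le hL.uc (N + j + 1)
      have h2 := lin_pow_le hL.uc (N + j + 3)
      have h3 := pow_le_one₀ (norm_nonneg Q) hQ1 (n := N + j + 2)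
      have h4 := mul_le_mul h3 h2 (norm_nonneg _) zero_le_one
      linarith)
    hwt hr0 hr1 hC0
  have hcostL := costL_ok (fun k => pwU q (ecap md (k + 1))) phi 0 (fun k => ‖Φ k‖)
    (fun k => qr ^ ecap md (k + 1)) hub
    (fun k _ => ⟨by positivity, by rw [zero_add]; exact hpw _⟩) (fun k => norm_nonneg _)
  rw [hlen] at hcostL
  have htail := tailU_ok (2 * Lm) (pwU q (ecap md N) * ρ / S + 1) ρ (2 * wt L) C r
    (by positivity) hC0 (by
      have := hL.hl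
      push_cast
      linarith) hCS hrρ hρ
  have hVS : ‖V‖ * S ≤ cost := by
    calc ‖V‖ * S ≤ (∑ k ∈ Finset.range N, qr ^ ecap md (k + 1) * ‖Φ k‖ +
          2 * wt L * C / (1 - r)) * S := mul_le_mul_of_nonneg_right htot hS.le
      _ = (∑ k ∈ Finset.range N, qr ^ ecap md (k + 1) * ‖Φ k‖) * S +
          2 * wt L * C / (1 - r) * S := by ring
      _ ≤ _ := add_le_add hcostL htail
      _ = _ := by rw [hcost]; push_cast; ring
  have hlin : lin L (fun z => 1 + z + Q * z ^ 2 +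
      ∑' k : ℕ, w (k + 1) * ((z ^ (k + 1))⁻¹ + Q ^ (k + 2) * z ^ (k + 3))) =
      lin L (fun z => z ^ 0) + lin L (fun z => z ^ 1) + Q * lin L (fun z => z ^ 2) + V := by
    rw [lin_add, lin_add, lin_add, lin_mul, hVd]
    simp only [pow_zero, pow_one]
  have hbd := lin_bound L hL.uc _ _ hA
  rw [hlin] at hbd
  have hc2 := (Bm.In.mul hQI (b := ⟨p2.x, p2.y, ε, nsq p2.x p2.y⟩) (w := lin L (fun z => z ^ 2))
    ⟨by rw [mul_comm]; exact hp2, norm_cv_le_nsq _ _⟩)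
  rw [hce] at hc2
  have k0 := re_of_in (r := ε) (z := lin L (fun z => z ^ 0)) (by rw [mul_comm]; exact hp0)
  have k1 := re_of_in (r := ε) (z := lin L (fun z => z ^ 1)) (by rw [mul_comm]; exact hp1)
  have k2 := re_of_in hc2.1
  simp only at k2
  have hre : (lin L (fun z => z ^ 0)).re + (lin L (fun z => z ^ 1)).re +
      (Q * lin L (fun z => z ^ 2)).re ≤ (KN : ℝ) / KD * wt L + ‖V‖ := by
    have h1 := Complex.re_le_norm (lin L (fun z => z ^ 0) + lin L (fun z => z ^ 1) +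
      Q * lin L (fun z => z ^ 2))
    have h2 : lin L (fun z => z ^ 0) + lin L (fun z => z ^ 1) +
      Q * lin L (fun z => z ^ 2) = (lin L (fun z => z ^ 0) + lin L (fun z => z ^ 1) +
      Q * lin L (fun z => z ^ 2) + V) - V := by ring
    rw [h2] at h1
    have h3 := h1.trans (norm_sub_le _ _)
    simp only [add_sub_cancel_right, add_re] at h3
    linarith
  have hKDR : (0 : ℝ) < KD := by exact_mod_cast hKD
  have hfinR : (KN * Lm + KD * cost : ℝ) < KD * (p0.x + p1.x + c - cr - 2 * ε) := by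
    exact_mod_cast hfin
  have h5 : (KD : ℝ) * (((lin L (fun z => z ^ 0)).re + (lin L (fun z => z ^ 1)).re +
      (Q * lin L (fun z => z ^ 2)).re) * S) ≤ KN * Lm + KD * cost := by
    calc (KD : ℝ) * (((lin L (fun z => z ^ 0)).re + (lin L (fun z => z ^ 1)).re +
        (Q * lin L (fun z => z ^ 2)).re) * S)
        ≤ KD * (((KN : ℝ) / KD * wt L + ‖V‖) * S) := by
          apply mul_le_mul_of_nonneg_left _ hKDR.le
          exact mul_le_mul_of_nonneg_right hre hS.le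
      _ = KN * (wt L * S) + KD * (‖V‖ * S) := by field_simp
      _ ≤ _ := add_le_add (mul_le_mul_of_nonneg_left hL.hl (by positivity))
          (mul_le_mul_of_nonneg_left hVS hKDR.le)
  have h6 : (KD : ℝ) * (p0.x + p1.x + c - cr - 2 * ε) ≤
      KD * (((lin L (fun z => z ^ 0)).re + (lin L (fun z => z ^ 1)).re +
      (Q * lin L (fun z => z ^ 2)).re) * S) := by
    apply mul_le_mul_of_nonneg_left _ hKDR.le
    linarith
  linarith

end Run7.h281
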