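import Pool.Agent.Run7.h281.T1
set_option autoImplicit false

/-! Certificate checker for a vertex with gaps `e` and `2 e`. -/

namespace Run7.h281

open Complex

/-- bound of a functional -/
theorem part (w Φ : ℕ → ℂ) (s : ℕ → ℝ) (cap : ℕ → ℕ) (phi : List ℕ) (N : ℕ)
    (hlen : phi.length = N) (hub : UbOK (fun k => ‖Φ k‖) phi) (hw : ∀ k < N, ‖w k‖ ≤ s k)
    (hcap : ∀ k < N, s k * S ≤ cap k) (V : ℂ) (hV : HasSum (fun k => w k * Φ k) V) (g : ℕ → ℝ)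
    (G B : ℝ) (hg : HasSum g G) (hgt : ∀ j, ‖w (N + j)‖ ≤ g j) (hB : ∀ j, ‖Φ (N + j)‖ ≤ B)
    (T : ℕ) (hT : B * G * S ≤ T) : ‖V‖ * S ≤ ((costL cap 0 phi + T : ℕ) : ℝ) := by
  have hS := S_posR
  have hb : HasSum (fun k : ℕ => if k < N then s k * ‖Φ k‖ else B * g (k - N))
      (∑ k ∈ Finset.range N, s k * ‖Φ k‖ + B * G) := by
    have h1 := (hasSum_nat_add_iff (f := fun k : ℕ => if k < N then s k * ‖Φ k‖ else
      B * g (k - N)) N (g := B * G)).1 (by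
        refine (hg.mul_left B).congr_fun ?_
        intro j
        simp)
    have h2 : ∑ k ∈ Finset.range N, (if k < N then s k * ‖Φ k‖ else B * g (k - N)) =
        ∑ k ∈ Finset.range N, s k * ‖Φ k‖ :=
      Finset.sum_congr rfl fun k hk => by rw [if_pos (Finset.mem_range.1 hk)]
    rw [h2] at h1
    rwa [add_comm]
  have h3 : ‖V‖ ≤ ∑ k ∈ Finset.range N, s k * ‖Φ k‖ + B * G := by
    refine hV.norm_le_of_bounded hb ?_
    intro k
    by_cases hk : k < N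
    · rw [if_pos hk, norm_mul]
      exact mul_le_mul_of_nonneg_right (hw k hk) (norm_nonneg _)
    · rw [if_neg hk, norm_mul]
      obtain ⟨j, rfl⟩ : ∃ j, k = N + j := ⟨k - N, by omega⟩
      rw [Nat.add_sub_cancel_left, mul_comm]
      exact mul_le_mul (hB j) (hgt j) (norm_nonneg _) ((norm_nonneg _).trans (hB j))
  have h4 := costL_ok cap phi 0 (fun k => ‖Φ k‖) s hub (fun k hk => by
    rw [hlen] at hk
    rw [zero_add]
    exact ⟨(norm_nonneg _).trans (hw k hk), hcap k hk⟩) (fun k => norm_nonneg _)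
  rw [hlen] at h4
  calc ‖V‖ * S ≤ (∑ k ∈ Finset.range N, s k * ‖Φ k‖ + B * G) * S :=
        mul_le_mul_of_nonneg_right h3 hS.le
    _ = (∑ k ∈ Finset.range N, s k * ‖Φ k‖) * S + B * G * S := by ring
    _ ≤ _ := add_le_add h4 hT
    _ = _ := by push_cast; ring

theorem MomOK.mono {ε ε' : ℕ} (h : ε ≤ ε') : ∀ {l : List GI} {f : ℕ → ℂ}, MomOK ε f l →
    MomOK ε' f l := by
  intro l
  induction l with
  | nil => intro f _; trivial
  | cons g t ih =>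
    intro f hf
    have : (ε : ℝ) ≤ ε' := by exact_mod_cast h
    exact ⟨hf.1.trans this, ih hf.2⟩

theorem mul_S_div (x y : ℝ) (a b : ℕ) (hy : 0 ≤ y) (hx : x * S ≤ a) (hy' : y * S ≤ b) :
    x * y * S ≤ ((a * b / S + 1 : ℕ) : ℝ) := by
  have hS := S_posR
  have h1 := Bl.nat_div_err (a * b)
  have h2 : x * y * S ≤ ((a * b : ℕ) : ℝ) / S := by
    rw [le_div_iff₀ hS]
    push_cast
    calc x * y * S * S = (x * S) * (y * S) := by ring
      _ ≤ _ := mul_le_mul hx hy' (by positivity) (by positivity)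
  push_cast at *
  linarith

/-- the certificate of a square -/
def t2leaf (KN KD dl : ℕ) (cx cy : ℤ) (h : ℕ) (code : ℕ) : Bool :=
  fN (code % 64) fun m => fN (code / 64 % 64) fun N2 => fN (code / 4096 % 64) fun nS =>
  fN (code / 262144 % 64) fun nB => fN (code / 16777216) fun cc =>
  match acc (dec nS cc) ⟨0, 0, 0, 0, 0, 0, 0⟩ with
  | ⟨A, B, C, D, wx, wy, LS⟩ =>
  match acc (dec nB (cc / 2 ^ (40 * nS))) ⟨0, 0, 0, 0, 0, 0, 0⟩ with
  | ⟨A', B', C', D', wx', wy', LB⟩ =>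
  fN (200 * (wx + wy) + 200 * (wx' + wy')) fun ε =>
  fN (h * 14143 / 10000 + 1) fun rad =>
  fI cx fun cx => fI cy fun cy =>
  fN (nsq cx cy) fun qc =>
  fN (qc + rad + dl) fun q =>
  match mP (wx * S) (wy * S) (2 * m + 3) A B C D, mP (wx' * S) (wy' * S) (2 * m + 2) A' B' C' D',
    mM (wx * S) (wy * S) (N2 + 1) A B C D, mM (wx' * S) (wy' * S) (N2 + 2) A' B' C' D' with
  | s0 :: s1 :: s2 :: s3 :: ss, b0 :: b1 :: b2 :: bs, _ :: ms, _ :: n1 :: mb =>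
    match Bm.mul (Bm.mul ⟨cx, cy, rad, qc⟩ ⟨cx, cy, rad, qc⟩) (bm s3.x s3.y ε (nsq s3.x s3.y)) with
    | ⟨c1, _, r1, _⟩ =>
    match Bm.mul ⟨cx, cy, rad, qc⟩ (bm n1.x n1.y ε (nsq n1.x n1.y)) with
    | ⟨c2, _, r2, _⟩ =>
    match phiL ⟨cx, cy, rad, qc⟩ ε ⟨(S : ℤ), 0, 0, S⟩ (s2 :: s3 :: ss) (b1 :: b2 :: bs) with
    | phi1 =>
    match phiL ⟨cx, cy, rad, qc⟩ ε ⟨cx, cy, rad, qc⟩ mb ms with
    | phi2 =>
    fN (costL (fun k => if k = 0 then S else if k = 1 then 0 else pwU q ((k - 1) / 2)) 0 phi1 +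
      tailU (pwU q (2 * m + 2) * LS / S + 1 + LB) (2 * pwU q m) q) fun cost1 =>
    fN (costL (fun k => pwU q (k + 1)) 0 phi2 +
      tailU (LS + (pwU q (N2 + 2) * LB / S + 1)) (pwU q (N2 + 1)) q) fun cost2 =>
    decide (2 * S * (wx + wy) < W) && decide (2 * S * (wx' + wy') < W) && decide (q < S) &&
      decide (phi1.length = 2 * m + 1) && decide (phi2.length = N2) &&
      decide (2 * m + 3 ≤ 64) && decide (N2 + 2 ≤ 64) &&
      decide ((KN * (LS + LB) + KD * (cost1 + cost2) : ℤ) <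
        KD * (s0.x + s1.x + b0.x + b2.x + c1 + c2 - r1 - r2 - 4 * ε))
  | _, _, _, _ => false

/-- value at the small circle -/
noncomputable def TS2 (X : ℂ) (β l : ℕ → ℂ) (w : ℂ) : ℂ :=
  1 + w + X ^ 2 * w ^ 3 + ∑' k : ℕ, β k * (X ^ (k + 1) * w ^ (k + 2)) +
    ∑' k : ℕ, l k * (w ^ (k + 1))⁻¹

/-- value at the large circle -/
noncomputable def TB2 (X : ℂ) (β l : ℕ → ℂ) (w : ℂ) : ℂ :=
  X * (w ^ 1)⁻¹ + 1 + w ^ 2 + ∑' k : ℕ, β k * w ^ (k + 1) +
    ∑' k : ℕ, l k * (X ^ (k + 2) * (w ^ (k + 2))⁻¹)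

/-- caps -/
def Cap2 (q : ℝ) (β l : ℕ → ℂ) : Prop :=
  ‖β 0‖ ≤ 1 ∧ β 1 = 0 ∧ (∀ j t, 2 * j ≤ t → ‖β (t + 1)‖ ≤ q ^ j) ∧ ∀ k, ‖l k‖ ≤ q ^ (k + 1)

def No2 (K δ : ℝ) (X : ℂ) : Prop := ∀ β l : ℕ → ℂ, Cap2 (‖X‖ + δ) β l →
  ¬ ((∀ w : ℂ, ‖w‖ = 1 → ‖TS2 X β l w‖ ≤ K) ∧ ∀ w : ℂ, ‖w‖ = 1 → ‖TB2 X β l w‖ ≤ K)

theorem hasSum_pairs (q : ℝ) (hq0 : 0 ≤ q) (hq1 : q < 1) (m : ℕ) :
    HasSum (fun j : ℕ => q ^ (m + j / 2)) (2 * q ^ m / (1 - q)) := by
  have h1 := (hasSum_geometric_of_lt_one hq0 hq1).mul_left (q ^ m)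
  have h2 : HasSum (fun k : ℕ => q ^ (m + (2 * k) / 2)) (q ^ m * (1 - q)⁻¹) := by
    refine h1.congr_fun ?_
    intro k
    rw [Nat.mul_div_cancel_left k (by norm_num), pow_add]
  have h3 : HasSum (fun k : ℕ => q ^ (m + (2 * k + 1) / 2)) (q ^ m * (1 - q)⁻¹) := by
    refine h1.congr_fun ?_
    intro k
    rw [show (2 * k + 1) / 2 = k by omega, pow_add]
  have h4 := HasSum.even_add_odd (f := fun j : ℕ => q ^ (m + j / 2)) h2 h3
  convert h4 using 1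
  rw [div_eq_mul_inv]
  ring

theorem t2leaf_ok (KN KD dl : ℕ) (hKD : 0 < KD) (δ : ℝ)
    (hδ0 : 0 ≤ δ) (hδ : δ * S ≤ dl) (cx cy : ℤ) (h code : ℕ)
    (hc : t2leaf KN KD dl cx cy h code = true) (X : ℂ) (hX : Sq X cx cy h) :
    No2 ((KN : ℝ) / KD) δ X := by
  rintro β l ⟨hβ0, hβ1, hβ, hl⟩ ⟨hTS, hTB⟩
  have hS := S_posR
  simp only [t2leaf, fN_eq, fI_eq, bm_eq] at hc
  set m := code % 64 with hm
  set N2 := code / 64 % 64 with hN2
  set cc := code / 16777216 with hcc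
  set s := acc (dec (code / 4096 % 64) cc) ⟨0, 0, 0, 0, 0, 0, 0⟩ with hs
  set s' := acc (dec (code / 262144 % 64) (cc / 2 ^ (40 * (code / 4096 % 64))))
    ⟨0, 0, 0, 0, 0, 0, 0⟩ with hs'
  rcases hse : s with ⟨A, B, C, D, wx, wy, LS⟩
  rcases hse' : s' with ⟨A', B', C', D', wx', wy', LB⟩
  rw [hse, hse'] at hc
  simp only at hc
  rcases hPSe : mP (wx * S) (wy * S) (2 * m + 3) A B C D with
    _ | ⟨s0, _ | ⟨s1, _ | ⟨s2, _ | ⟨s3, ss⟩⟩⟩⟩
  · rw [hPSe] at hc; simp at hc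
  · rw [hPSe] at hc; simp at hc
  · rw [hPSe] at hc; simp at hc
  · rw [hPSe] at hc; simp at hc
  rcases hPBe : mP (wx' * S) (wy' * S) (2 * m + 2) A' B' C' D' with
    _ | ⟨b0, _ | ⟨b1, _ | ⟨b2, bs⟩⟩⟩
  · rw [hPSe, hPBe] at hc; simp at hc
  · rw [hPSe, hPBe] at hc; simp at hc
  · rw [hPSe, hPBe] at hc; simp at hc
  rcases hMSe : mM (wx * S) (wy * S) (N2 + 1) A B C D with _ | ⟨m0, ms⟩
  · rw [hPSe, hPBe, hMSe] at hc; simp at hc
  rcases hMBe : mM (wx' * S) (wy' * S) (N2 + 2) A' B' C' D' with _ | ⟨n0, _ | ⟨n1, mb⟩⟩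
  · rw [hPSe, hPBe, hMSe, hMBe] at hc; simp at hc
  · rw [hPSe, hPBe, hMSe, hMBe] at hc; simp at hc
  rw [hPSe, hPBe, hMSe, hMBe] at hc
  simp only at hc
  set ε := 200 * (wx + wy) + 200 * (wx' + wy') with hε
  set rad := h * 14143 / 10000 + 1 with hrad
  set qc := nsq cx cy with hqc
  set q := qc + rad + dl with hq
  rcases hce1 : Bm.mul (Bm.mul ⟨cx, cy, rad, qc⟩ ⟨cx, cy, rad, qc⟩)
    ⟨s3.x, s3.y, ε, nsq s3.x s3.y⟩ with ⟨c1, c1', r1, c1''⟩
  rcases hce2 : Bm.mul ⟨cx, cy, rad, qc⟩ ⟨n1.x, n1.y, ε, nsq n1.x n1.y⟩ with ⟨c2, c2', r2, c2''⟩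
  rw [hce1, hce2] at hc
  simp only [Bool.and_eq_true, decide_eq_true_eq] at hc
  set phi1 := phiL ⟨cx, cy, rad, qc⟩ ε ⟨(S : ℤ), 0, 0, S⟩ (s2 :: s3 :: ss) (b1 :: b2 :: bs)
    with hphi1
  set phi2 := phiL ⟨cx, cy, rad, qc⟩ ε ⟨cx, cy, rad, qc⟩ mb ms with hphi2
  set T1' := tailU (pwU q (2 * m + 2) * LS / S + 1 + LB) (2 * pwU q m) q with hT1
  set T2' := tailU (LS + (pwU q (N2 + 2) * LB / S + 1)) (pwU q (N2 + 1)) q with hT2
  set cost1 := costL (fun k => if k = 0 then S else if k = 1 then 0 else pwU q ((k - 1) / 2))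
    0 phi1 + T1' with hcost1
  set cost2 := costL (fun k => pwU q (k + 1)) 0 phi2 + T2' with hcost2
  obtain ⟨⟨⟨⟨⟨⟨⟨hb, hb'⟩, hqS⟩, hlen1⟩, hlen2⟩, hm64⟩, hN64⟩, hfin⟩ := hc
  -- the functionals
  obtain ⟨L, gA, gB, gC, gD, hL⟩ := acc_ok (dec (code / 4096 % 64) cc) _ _ _ _ _ _
    AcOK.zero (by rw [← hs, hse]; exact hb)
  rw [← hs, hse] at hL
  obtain ⟨L', gA', gB', gC', gD', hL'⟩ := acc_ok (dec (code / 262144 % 64)
    (cc / 2 ^ (40 * (code / 4096 % 64)))) _ _ _ _ _ _ AcOK.zero (by rw [← hs', hse']; exact hb')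
  rw [← hs', hse'] at hL'
  have hPS := ((mP_ok (2 * m + 3) (hL.hA.mono _ hm64) (hL.hB.mono _ hm64) (hL.hC.mono _ hm64)
    (hL.hD.mono _ hm64)).shift (fun k => (hL.hP k).symm)).mono (ε' := ε)
    (by show 200 * (wx + wy) ≤ ε; omega)
  have hm64' : 2 * m + 2 ≤ 64 := by omega
  have hPB := ((mP_ok (2 * m + 2) (hL'.hA.mono _ hm64') (hL'.hB.mono _ hm64')
    (hL'.hC.mono _ hm64') (hL'.hD.mono _ hm64')).shift (fun k => (hL'.hP k).symm)).mono
    (ε' := ε) (by show 200 * (wx' + wy') ≤ ε; omega)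
  have hN64' : N2 + 1 ≤ 64 := by omega
  have hMS := ((mM_ok (N2 + 1) (hL.hA.mono _ hN64') (hL.hB.mono _ hN64') (hL.hC.mono _ hN64')
    (hL.hD.mono _ hN64')).shift (fun k => (hL.hM k).symm)).mono (ε' := ε)
    (by show 200 * (wx + wy) ≤ ε; omega)
  have hMB := ((mM_ok (N2 + 2) (hL'.hA.mono _ hN64) (hL'.hB.mono _ hN64) (hL'.hC.mono _ hN64)
    (hL'.hD.mono _ hN64)).shift (fun k => (hL'.hM k).symm)).mono (ε' := ε)
    (by show 200 * (wx' + wy') ≤ ε; omega)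
  simp only at hPS hPB hMS hMB
  rw [hPSe] at hPS
  rw [hPBe] at hPB
  rw [hMSe] at hMS
  rw [hMBe] at hMB
  obtain ⟨hs0, hs1, hss⟩ := hPS
  have hs3 := hss.2.1
  obtain ⟨hb0, hbb⟩ := hPB
  have hb2 := hbb.2.1
  obtain ⟨-, hms⟩ := hMS
  obtain ⟨-, hn1, hmb⟩ := hMB
  simp only [zero_add, Nat.reduceAdd] at hs0 hs1 hs3 hb0 hb2 hn1
  have hXI : (⟨cx, cy, rad, qc⟩ : Bm).In X := ⟨sq_ball hX, norm_cv_le_nsq cx cy⟩
  have h1I : (⟨(S : ℤ), 0, 0, S⟩ : Bm).In 1 := by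
    refine ⟨?_, ?_⟩
    · simp [cv]
    · simp [cv]
  have hp1 := phiL_ok hXI ε (s2 :: s3 :: ss) (b1 :: b2 :: bs) _ 1 _ _ h1I hss hbb
  have hp2 := phiL_ok hXI ε mb ms _ X _ _ hXI hmb hms
  rw [← hphi1] at hp1
  rw [← hphi2] at hp2
  set Φ1 : ℕ → ℂ := fun k => lin L' (fun z => z ^ (k + 1)) +
    X ^ (k + 1) * lin L (fun z => z ^ (k + 2)) with hΦ1
  set Φ2 : ℕ → ℂ := fun k => lin L (fun z => (z ^ (k + 1))⁻¹) +
    X ^ (k + 2) * lin L' (fun z => (z ^ (k + 2))⁻¹) with hΦ2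
  have hub1 : UbOK (fun k => ‖Φ1 k‖) phi1 := by
    have e : (fun k => ‖Φ1 k‖) = fun k => ‖lin L' (fun z => z ^ (k + 1)) +
        1 * X ^ (k + 1) * lin L (fun z => z ^ (k + 1 + 1))‖ := by
      funext k
      rw [hΦ1]
      simp only
      rw [one_mul]
    rw [e]
    exact hp1
  have hub2 : UbOK (fun k => ‖Φ2 k‖) phi2 := by
    have e : (fun k => ‖Φ2 k‖) = fun k => ‖lin L (fun z => (z ^ (k + 1))⁻¹) +
        X * X ^ (k + 1) * lin L' (fun z => (z ^ (k + 1 + 1))⁻¹)‖ := by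
      funext k
      rw [hΦ2]
      simp only
      rw [show k + 1 + 1 = k + 2 by ring]
      congr 2
      ring
    rw [e]
    exact hp2
  -- real quantities
  set qr : ℝ := ‖X‖ + δ with hqr
  have hqr0 : 0 ≤ qr := by positivity
  have hqrS : qr * S ≤ q := by
    have h1 : ‖X‖ * S ≤ qc + rad := by
      calc ‖X‖ * S = ‖X * S‖ := by rw [norm_mul]; simp
        _ = ‖cv cx cy + (X * S - cv cx cy)‖ := by congr 1; ring
        _ ≤ _ := norm_add_le _ _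
        _ ≤ _ := add_le_add hXI.2 hXI.1
    rw [hq, hqr]
    push_cast
    linarith
  have hpw := pwU_spec q qr hqr0 hqrS
  have hqR : (q : ℝ) < S := by exact_mod_cast hqS
  have hqr1 : qr < 1 := by
    by_contra hcon
    push Not at hcon
    nlinarith
  have hX1 : ‖X‖ ≤ 1 := by linarith
  have hXq : ∀ n, ‖X‖ ^ n ≤ qr ^ n := fun n => pow_le_pow_left₀ (norm_nonneg _) (by linarith) n
  have hwt0 := wt_nonneg L
  have hwt0' := wt_nonneg L'
  -- summability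
  have hβs : Summable (fun k => ‖β k‖) := by
    rw [← summable_nat_add_iff 1]
    refine Summable.of_nonneg_of_le (fun _ => norm_nonneg _) (fun j => ?_)
      (hasSum_pairs qr hqr0 hqr1 0).summable
    rw [zero_add]
    exact hβ (j / 2) j (by omega)
  have hls : Summable (fun k => ‖l k‖) := by
    refine Summable.of_nonneg_of_le (fun _ => norm_nonneg _) (fun j => ?_)
      ((summable_geometric_of_lt_one hqr0 hqr1).mul_left qr)
    have := hl j
    rwa [pow_succ, mul_comm] at this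
  have sumaux : ∀ (c : ℕ → ℂ) (f : ℕ → ℂ → ℂ), Summable (fun k => ‖c k‖) →
      (∀ k z, ‖z‖ = 1 → ‖f k z‖ ≤ 1) → ∀ z : ℂ, ‖z‖ = 1 →
      HasSum (fun k => c k * f k z) (∑' k, c k * f k z) := by
    intro c f hcs hf z hz
    apply Summable.hasSum
    refine Summable.of_norm_bounded hcs ?_
    intro k
    rw [norm_mul]
    exact mul_le_of_le_one_right (norm_nonneg _) (hf k z hz)
  have n1' : ∀ (k : ℕ) (z : ℂ), ‖z‖ = 1 → ‖z ^ k‖ ≤ 1 := by
    intro k z hz; rw [norm_pow, hz, one_pow]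
  have n2' : ∀ (k : ℕ) (z : ℂ), ‖z‖ = 1 → ‖(z ^ k)⁻¹‖ ≤ 1 := by
    intro k z hz; rw [norm_inv, norm_pow, hz, one_pow, inv_one]
  have nX : ∀ k : ℕ, ‖X ^ k‖ ≤ 1 := by
    intro k; rw [norm_pow]; exact pow_le_one₀ (norm_nonneg _) hX1
  have hA1 := lin_hasSum L hL.uc _ _ _ (sumaux β (fun k z => X ^ (k + 1) * z ^ (k + 2)) hβs
    (fun k z hz => by
      rw [norm_mul]; exact mul_le_one₀ (nX _) (norm_nonneg _) (n1' _ z hz)))
  have hA2 := lin_hasSum L hL.uc _ _ _ (sumaux l (fun k z => (z ^ (k + 1))⁻¹) hls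
    (fun k z hz => n2' _ z hz))
  have hA3 := lin_hasSum L' hL'.uc _ _ _ (sumaux β (fun k z => z ^ (k + 1)) hβs
    (fun k z hz => n1' _ z hz))
  have hA4 := lin_hasSum L' hL'.uc _ _ _ (sumaux l (fun k z => X ^ (k + 2) * (z ^ (k + 2))⁻¹) hls
    (fun k z hz => by
      rw [norm_mul]; exact mul_le_one₀ (nX _) (norm_nonneg _) (n2' _ z hz)))
  set V1 := lin L (fun z => ∑' k : ℕ, β k * (X ^ (k + 1) * z ^ (k + 2))) with hV1
  set V2 := lin L (fun z => ∑' k : ℕ, l k * (z ^ (k + 1))⁻¹) with hV2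
  set V3 := lin L' (fun z => ∑' k : ℕ, β k * z ^ (k + 1)) with hV3
  set V4 := lin L' (fun z => ∑' k : ℕ, l k * (X ^ (k + 2) * (z ^ (k + 2))⁻¹)) with hV4
  have hVβ : HasSum (fun k => β k * Φ1 k) (V3 + V1) := by
    refine (hA3.add hA1).congr_fun ?_
    intro k
    rw [hΦ1]
    simp only
    rw [lin_mul, mul_add]
  have hVl : HasSum (fun k => l k * Φ2 k) (V2 + V4) := by
    refine (hA2.add hA4).congr_fun ?_
    intro k
    rw [hΦ2]
    simp only
    rw [lin_mul, mul_add]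
  -- costs
  have hC1 : ‖V3 + V1‖ * S ≤ (cost1 : ℝ) := by
    refine part β Φ1 (fun k => if k = 0 then 1 else if k = 1 then 0 else qr ^ ((k - 1) / 2)) _
      phi1 (2 * m + 1) hlen1 hub1 ?_ ?_ _ hVβ _ _ (qr ^ (2 * m + 2) * wt L + wt L')
      (hasSum_pairs qr hqr0 hqr1 m) ?_ ?_ T1' ?_
    · intro k hk
      rcases k with _ | _ | k
      · simpa using hβ0
      · simp [hβ1]
      · simp only [Nat.add_eq_zero_iff, one_ne_zero, and_false, if_false, Nat.add_sub_cancel]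
        rw [if_neg (by omega)]
        exact hβ _ _ (by omega)
    · intro k hk
      rcases k with _ | _ | k
      · simp
      · simp
      · simp only [Nat.add_eq_zero_iff, one_ne_zero, and_false, if_false, Nat.add_sub_cancel]
        rw [if_neg (by omega), if_neg (by omega)]
        exact hpw _
    · intro j
      rw [show 2 * m + 1 + j = (2 * m + j) + 1 by ring]
      exact hβ _ _ (by omega)
    · intro j
      rw [hΦ1]
      simp only
      refine (norm_add_le _ _).trans ?_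
      rw [norm_mul, norm_pow, add_comm]
      refine add_le_add ?_ (lin_pow_le hL'.uc _)
      refine mul_le_mul ?_ (lin_pow_le hL.uc _) (norm_nonneg _) (by positivity)
      exact (hXq _).trans (pow_le_pow_of_le_one hqr0 hqr1.le (by omega))
    · rw [hT1]
      have h1 := tailU_ok (pwU q (2 * m + 2) * LS / S + 1 + LB) (2 * pwU q m) q
        (qr ^ (2 * m + 2) * wt L + wt L') (2 * qr ^ m) qr (by positivity) (by positivity) (by
          rw [add_mul]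
          have k1 := mul_S_div _ _ _ _ hwt0 (hpw (2 * m + 2)) hL.hl
          have k2 := hL'.hl
          simp only at k1 k2
          push_cast at k1 k2 ⊢
          linarith) (by
          have := hpw m
          push_cast
          linarith) hqrS hqS
      refine le_trans (le_of_eq ?_) h1
      ring
  have hC2 : ‖V2 + V4‖ * S ≤ (cost2 : ℝ) := by
    refine part l Φ2 (fun k => qr ^ (k + 1)) _ phi2 N2 hlen2 hub2 (fun k _ => hl k)
      (fun k _ => hpw _) _ hVl (fun j => qr ^ (N2 + 1) * qr ^ j) (qr ^ (N2 + 1) * (1 - qr)⁻¹)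
      (wt L + qr ^ (N2 + 2) * wt L')
      ((hasSum_geometric_of_lt_one hqr0 hqr1).mul_left _) ?_ ?_ T2' ?_
    · intro j
      have := hl (N2 + j)
      rwa [show N2 + j + 1 = N2 + 1 + j by ring, pow_add] at this
    · intro j
      rw [hΦ2]
      simp only
      refine (norm_add_le _ _).trans ?_
      rw [norm_mul, norm_pow]
      refine add_le_add (lin_inv_le hL.uc _) ?_
      refine mul_le_mul ?_ (lin_inv_le hL'.uc _) (norm_nonneg _) (by positivity)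
      exact (hXq _).trans (pow_le_pow_of_le_one hqr0 hqr1.le (by omega))
    · rw [hT2]
      have h1 := tailU_ok (LS + (pwU q (N2 + 2) * LB / S + 1)) (pwU q (N2 + 1)) q
        (wt L + qr ^ (N2 + 2) * wt L') (qr ^ (N2 + 1)) qr (by positivity) (by positivity) (by
          rw [add_mul]
          have k1 := mul_S_div _ _ _ _ hwt0' (hpw (N2 + 2)) hL'.hl
          have k2 := hL.hl
          simp only at k1 k2
          push_cast at k1 k2 ⊢
          linarith) (hpw _) hqrS hqS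
      refine le_trans (le_of_eq ?_) h1
      ring
  -- the inequality
  have hlinS : lin L (TS2 X β l) = lin L (fun z => z ^ 0) + lin L (fun z => z ^ 1) +
      X ^ 2 * lin L (fun z => z ^ 3) + V1 + V2 := by
    have : TS2 X β l = fun w => 1 + w + X ^ 2 * w ^ 3 +
      ∑' k : ℕ, β k * (X ^ (k + 1) * w ^ (k + 2)) + ∑' k : ℕ, l k * (w ^ (k + 1))⁻¹ := rfl
    rw [this, lin_add, lin_add, lin_add, lin_add, lin_mul, hV1, hV2]
    simp only [pow_zero, pow_one]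
  have hlinB : lin L' (TB2 X β l) = X * lin L' (fun z => (z ^ 1)⁻¹) + lin L' (fun z => z ^ 0) +
      lin L' (fun z => z ^ 2) + V3 + V4 := by
    have : TB2 X β l = fun w => X * (w ^ 1)⁻¹ + 1 + w ^ 2 + ∑' k : ℕ, β k * w ^ (k + 1) +
      ∑' k : ℕ, l k * (X ^ (k + 2) * (w ^ (k + 2))⁻¹) := rfl
    rw [this, lin_add, lin_add, lin_add, lin_add, lin_mul, hV3, hV4]
    simp only [pow_zero, pow_one]
  have hbdS := lin_bound L hL.uc _ _ hTS
  have hbdB := lin_bound L' hL'.uc _ _ hTB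
  rw [hlinS] at hbdS
  rw [hlinB] at hbdB
  have hcc1 := (Bm.In.mul (Bm.In.mul hXI hXI) (b := ⟨s3.x, s3.y, ε, nsq s3.x s3.y⟩)
    (w := lin L (fun z => z ^ 3)) ⟨by rw [mul_comm]; exact hs3, norm_cv_le_nsq _ _⟩)
  rw [hce1] at hcc1
  have hcc2 := (Bm.In.mul hXI (b := ⟨n1.x, n1.y, ε, nsq n1.x n1.y⟩)
    (w := lin L' (fun z => (z ^ 1)⁻¹)) ⟨by rw [mul_comm]; exact hn1, norm_cv_le_nsq _ _⟩)
  rw [hce2] at hcc2
  have k0 := re_of_in (r := ε) (z := lin L (fun z => z ^ 0)) (by rw [mul_comm]; exact hs0)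
  have k1 := re_of_in (r := ε) (z := lin L (fun z => z ^ 1)) (by rw [mul_comm]; exact hs1)
  have k2 := re_of_in hcc1.1
  have k3 := re_of_in hcc2.1
  have k4 := re_of_in (r := ε) (z := lin L' (fun z => z ^ 0)) (by rw [mul_comm]; exact hb0)
  have k5 := re_of_in (r := ε) (z := lin L' (fun z => z ^ 2)) (by rw [mul_comm]; exact hb2)
  simp only at k2 k3
  rw [← pow_two] at k2
  set P0 := lin L (fun z => z ^ 0)
  set P1 := lin L (fun z => z ^ 1)
  set P3 := X ^ 2 * lin L (fun z => z ^ 3)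
  set Q1 := X * lin L' (fun z => (z ^ 1)⁻¹)
  set Q0 := lin L' (fun z => z ^ 0)
  set Q2 := lin L' (fun z => z ^ 2)
  have hre : P0.re + P1.re + P3.re + Q1.re + Q0.re + Q2.re ≤
      (KN : ℝ) / KD * wt L + (KN : ℝ) / KD * wt L' + ‖V3 + V1‖ + ‖V2 + V4‖ := by
    have h1 := Complex.re_le_norm (P0 + P1 + P3 + V1 + V2)
    have h2 := Complex.re_le_norm (Q1 + Q0 + Q2 + V3 + V4)
    have h3 := (neg_le_abs (V3 + V1).re).trans (Complex.abs_re_le_norm (V3 + V1))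
    have h4 := (neg_le_abs (V2 + V4).re).trans (Complex.abs_re_le_norm (V2 + V4))
    simp only [add_re] at h1 h2 h3 h4
    linarith
  have hKDR : (0 : ℝ) < KD := by exact_mod_cast hKD
  have hfinR : (KN * (LS + LB) + KD * (cost1 + cost2) : ℝ) <
      KD * (s0.x + s1.x + b0.x + b2.x + c1 + c2 - r1 - r2 - 4 * ε) := by
    exact_mod_cast hfin
  have hk1 := hL.hl
  have hk2 := hL'.hl
  simp only at hk1 hk2
  have h5 : (KD : ℝ) * ((P0.re + P1.re + P3.re + Q1.re + Q0.re + Q2.re) * S) ≤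
      KN * (LS + LB) + KD * (cost1 + cost2) := by
    calc (KD : ℝ) * ((P0.re + P1.re + P3.re + Q1.re + Q0.re + Q2.re) * S)
        ≤ KD * (((KN : ℝ) / KD * wt L + (KN : ℝ) / KD * wt L' + ‖V3 + V1‖ + ‖V2 + V4‖) * S) := by
          apply mul_le_mul_of_nonneg_left _ hKDR.le
          exact mul_le_mul_of_nonneg_right hre hS.le
      _ = KN * (wt L * S + wt L' * S) + KD * (‖V3 + V1‖ * S + ‖V2 + V4‖ * S) := by
          field_simp
          ring
      _ ≤ _ := add_le_add (mul_le_mul_of_nonneg_left (add_le_add hk1 hk2) (by positivity))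
          (mul_le_mul_of_nonneg_left (add_le_add hC1 hC2) hKDR.le)
  have h6 : (KD : ℝ) * (s0.x + s1.x + b0.x + b2.x + c1 + c2 - r1 - r2 - 4 * ε) ≤
      KD * ((P0.re + P1.re + P3.re + Q1.re + Q0.re + Q2.re) * S) := by
    apply mul_le_mul_of_nonneg_left _ hKDR.le
    linarith
  linarith

end Run7.h281
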