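import Pool.Agent.Run7.h281.T2
set_option autoImplicit false

/-! Certificate checker for a vertex with gaps `e < d`, `d ≠ 2 e`. -/

namespace Run7.h281

open Complex

/-! ### classes of moments with real part -/

/-- one class of atoms: packed sums and their meaning -/
structure Cl (L : List (ℂ × ℂ)) (f g : ℕ → ℝ) (A B wx wy : ℕ) : Prop where
  hA : SD wx f 64 A
  hB : SD wy g 64 B
  hP : ∀ k, (lin L (fun z => z ^ k)).re = f k - g k
  hM : ∀ k, (lin L (fun z => (z ^ k)⁻¹)).re = f k + g k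
  uc : UC L
  wt : wt L ≤ wx + wy

theorem Cl.zero : Cl [] (fun _ => 0) (fun _ => 0) 0 0 0 0 := by
  refine ⟨SD.zero 64, SD.zero 64, ?_, ?_, ?_, ?_⟩
  · intro k; rw [lin_nil]; simp
  · intro k; rw [lin_nil]; simp
  · intro a ha; simp at ha
  · simp [Run7.h281.wt]

theorem Cl.stp {L : List (ℂ × ℂ)} {f g : ℕ → ℝ} {A B wx wy : ℕ} (h : Cl L f g A B wx wy)
    (x y : ℤ) (j : ℕ) (hb : 2 * S * ((wx + x.natAbs) + (wy + y.natAbs)) < W) :
    Cl ((cv x y, (ent j).pt) :: L) (fun k => f k + x * ((ent j).pt ^ k).re)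
      (fun k => g k + y * ((ent j).pt ^ k).im) (A + mulS x (ent j).X) (B + mulS y (ent j).Y)
      (wx + x.natAbs) (wy + y.natAbs) := by
  obtain ⟨e1, e2, e3, e4⟩ := ent_spec j
  obtain ⟨r1, r2, r3, r4⟩ := sd_of_row 64 _ _ _ _ _ e2 e3 e4
  have hx : 2 * S * (wx + x.natAbs) < W := lt_of_le_of_lt (Nat.mul_le_mul_left _ (by omega)) hb
  have hy : 2 * S * (wy + y.natAbs) < W := lt_of_le_of_lt (Nat.mul_le_mul_left _ (by omega)) hb
  have hx' : 2 * S * x.natAbs < W := lt_of_le_of_lt (Nat.mul_le_mul_left _ (by omega)) hb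
  have hy' : 2 * S * y.natAbs < W := lt_of_le_of_lt (Nat.mul_le_mul_left _ (by omega)) hb
  refine ⟨SD.add hx 64 h.hA (SD_mulS x hx' r1 r2), SD.add hy 64 h.hB (SD_mulS y hy' r3 r4),
    ?_, ?_, ?_, ?_⟩
  · intro k
    rw [lin_cons, add_re, h.hP k, mul_re, cv_re, cv_im]
    ring
  · intro k
    rw [lin_cons, add_re, h.hM k, mul_re, cv_re, cv_im, conj_inv_pow e1, conj_re, conj_im]
    ring
  · intro a ha
    rcases List.mem_cons.1 ha with rfl | ha
    · exact e1
    · exact h.uc a ha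
  · rw [wt_cons]
    have h1 := norm_cv_le x y
    have h2 := h.wt
    have h3 : ((x.natAbs : ℕ) : ℝ) = |(x : ℝ)| := by rw [Nat.cast_natAbs, Int.cast_abs]
    have h4 : ((y.natAbs : ℕ) : ℝ) = |(y : ℝ)| := by rw [Nat.cast_natAbs, Int.cast_abs]
    push_cast
    rw [Nat.cast_natAbs, Nat.cast_natAbs] at *
    push_cast at *
    linarith

/-- list of integers approximating `S g` -/
def RmOK (ε : ℕ) : (ℕ → ℝ) → List ℤ → Prop
  | _, [] => True
  | g, v :: t => |S * g 0 - v| ≤ ε ∧ RmOK ε (fun k => g (k + 1)) t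

def rP (wx wy : ℕ) : ℕ → ℕ → ℕ → List ℤ
  | 0, _, _ => []
  | n + 1, A, B => fI (Int.subNatNat (A % W + wy) (B % W + wx)) fun v => v ::
      fN (A / W) fun A => fN (B / W) fun B => rP wx wy n A B

def rM (w : ℕ) : ℕ → ℕ → ℕ → List ℤ
  | 0, _, _ => []
  | n + 1, A, B => fI (Int.subNatNat (A % W + B % W) w) fun v => v ::
      fN (A / W) fun A => fN (B / W) fun B => rM w n A B

theorem rP_ok {wx wy : ℕ} (n : ℕ) : ∀ {f g : ℕ → ℝ} {A B : ℕ}, SD wx f n A → SD wy g n B →
    RmOK (100 * (wx + wy)) (fun k => f k - g k) (rP (wx * S) (wy * S) n A B) := by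
  induction n with
  | zero => intro f g A B _ _; trivial
  | succ n ih =>
    intro f g A B hA hB
    simp only [rP, fN_eq, fI_eq]
    refine ⟨?_, ih hA.2.2 hB.2.2⟩
    have a1 := abs_le.1 hA.1
    have b1 := abs_le.1 hB.1
    simp only [Int.subNatNat_eq_coe, Int.cast_sub, Int.cast_natCast]
    rw [abs_le]
    push_cast at *
    constructor <;> nlinarith [a1.1, a1.2, b1.1, b1.2]

theorem rM_ok {wx wy : ℕ} (n : ℕ) : ∀ {f g : ℕ → ℝ} {A B : ℕ}, SD wx f n A → SD wy g n B →
    RmOK (100 * (wx + wy)) (fun k => f k + g k) (rM (wx * S + wy * S) n A B) := by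
  induction n with
  | zero => intro f g A B _ _; trivial
  | succ n ih =>
    intro f g A B hA hB
    simp only [rM, fN_eq, fI_eq]
    refine ⟨?_, ih hA.2.2 hB.2.2⟩
    have a1 := abs_le.1 hA.1
    have b1 := abs_le.1 hB.1
    simp only [Int.subNatNat_eq_coe, Int.cast_sub, Int.cast_natCast]
    rw [abs_le]
    push_cast at *
    constructor <;> nlinarith [a1.1, a1.2, b1.1, b1.2]

theorem RmOK.congr {ε : ℕ} {f g : ℕ → ℝ} {l : List ℤ} (h : RmOK ε f l) (e : ∀ k, f k = g k) :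
    RmOK ε g l := by
  have : f = g := funext e
  rwa [← this]

theorem RmOK.mono {ε ε' : ℕ} (h : ε ≤ ε') : ∀ {l : List ℤ} {f : ℕ → ℝ}, RmOK ε f l →
    RmOK ε' f l := by
  intro l
  induction l with
  | nil => intro f _; trivial
  | cons g t ih =>
    intro f hf
    have : (ε : ℝ) ≤ ε' := by exact_mod_cast h
    exact ⟨hf.1.trans this, ih hf.2⟩

/-- upper bounds of absolute values -/
def ubs (ε : ℕ) : List ℤ → List ℕ
  | [] => []
  | v :: t => fN (v.natAbs + ε) fun u => u :: ubs ε t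

theorem ubs_length (ε : ℕ) (l : List ℤ) : (ubs ε l).length = l.length := by
  induction l with
  | nil => rfl
  | cons v t ih => simp [ubs, ih]

theorem natAbs_cast (v : ℤ) : ((v.natAbs : ℕ) : ℝ) = |(v : ℝ)| := by
  rw [Nat.cast_natAbs, Int.cast_abs]

theorem ubs_ok (ε : ℕ) (l : List ℤ) : ∀ {g : ℕ → ℝ}, RmOK ε g l →
    UbOK (fun k => ‖((g k : ℝ) : ℂ)‖) (ubs ε l) := by
  induction l with
  | nil => intro g _; trivial
  | cons v t ih =>
    intro g h
    simp only [ubs, fN_eq]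
    refine ⟨?_, ih h.2⟩
    have h1 := h.1
    simp only
    rw [Complex.norm_real, Real.norm_eq_abs, Nat.cast_add, natAbs_cast]
    have hS := S_posR
    have h2 : |g 0| * S = |S * g 0| := by rw [abs_mul, Nat.abs_cast, mul_comm]
    rw [h2]
    have h3 : |S * g 0| ≤ |(v : ℝ)| + |S * g 0 - v| := by
      have := abs_add_le (v : ℝ) (S * g 0 - v)
      rwa [add_sub_cancel] at this
    linarith

/-- cost of a real sequence with caps `X ^ e k` -/
def seqCost (X : ℕ) (e : ℕ → ℕ) (LB ε : ℕ) (l : List ℤ) : ℕ :=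
  costL (fun k => pwU X (e k)) 0 (ubs ε l) + tailU LB (pwU X (e l.length)) X

theorem seqCost_ok (X : ℕ) (x : ℝ) (hx0 : 0 ≤ x) (hx : x * S ≤ X) (hX : X < S) (e : ℕ → ℕ)
    (LB ε : ℕ) (l : List ℤ) (m v : ℕ → ℝ) (hm : RmOK ε m l) (hv : ∀ k, |v k| ≤ x ^ e k)
    (he : ∀ j, e (l.length + j) = e l.length + j) (B : ℝ) (hB0 : 0 ≤ B) (hB : B * S ≤ LB)
    (hmB : ∀ k, |m k| ≤ B) (V : ℝ) (hV : HasSum (fun k => v k * m k) V) :
    |V| * S ≤ seqCost X e LB ε l := by
  have hS := S_posR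
  have hXR : (X : ℝ) < S := by exact_mod_cast hX
  have hx1 : x < 1 := by
    by_contra hcon
    push Not at hcon
    nlinarith
  have hpw := pwU_spec X x hx0 hx
  have h1 := part (fun k => ((v k : ℝ) : ℂ)) (fun k => ((m k : ℝ) : ℂ)) (fun k => x ^ e k)
    (fun k => pwU X (e k)) (ubs ε l) l.length (ubs_length ε l) (ubs_ok ε l hm)
    (fun k _ => by rw [Complex.norm_real, Real.norm_eq_abs]; exact hv k) (fun k _ => hpw _)
    ((V : ℝ) : ℂ) (by
      have := (Complex.hasSum_ofReal (L := SummationFilter.unconditional ℕ)).2 hV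
      refine this.congr_fun ?_
      intro k
      push_cast
      rfl) (fun j => x ^ e l.length * x ^ j) (x ^ e l.length * (1 - x)⁻¹) B
    ((hasSum_geometric_of_lt_one hx0 hx1).mul_left _)
    (fun j => by
      rw [Complex.norm_real, Real.norm_eq_abs, ← pow_add, ← he]
      exact hv _)
    (fun j => by rw [Complex.norm_real, Real.norm_eq_abs]; exact hmB _)
    (tailU LB (pwU X (e l.length)) X) (by
      have h2 := tailU_ok LB (pwU X (e l.length)) X B (x ^ e l.length) x hB0 (by positivity) hB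
        (hpw _) hx hX
      refine le_trans (le_of_eq ?_) h2
      ring)
  rwa [Complex.norm_real, Real.norm_eq_abs] at h1

end Run7.h281
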