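import Pool.Agent.Run7.h281.T3
set_option autoImplicit false

/-! Certificate checker for a vertex with gaps `e < d`, `d ≠ 2 e`: the cells. -/

namespace Run7.h281

open Complex

/-- triple atom with cost `w` -/
structure Tr where
  j : ℕ
  x1 : ℤ
  y1 : ℤ
  x2 : ℤ
  y2 : ℤ
  x3 : ℤ
  y3 : ℤ
  w : ℕ

def trm (j : ℕ) (x1 y1 x2 y2 x3 y3 : ℤ) (w : ℕ) : Tr :=
  fN j fun j => fI x1 fun x1 => fI y1 fun y1 => fI x2 fun x2 => fI y2 fun y2 =>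
  fI x3 fun x3 => fI y3 fun y3 => fN w fun w => ⟨j, x1, y1, x2, y2, x3, y3, w⟩

theorem trm_eq (j : ℕ) (x1 y1 x2 y2 x3 y3 : ℤ) (w : ℕ) :
    trm j x1 y1 x2 y2 x3 y3 w = ⟨j, x1, y1, x2, y2, x3, y3, w⟩ := by simp [trm]

def sb (c : ℕ) : ℤ := Int.subNatNat (c % 131072) 65536

def trE (j : ℕ) (x1 y1 x2 y2 x3 y3 : ℤ) : Tr :=
  trm j x1 y1 x2 y2 x3 y3 (sq ((x1.natAbs * x1.natAbs + y1.natAbs * y1.natAbs +
    (x2.natAbs * x2.natAbs + y2.natAbs * y2.natAbs) +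
    (x3.natAbs * x3.natAbs + y3.natAbs * y3.natAbs)) * (S * S)))

def decE : ℕ → ℕ → List Tr
  | 0, _ => []
  | n + 1, c => trE (c % 64) (sb (c / 64)) (sb (c / 8388608)) (sb (c / 1099511627776))
      (sb (c / 144115188075855872)) (sb (c / 18889465931478580854784))
      (sb (c / 2475880078570760549798248448)) ::
      fN (c / 324518553658426726783156020576256) fun c => decE n c

def trR (j k : ℕ) (p r : ℤ) : Tr :=
  match k with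
  | 0 => trm j (2 * p) (2 * r) p r p r
      (2 * sq ((p.natAbs * p.natAbs + r.natAbs * r.natAbs) * (S * S)))
  | 1 => trm j (2 * p) (2 * r) (-r) p r (-p)
      (2 * sq ((p.natAbs * p.natAbs + r.natAbs * r.natAbs) * (S * S)))
  | 2 => trm j (2 * p) (2 * r) (-p) (-r) (-p) (-r)
      (2 * sq ((p.natAbs * p.natAbs + r.natAbs * r.natAbs) * (S * S)))
  | _ => trm j (2 * p) (2 * r) r (-p) (-r) p
      (2 * sq ((p.natAbs * p.natAbs + r.natAbs * r.natAbs) * (S * S)))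

def decR : ℕ → ℕ → List Tr
  | 0, _ => []
  | n + 1, c => trR (c % 64) (c / 64 % 4) (sb (c / 256)) (sb (c / 33554432)) ::
      fN (c / 4398046511104) fun c => decR n c

/-- the constraints on the three classes at a point -/
def Val (K : ℝ) (A G H : ℂ) : Prop :=
  ‖A‖ ^ 2 + ‖G‖ ^ 2 + ‖H‖ ^ 2 ≤ K ^ 2 ∧
    ∀ κ : ℂ, ‖κ‖ = 1 → ‖2 * A + κ * G + (starRingEnd ℂ) κ * H‖ ≤ 2 * K

def TrOK (t : Tr) : Prop := ∀ (K : ℝ) (A G H : ℂ), 0 ≤ K → Val K A G H →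
  ‖cv t.x1 t.y1 * A + cv t.x2 t.y2 * G + cv t.x3 t.y3 * H‖ * S ≤ K * t.w

theorem trE_ok (j : ℕ) (x1 y1 x2 y2 x3 y3 : ℤ) : TrOK (trE j x1 y1 x2 y2 x3 y3) := by
  intro K A G H hK hV
  unfold trE
  rw [trm_eq]
  simp only
  set n := (x1.natAbs * x1.natAbs + y1.natAbs * y1.natAbs +
    (x2.natAbs * x2.natAbs + y2.natAbs * y2.natAbs) +
    (x3.natAbs * x3.natAbs + y3.natAbs * y3.natAbs)) * (S * S) with hn
  have h1 := sq_spec n
  set t := sq n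
  have h2 : ((n : ℕ) : ℝ) ≤ (t : ℝ) * t := by exact_mod_cast h1
  have hsq : ∀ z : ℤ, ((z.natAbs : ℕ) : ℝ) * ((z.natAbs : ℕ) : ℝ) = (z : ℝ) ^ 2 := by
    intro z
    rw [← pow_two, natAbs_cast, sq_abs]
  have h3 : ((n : ℕ) : ℝ) = (‖cv x1 y1‖ ^ 2 + ‖cv x2 y2‖ ^ 2 + ‖cv x3 y3‖ ^ 2) * S ^ 2 := by
    rw [hn, norm_cv_sq, norm_cv_sq, norm_cv_sq, ← hsq x1, ← hsq y1, ← hsq x2, ← hsq y2,
      ← hsq x3, ← hsq y3]
    push_cast
    ring
  set a := ‖cv x1 y1‖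
  set b := ‖cv x2 y2‖
  set c := ‖cv x3 y3‖
  have hS := S_posR
  have h4 : ‖cv x1 y1 * A + cv x2 y2 * G + cv x3 y3 * H‖ ≤ a * ‖A‖ + b * ‖G‖ + c * ‖H‖ := by
    refine (norm_add_le _ _).trans (add_le_add ((norm_add_le _ _).trans ?_) ?_)
    · rw [norm_mul, norm_mul]
    · rw [norm_mul]
  have h5 : (a * ‖A‖ + b * ‖G‖ + c * ‖H‖) ^ 2 ≤ (a ^ 2 + b ^ 2 + c ^ 2) *
      (‖A‖ ^ 2 + ‖G‖ ^ 2 + ‖H‖ ^ 2) := by
    nlinarith [sq_nonneg (a * ‖G‖ - b * ‖A‖), sq_nonneg (a * ‖H‖ - c * ‖A‖),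
      sq_nonneg (b * ‖H‖ - c * ‖G‖)]
  have h6 : ((a * ‖A‖ + b * ‖G‖ + c * ‖H‖) * S) ^ 2 ≤ (K * t) ^ 2 := by
    calc ((a * ‖A‖ + b * ‖G‖ + c * ‖H‖) * S) ^ 2
        = (a * ‖A‖ + b * ‖G‖ + c * ‖H‖) ^ 2 * S ^ 2 := by ring
      _ ≤ ((a ^ 2 + b ^ 2 + c ^ 2) * (‖A‖ ^ 2 + ‖G‖ ^ 2 + ‖H‖ ^ 2)) * S ^ 2 :=
          mul_le_mul_of_nonneg_right h5 (by positivity)
      _ ≤ ((a ^ 2 + b ^ 2 + c ^ 2) * K ^ 2) * S ^ 2 :=
          mul_le_mul_of_nonneg_right (mul_le_mul_of_nonneg_left hV.1 (by positivity))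
            (by positivity)
      _ = n * K ^ 2 := by rw [h3]; ring
      _ ≤ (t * t) * K ^ 2 := mul_le_mul_of_nonneg_right h2 (by positivity)
      _ = _ := by ring
  have h7 := (abs_le_of_sq_le_sq' h6 (by positivity)).2
  exact (mul_le_mul_of_nonneg_right h4 hS.le).trans h7

theorem decE_ok (n : ℕ) : ∀ c, ∀ t ∈ decE n c, TrOK t := by
  induction n with
  | zero => intro c t ht; simp [decE] at ht
  | succ n ih =>
    intro c t ht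
    simp only [decE, fN_eq, List.mem_cons] at ht
    rcases ht with rfl | ht
    · exact trE_ok _ _ _ _ _ _ _
    · exact ih _ t ht

theorem trR_aux (p r : ℤ) (κ : ℂ) (hκ : ‖κ‖ = 1) (K : ℝ) (A G H : ℂ) (hK : 0 ≤ K)
    (hV : Val K A G H) (a b c : ℂ) (ha : a = 2 * cv p r) (hb : b = κ * cv p r)
    (hc : c = (starRingEnd ℂ) κ * cv p r) :
    ‖a * A + b * G + c * H‖ * S ≤
      K * ((2 * sq ((p.natAbs * p.natAbs + r.natAbs * r.natAbs) * (S * S)) : ℕ) : ℝ) := by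
  have h1 := norm_cv_natAbs p r
  have h2 : a * A + b * G + c * H = cv p r * (2 * A + κ * G + (starRingEnd ℂ) κ * H) := by
    rw [ha, hb, hc]; ring
  rw [h2, norm_mul]
  have h3 := hV.2 κ hκ
  have hS := S_posR
  calc ‖cv p r‖ * ‖2 * A + κ * G + (starRingEnd ℂ) κ * H‖ * S
      ≤ ‖cv p r‖ * (2 * K) * S := by gcongr
    _ = (‖cv p r‖ * S) * (2 * K) := by ring
    _ ≤ (sq ((p.natAbs * p.natAbs + r.natAbs * r.natAbs) * (S * S)) : ℝ) * (2 * K) := by gcongr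
    _ = _ := by push_cast; ring

theorem trR_ok (j k : ℕ) (p r : ℤ) : TrOK (trR j k p r) := by
  intro K A G H hK hV
  unfold trR
  split
  · rw [trm_eq]
    refine trR_aux p r 1 (by simp) K A G H hK hV _ _ _ ?_ ?_ ?_
    · simp only; unfold cv; push_cast; ring
    · simp only; unfold cv; push_cast; ring
    · simp only; unfold cv; push_cast; simp
  · rw [trm_eq]
    refine trR_aux p r I (by simp) K A G H hK hV _ _ _ ?_ ?_ ?_
    · simp only; unfold cv; push_cast; ring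
    · simp only; unfold cv; push_cast; linear_combination (-(r : ℂ)) * I_mul_I
    · simp only; unfold cv; push_cast; rw [conj_I]; linear_combination (r : ℂ) * I_mul_I
  · rw [trm_eq]
    refine trR_aux p r (-1) (by simp) K A G H hK hV _ _ _ ?_ ?_ ?_
    · simp only; unfold cv; push_cast; ring
    · simp only; unfold cv; push_cast; ring
    · simp only; unfold cv; push_cast; simp; ring
  · rw [trm_eq]
    refine trR_aux p r (-I) (by simp) K A G H hK hV _ _ _ ?_ ?_ ?_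
    · simp only; unfold cv; push_cast; ring
    · simp only; unfold cv; push_cast; linear_combination (r : ℂ) * I_mul_I
    · simp only; unfold cv; push_cast; rw [map_neg, conj_I]
      linear_combination (-(r : ℂ)) * I_mul_I

theorem decR_ok (n : ℕ) : ∀ c, ∀ t ∈ decR n c, TrOK t := by
  induction n with
  | zero => intro c t ht; simp [decR] at ht
  | succ n ih =>
    intro c t ht
    simp only [decR, fN_eq, List.mem_cons] at ht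
    rcases ht with rfl | ht
    · exact trR_ok _ _ _ _
    · exact ih _ t ht

/-- accumulators of the three classes -/
structure Ac3 where
  A1 : ℕ
  B1 : ℕ
  u1 : ℕ
  v1 : ℕ
  A2 : ℕ
  B2 : ℕ
  u2 : ℕ
  v2 : ℕ
  A3 : ℕ
  B3 : ℕ
  u3 : ℕ
  v3 : ℕ
  w : ℕ

def ac3 (A1 B1 u1 v1 A2 B2 u2 v2 A3 B3 u3 v3 w : ℕ) : Ac3 :=
  fN A1 fun A1 => fN B1 fun B1 => fN u1 fun u1 => fN v1 fun v1 =>
  fN A2 fun A2 => fN B2 fun B2 => fN u2 fun u2 => fN v2 fun v2 =>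
  fN A3 fun A3 => fN B3 fun B3 => fN u3 fun u3 => fN v3 fun v3 => fN w fun w =>
    ⟨A1, B1, u1, v1, A2, B2, u2, v2, A3, B3, u3, v3, w⟩

theorem ac3_eq (A1 B1 u1 v1 A2 B2 u2 v2 A3 B3 u3 v3 w : ℕ) :
    ac3 A1 B1 u1 v1 A2 B2 u2 v2 A3 B3 u3 v3 w =
      ⟨A1, B1, u1, v1, A2, B2, u2, v2, A3, B3, u3, v3, w⟩ := by simp [ac3]

def stp3 (t : Tr) (e : Ent) (s : Ac3) : Ac3 :=
  ac3 (s.A1 + mulS t.x1 e.X) (s.B1 + mulS t.y1 e.Y) (s.u1 + t.x1.natAbs) (s.v1 + t.y1.natAbs)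
    (s.A2 + mulS t.x2 e.X) (s.B2 + mulS t.y2 e.Y) (s.u2 + t.x2.natAbs) (s.v2 + t.y2.natAbs)
    (s.A3 + mulS t.x3 e.X) (s.B3 + mulS t.y3 e.Y) (s.u3 + t.x3.natAbs) (s.v3 + t.y3.natAbs)
    (s.w + t.w)

def acc3 : List Tr → Ac3 → Ac3
  | [], s => s
  | t :: L, s => match t with
    | ⟨j, x1, y1, x2, y2, x3, y3, w⟩ =>
      match stp3 ⟨j, x1, y1, x2, y2, x3, y3, w⟩ (ent j) s with
      | ⟨A1, B1, u1, v1, A2, B2, u2, v2, A3, B3, u3, v3, w⟩ =>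
        acc3 L ⟨A1, B1, u1, v1, A2, B2, u2, v2, A3, B3, u3, v3, w⟩

theorem acc3_cons (t : Tr) (L : List Tr) (s : Ac3) :
    acc3 (t :: L) s = acc3 L (stp3 t (ent t.j) s) := by
  rfl

/-- meaning -/
def Ac3OK (s : Ac3) : Prop := ∃ (L1 L2 L3 : List (ℂ × ℂ)) (f1 g1 f2 g2 f3 g3 : ℕ → ℝ),
  Cl L1 f1 g1 s.A1 s.B1 s.u1 s.v1 ∧ Cl L2 f2 g2 s.A2 s.B2 s.u2 s.v2 ∧
  Cl L3 f3 g3 s.A3 s.B3 s.u3 s.v3 ∧ ∀ (K : ℝ) (A G H : ℂ → ℂ), 0 ≤ K →
    (∀ u : ℂ, ‖u‖ = 1 → Val K (A u) (G u) (H u)) →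
    ‖lin L1 A + lin L2 G + lin L3 H‖ * S ≤ K * s.w

def bd3 (s : Ac3) : ℕ := (s.u1 + s.v1) + (s.u2 + s.v2) + (s.u3 + s.v3)

theorem stp3_ok (t : Tr) (ht : TrOK t) (s : Ac3) (hs : Ac3OK s)
    (hb : 2 * S * bd3 (stp3 t (ent t.j) s) < W) : Ac3OK (stp3 t (ent t.j) s) := by
  obtain ⟨L1, L2, L3, f1, g1, f2, g2, f3, g3, h1, h2, h3, h4⟩ := hs
  unfold stp3 at hb ⊢
  rw [ac3_eq] at hb ⊢
  simp only [bd3] at hb
  have b1 : 2 * S * ((s.u1 + t.x1.natAbs) + (s.v1 + t.y1.natAbs)) < W :=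
    lt_of_le_of_lt (Nat.mul_le_mul_left _ (by omega)) hb
  have b2 : 2 * S * ((s.u2 + t.x2.natAbs) + (s.v2 + t.y2.natAbs)) < W :=
    lt_of_le_of_lt (Nat.mul_le_mul_left _ (by omega)) hb
  have b3 : 2 * S * ((s.u3 + t.x3.natAbs) + (s.v3 + t.y3.natAbs)) < W :=
    lt_of_le_of_lt (Nat.mul_le_mul_left _ (by omega)) hb
  refine ⟨_, _, _, _, _, _, _, _, _, h1.stp t.x1 t.y1 t.j b1, h2.stp t.x2 t.y2 t.j b2,
    h3.stp t.x3 t.y3 t.j b3, ?_⟩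
  intro K A G H hK hV
  rw [lin_cons, lin_cons, lin_cons]
  have k1 := h4 K A G H hK hV
  have k2 := ht K _ _ _ hK (hV (ent t.j).pt (ent_spec t.j).1)
  have hS := S_posR
  calc ‖cv t.x1 t.y1 * A (ent t.j).pt + lin L1 A + (cv t.x2 t.y2 * G (ent t.j).pt + lin L2 G) +
        (cv t.x3 t.y3 * H (ent t.j).pt + lin L3 H)‖ * S
      = ‖(cv t.x1 t.y1 * A (ent t.j).pt + cv t.x2 t.y2 * G (ent t.j).pt +
        cv t.x3 t.y3 * H (ent t.j).pt) + (lin L1 A + lin L2 G + lin L3 H)‖ * S := by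
        congr 2; ring
    _ ≤ (‖cv t.x1 t.y1 * A (ent t.j).pt + cv t.x2 t.y2 * G (ent t.j).pt +
        cv t.x3 t.y3 * H (ent t.j).pt‖ + ‖lin L1 A + lin L2 G + lin L3 H‖) * S := by
        gcongr; exact norm_add_le _ _
    _ ≤ _ := by push_cast; linarith

theorem acc3_mono (L : List Tr) : ∀ s : Ac3, bd3 s ≤ bd3 (acc3 L s) := by
  induction L with
  | nil => intro s; exact le_refl _
  | cons a L ih =>
    intro s
    rw [acc3_cons]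
    refine le_trans ?_ (ih _)
    unfold stp3
    rw [ac3_eq]
    simp only [bd3]
    omega

theorem acc3_ok (L : List Tr) : ∀ (s : Ac3), (∀ t ∈ L, TrOK t) → Ac3OK s →
    2 * S * bd3 (acc3 L s) < W → Ac3OK (acc3 L s) := by
  induction L with
  | nil => intro s _ h _; exact h
  | cons a L ih =>
    intro s ht h hb
    rw [acc3_cons] at hb ⊢
    refine ih _ (fun t h' => ht t (List.mem_cons_of_mem _ h'))
      (stp3_ok a (ht a List.mem_cons_self) s h ?_) hb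
    exact lt_of_le_of_lt (Nat.mul_le_mul_left _ (acc3_mono L _)) hb

theorem Ac3OK.zero : Ac3OK ⟨0, 0, 0, 0, 0, 0, 0, 0, 0, 0, 0, 0, 0⟩ := by
  refine ⟨[], [], [], _, _, _, _, _, _, Cl.zero, Cl.zero, Cl.zero, ?_⟩
  intro K A G H _ _
  simp [lin_nil]

end Run7.h281
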