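import Pool.Agent.Run7.h281.T3b
set_option autoImplicit false

/-! Certificate checker for a vertex with gaps `e < d`, `d ≠ 2 e`: soundness. -/

namespace Run7.h281

open Complex

/-- bilateral sum -/
noncomputable def Bi (c : ℂ) (p m : ℕ → ℂ) (u : ℂ) : ℂ :=
  c + ∑' k : ℕ, p k * u ^ (k + 1) + ∑' k : ℕ, m k * (u ^ (k + 1))⁻¹

/-- final inequality of a cell -/
def fin3 (KN KD LS w X1 q xc xr ε U1 U2 U3 : ℕ) (sP sM aP aM gP gM hP hM : List ℤ) : Bool :=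
  decide ((KN * (LS + w) + KD * ((
    (seqCost X1 (fun k => k + 2) LS ε (sP.drop 3) + seqCost q (fun k => k + 1) LS ε (sM.drop 1)) +
    (seqCost q (fun k => k + 1) U1 ε (aP.drop 2) + seqCost X1 (fun k => k + 1) U1 ε (aM.drop 1)) +
    (seqCost q (fun k => k - 1) U2 ε (gP.drop 1) + seqCost X1 (fun k => k + 2) U2 ε (gM.drop 1)) +
    (seqCost q (fun k => k) U3 ε (hP.drop 1) + seqCost X1 (fun k => k) U3 ε (hM.drop 1)) +
    (((xc : ℤ) * sP.getD 2 0 / (S : ℤ) + hP.getD 0 0).natAbs + 1 +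
      (xr * (sP.getD 2 0).natAbs / S + 1) + 2 * ε) : ℕ) : ℤ) : ℤ) <
    KD * (sP.getD 0 0 + sP.getD 1 0 + aP.getD 0 0 + aP.getD 1 0 +
      ((xc : ℤ) * gP.getD 0 0 / (S : ℤ) - ((xr * (gP.getD 0 0).natAbs / S + 2 : ℕ) : ℤ)) -
      5 * (ε : ℤ)))

/-- the certificate of a cell -/
def t3cell (KN KD dl X0 X1 code : ℕ) : Bool :=
  fN (code % 64) fun NS => fN (code / 64 % 64) fun NR => fN (code / 4096 % 64) fun nS =>
  fN (code / 262144 % 64) fun nE => fN (code / 16777216 % 256) fun nR =>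
  fN (code / 4294967296) fun c1 => fN (c1 / 2 ^ (40 * nS)) fun c2 =>
  fN (c2 / 2 ^ (108 * nE)) fun c3 =>
  match acc (dec nS c1) ⟨0, 0, 0, 0, 0, 0, 0⟩ with
  | ⟨A, B, _, _, wx, wy, LS⟩ =>
  match acc3 (decE nE c2 ++ decR nR c3) ⟨0, 0, 0, 0, 0, 0, 0, 0, 0, 0, 0, 0, 0⟩ with
  | ⟨A1, B1, u1, v1, A2, B2, u2, v2, A3, B3, u3, v3, w⟩ =>
  decide (2 * S * (wx + wy) < W) &&
    decide (2 * S * ((u1 + v1) + (u2 + v2) + (u3 + v3)) < W) && decide (X1 + dl < S) &&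
    decide (X0 ≤ X1) && decide (NS + 3 ≤ 64) && decide (NR + 2 ≤ 64) &&
  fN (X1 + dl) fun q =>
  fN ((X0 + X1) / 2) fun xc => fN ((X1 - X0) / 2 + 1) fun xr =>
  fN (100 * (wx + wy) + 100 * ((u1 + v1) + (u2 + v2) + (u3 + v3))) fun ε =>
  fin3 KN KD LS w X1 q xc xr ε ((u1 + v1) * S) ((u2 + v2) * S) ((u3 + v3) * S)
    (rP (wx * S) (wy * S) (NS + 3) A B) (rM (wx * S + wy * S) (NS + 1) A B)
    (rP (u1 * S) (v1 * S) (NR + 2) A1 B1) (rM (u1 * S + v1 * S) (NR + 1) A1 B1)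
    (rP (u2 * S) (v2 * S) (NR + 2) A2 B2) (rM (u2 * S + v2 * S) (NR + 1) A2 B2)
    (rP (u3 * S) (v3 * S) (NR + 2) A3 B3) (rM (u3 * S + v3 * S) (NR + 1) A3 B3)

theorem rP_len (wx wy : ℕ) (n : ℕ) : ∀ A B, (rP wx wy n A B).length = n := by
  induction n with
  | zero => intro A B; rfl
  | succ n ih => intro A B; simp [rP, ih]

theorem rM_len (w : ℕ) (n : ℕ) : ∀ A B, (rM w n A B).length = n := by
  induction n with
  | zero => intro A B; rfl
  | succ n ih => intro A B; simp [rM, ih]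

theorem RmOK.drop {ε : ℕ} (n : ℕ) : ∀ {l : List ℤ} {g : ℕ → ℝ}, RmOK ε g l →
    RmOK ε (fun k => g (k + n)) (l.drop n) := by
  induction n with
  | zero => intro l g h; exact h
  | succ n ih =>
    intro l g h
    cases l with
    | nil => trivial
    | cons v t =>
      rw [List.drop_succ_cons]
      exact (ih h.2).congr (fun k => by rw [add_assoc])

theorem RmOK.getD {ε : ℕ} (k : ℕ) : ∀ {l : List ℤ} {g : ℕ → ℝ}, RmOK ε g l → k < l.length →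
    |S * g k - (l.getD k 0 : ℤ)| ≤ ε := by
  induction k with
  | zero =>
    intro l g h hk
    cases l with
    | nil => simp at hk
    | cons v t => exact h.1
  | succ k ih =>
    intro l g h hk
    cases l with
    | nil => simp at hk
    | cons v t =>
      rw [List.getD_cons_succ]
      exact ih h.2 (by simpa using hk)

/-- real caps -/
structure CapR (x q h0 : ℝ) (sp sm ap am gp gm hp hm : ℕ → ℝ) : Prop where
  ch0 : |h0| ≤ 1
  csp0 : sp 0 = 1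
  csp1 : sp 1 = x * h0
  csp : ∀ k, |sp (k + 2)| ≤ x ^ (k + 2)
  csm : ∀ k, |sm k| ≤ q ^ (k + 1)
  cap0 : ap 0 = 1
  cap : ∀ k, |ap (k + 1)| ≤ q ^ (k + 1)
  cam : ∀ k, |am k| ≤ x ^ (k + 1)
  cgp : ∀ k, |gp k| ≤ q ^ (k - 1)
  cgm : ∀ k, |gm k| ≤ x ^ (k + 2)
  chp : ∀ k, |hp k| ≤ q ^ k
  chm : ∀ k, |hm k| ≤ x ^ k

/-- coefficients as complex numbers -/
noncomputable def rc (p : ℕ → ℝ) : ℕ → ℂ := fun k => ((p k : ℝ) : ℂ)

theorem lin_bi (L : List (ℂ × ℂ)) (hL : UC L) (c : ℝ) (p m : ℕ → ℝ)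
    (hp : Summable fun k => |p k|) (hm : Summable fun k => |m k|) :
    ∃ V1 V2 : ℝ, HasSum (fun k => p k * (lin L (fun z => z ^ (k + 1))).re) V1 ∧
      HasSum (fun k => m k * (lin L (fun z => (z ^ (k + 1))⁻¹)).re) V2 ∧
      (lin L (Bi c (rc p) (rc m))).re = c * (lin L (fun z => z ^ 0)).re + V1 + V2 := by
  have sumaux : ∀ (c : ℕ → ℝ) (f : ℕ → ℂ → ℂ), Summable (fun k => |c k|) →
      (∀ k z, ‖z‖ = 1 → ‖f k z‖ ≤ 1) → ∀ z : ℂ, ‖z‖ = 1 →
      HasSum (fun k => rc c k * f k z) (∑' k, rc c k * f k z) := by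
    intro c f hcs hf z hz
    apply Summable.hasSum
    refine Summable.of_norm_bounded hcs ?_
    intro k
    unfold rc
    rw [norm_mul, Complex.norm_real, Real.norm_eq_abs]
    exact mul_le_of_le_one_right (abs_nonneg _) (hf k z hz)
  have h1 := lin_hasSum L hL _ _ _ (sumaux p (fun k z => z ^ (k + 1)) hp
    (fun k z hz => by rw [norm_pow, hz, one_pow]))
  have h2 := lin_hasSum L hL _ _ _ (sumaux m (fun k z => (z ^ (k + 1))⁻¹) hm
    (fun k z hz => by rw [norm_inv, norm_pow, hz, one_pow, inv_one]))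
  refine ⟨(lin L (fun z => ∑' k : ℕ, rc p k * z ^ (k + 1))).re,
    (lin L (fun z => ∑' k : ℕ, rc m k * (z ^ (k + 1))⁻¹)).re, ?_, ?_, ?_⟩
  rotate_left 2
  · have : Bi c (rc p) (rc m) = fun u => (c : ℂ) * u ^ 0 + ∑' k : ℕ, rc p k * u ^ (k + 1) +
        ∑' k : ℕ, rc m k * (u ^ (k + 1))⁻¹ := by
      funext u
      unfold Bi
      rw [pow_zero, mul_one]
    rw [this, lin_add, lin_add, lin_mul, add_re, add_re, re_ofReal_mul]
  · have h3 := h1.mapL Complex.reCLM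
    simp only [Complex.reCLM_apply] at h3
    refine h3.congr_fun ?_
    intro k
    simp only [rc]
    rw [re_ofReal_mul]
  · have h3 := h2.mapL Complex.reCLM
    simp only [Complex.reCLM_apply] at h3
    refine h3.congr_fun ?_
    intro k
    simp only [rc]
    rw [re_ofReal_mul]

theorem sum_of_cap (p : ℕ → ℝ) (r C : ℝ) (hr0 : 0 ≤ r) (hr1 : r < 1) (n : ℕ)
    (h : ∀ k, |p (k + n)| ≤ C * r ^ k) : Summable fun k => |p k| := by
  rw [← summable_nat_add_iff n]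
  exact Summable.of_nonneg_of_le (fun _ => abs_nonneg _) h
    ((summable_geometric_of_lt_one hr0 hr1).mul_left C)

theorem xmul (x m : ℝ) (v : ℤ) (xc xr ε : ℕ) (h0 : 0 ≤ x) (h1 : x ≤ 1) (hm : |S * m - v| ≤ ε)
    (hx : |x * S - xc| ≤ xr) :
    |x * m * S - (((xc : ℤ) * v / (S : ℤ) : ℤ) : ℝ)| ≤ 1 + ((xr * v.natAbs / S + 1 : ℕ) : ℝ) + ε := by
  have hS := S_posR
  have e1 := Bl.div_err ((xc : ℤ) * v)
  have e2 := Bl.nat_div_err (xr * v.natAbs)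
  have e3 : x * m * S - (((xc : ℤ) * v / (S : ℤ) : ℤ) : ℝ) = x * (S * m - v) +
      (x * S - xc) * (v / S) - ((((xc : ℤ) * v / (S : ℤ) : ℤ) : ℝ) - (((xc : ℤ) * v : ℤ) : ℝ) / S) := by
    push_cast
    field_simp
    ring
  rw [e3]
  have a1 : |x * (S * m - v)| ≤ ε := by
    rw [abs_mul, abs_of_nonneg h0]
    calc x * |S * m - v| ≤ 1 * ε := mul_le_mul h1 hm (abs_nonneg _) zero_le_one
      _ = _ := one_mul _
  have a2 : |(x * S - xc) * (v / S)| ≤ ((xr * v.natAbs : ℕ) : ℝ) / S := by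
    rw [abs_mul, abs_div, Nat.abs_cast]
    push_cast
    rw [Nat.cast_natAbs, Int.cast_abs, mul_div_assoc]
    exact mul_le_mul_of_nonneg_right hx (by positivity)
  have a3 := abs_sub (x * (S * m - v) + (x * S - xc) * (v / S))
    ((((xc : ℤ) * v / (S : ℤ) : ℤ) : ℝ) - (((xc : ℤ) * v : ℤ) : ℝ) / S)
  have a4 := abs_add_le (x * (S * m - v)) ((x * S - xc) * (v / S))
  push_cast at *
  linarith

theorem seqsum (p : ℕ → ℝ) (r : ℝ) (hr0 : 0 ≤ r) (hr1 : r < 1) (n : ℕ)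
    (h : ∀ k, |p (k + n)| ≤ r ^ k) : Summable fun k => |p k| :=
  sum_of_cap p r 1 hr0 hr1 n (fun k => by rw [one_mul]; exact h k)

theorem fin3_ok (KN KD LS w X0 X1 dl ε U1 U2 U3 : ℕ) (sP sM aP aM gP gM hP hM : List ℤ)
    (hKD : 0 < KD) (δ : ℝ) (hδ0 : 0 ≤ δ) (hδ : δ * S ≤ dl) (hqS : X1 + dl < S) (hX01 : X0 ≤ X1)
    (hc : fin3 KN KD LS w X1 (X1 + dl) ((X0 + X1) / 2) ((X1 - X0) / 2 + 1) ε U1 U2 U3
      sP sM aP aM gP gM hP hM = true)
    (L L1 L2 L3 : List (ℂ × ℂ)) (uL : UC L) (uL1 : UC L1) (uL2 : UC L2) (uL3 : UC L3)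
    (wL : wt L * S ≤ LS) (wL1 : wt L1 * S ≤ U1) (wL2 : wt L2 * S ≤ U2) (wL3 : wt L3 * S ≤ U3)
    (msP : RmOK ε (fun k => (lin L (fun z => z ^ k)).re) sP)
    (msM : RmOK ε (fun k => (lin L (fun z => (z ^ k)⁻¹)).re) sM)
    (maP : RmOK ε (fun k => (lin L1 (fun z => z ^ k)).re) aP)
    (maM : RmOK ε (fun k => (lin L1 (fun z => (z ^ k)⁻¹)).re) aM)
    (mgP : RmOK ε (fun k => (lin L2 (fun z => z ^ k)).re) gP)
    (mgM : RmOK ε (fun k => (lin L2 (fun z => (z ^ k)⁻¹)).re) gM)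
    (mhP : RmOK ε (fun k => (lin L3 (fun z => z ^ k)).re) hP)
    (mhM : RmOK ε (fun k => (lin L3 (fun z => (z ^ k)⁻¹)).re) hM)
    (lsP : 3 ≤ sP.length) (laP : 2 ≤ aP.length) (lgP : 2 ≤ gP.length) (lhP : 1 ≤ hP.length)
    (hV : ∀ (K : ℝ) (A G H : ℂ → ℂ), 0 ≤ K → (∀ u : ℂ, ‖u‖ = 1 → Val K (A u) (G u) (H u)) →
      ‖lin L1 A + lin L2 G + lin L3 H‖ * S ≤ K * w)
    (x : ℝ) (hx0 : (X0 : ℝ) ≤ x * S) (hx1 : x * S ≤ X1) (h0 : ℝ)
    (sp sm ap am gp gm hp hm : ℕ → ℝ) (hcap : CapR x (x + δ) h0 sp sm ap am gp gm hp hm)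
    (hS1 : ∀ z : ℂ, ‖z‖ = 1 → ‖Bi ((1 : ℝ) : ℂ) (rc sp) (rc sm) z‖ ≤ (KN : ℝ) / KD)
    (hB1 : ∀ u : ℂ, ‖u‖ = 1 → Val ((KN : ℝ) / KD) (Bi ((1 : ℝ) : ℂ) (rc ap) (rc am) u)
      (Bi (x : ℂ) (rc gp) (rc gm) u) (Bi (h0 : ℂ) (rc hp) (rc hm) u)) : False := by
  have hS := S_posR
  have hX1S : X1 < S := by omega
  have hx0' : 0 ≤ x := by
    have : 0 ≤ x * S := le_trans (by positivity) hx0
    exact nonneg_of_mul_nonneg_left this hS
  have hqr : (x + δ) * S ≤ ((X1 + dl : ℕ) : ℝ) := by push_cast; linarith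
  have hq0 : 0 ≤ x + δ := by positivity
  have hXR : (X1 : ℝ) < S := by exact_mod_cast hX1S
  have hqR : ((X1 + dl : ℕ) : ℝ) < S := by exact_mod_cast hqS
  have hx1' : x < 1 := by nlinarith
  have hq1 : x + δ < 1 := by
    by_contra hcon
    push Not at hcon
    nlinarith
  obtain ⟨ch0, csp0, csp1, csp, csm, cap0, cap, cam, cgp, cgm, chp, chm⟩ := hcap
  have wn := wt_nonneg L
  have wn1 := wt_nonneg L1
  have wn2 := wt_nonneg L2
  have wn3 := wt_nonneg L3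
  have mle : ∀ (n : ℕ) (x : ℝ), 0 ≤ x → x < 1 → ∀ k, x ^ (k + n) ≤ x ^ k := fun n x h h' k =>
    pow_le_pow_of_le_one h h'.le (by omega)
  -- S part
  obtain ⟨V1, V2, hV1, hV2, hVs⟩ := lin_bi L uL 1 sp sm
    (seqsum sp x hx0' hx1' 2 (fun k => (csp k).trans (mle _ _ hx0' hx1' k)))
    (seqsum sm (x + δ) hq0 hq1 0 (fun k => (csm k).trans (mle _ _ hq0 hq1 k)))
  have hV1' := (hasSum_nat_add_iff' 2).2 hV1
  rw [Finset.sum_range_succ, Finset.sum_range_succ, Finset.sum_range_zero, zero_add, csp0, csp1,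
    one_mul] at hV1'
  simp only [zero_add, Nat.reduceAdd] at hV1'
  have q1 := seqCost_ok X1 x hx0' hx1 hX1S (fun k => k + 2) LS ε (sP.drop 3) _ _ (msP.drop 3) csp
    (fun j => by ring) (wt L) wn wL (fun k => (Complex.abs_re_le_norm _).trans (lin_pow_le uL _))
    _ hV1'
  have q2 := seqCost_ok (X1 + dl) (x + δ) hq0 hqr hqS (fun k => k + 1) LS ε (sM.drop 1) _ _
    (msM.drop 1) csm (fun j => by ring) (wt L) wn wL
    (fun k => (Complex.abs_re_le_norm _).trans (lin_inv_le uL _)) _ hV2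
  -- A part
  obtain ⟨V3, V4, hV3, hV4, hVa⟩ := lin_bi L1 uL1 1 ap am
    (seqsum ap (x + δ) hq0 hq1 1 (fun k => (cap k).trans (mle _ _ hq0 hq1 k)))
    (seqsum am x hx0' hx1' 0 (fun k => (cam k).trans (mle _ _ hx0' hx1' k)))
  have hV3' := (hasSum_nat_add_iff' 1).2 hV3
  rw [Finset.sum_range_succ, Finset.sum_range_zero, zero_add, cap0, one_mul] at hV3'
  simp only [zero_add] at hV3'
  have q3 := seqCost_ok (X1 + dl) (x + δ) hq0 hqr hqS (fun k => k + 1) U1 ε (aP.drop 2) _ _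
    (maP.drop 2) cap (fun j => by ring) (wt L1) wn1 wL1
    (fun k => (Complex.abs_re_le_norm _).trans (lin_pow_le uL1 _)) _ hV3'
  have q4 := seqCost_ok X1 x hx0' hx1 hX1S (fun k => k + 1) U1 ε (aM.drop 1) _ _
    (maM.drop 1) cam (fun j => by ring) (wt L1) wn1 wL1
    (fun k => (Complex.abs_re_le_norm _).trans (lin_inv_le uL1 _)) _ hV4
  -- G part
  obtain ⟨V5, V6, hV5, hV6, hVg⟩ := lin_bi L2 uL2 x gp gm
    (seqsum gp (x + δ) hq0 hq1 1 (fun k => (cgp (k + 1)).trans (le_of_eq (by simp))))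
    (seqsum gm x hx0' hx1' 0 (fun k => (cgm k).trans (mle _ _ hx0' hx1' k)))
  have q5 := seqCost_ok (X1 + dl) (x + δ) hq0 hqr hqS (fun k => k - 1) U2 ε (gP.drop 1) _ _
    (mgP.drop 1) cgp (fun j => by rw [List.length_drop]; omega) (wt L2) wn2 wL2
    (fun k => (Complex.abs_re_le_norm _).trans (lin_pow_le uL2 _)) _ hV5
  have q6 := seqCost_ok X1 x hx0' hx1 hX1S (fun k => k + 2) U2 ε (gM.drop 1) _ _
    (mgM.drop 1) cgm (fun j => by ring) (wt L2) wn2 wL2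
    (fun k => (Complex.abs_re_le_norm _).trans (lin_inv_le uL2 _)) _ hV6
  -- H part
  obtain ⟨V7, V8, hV7, hV8, hVh⟩ := lin_bi L3 uL3 h0 hp hm
    (seqsum hp (x + δ) hq0 hq1 0 (fun k => (chp k).trans (mle 0 _ hq0 hq1 k)))
    (seqsum hm x hx0' hx1' 0 (fun k => (chm k).trans (mle 0 _ hx0' hx1' k)))
  have q7 := seqCost_ok (X1 + dl) (x + δ) hq0 hqr hqS (fun k => k) U3 ε (hP.drop 1) _ _
    (mhP.drop 1) chp (fun j => rfl) (wt L3) wn3 wL3
    (fun k => (Complex.abs_re_le_norm _).trans (lin_pow_le uL3 _)) _ hV7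
  have q8 := seqCost_ok X1 x hx0' hx1 hX1S (fun k => k) U3 ε (hM.drop 1) _ _
    (mhM.drop 1) chm (fun j => rfl) (wt L3) wn3 wL3
    (fun k => (Complex.abs_re_le_norm _).trans (lin_inv_le uL3 _)) _ hV8
  -- constants
  have t0 := abs_le.1 (msP.getD 0 (by omega))
  have t1 := abs_le.1 (msP.getD 1 (by omega))
  have t2 := msP.getD 2 (by omega)
  have t3 := abs_le.1 (maP.getD 0 (by omega))
  have t4 := abs_le.1 (maP.getD 1 (by omega))
  have t5 := mgP.getD 0 (by omega)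
  have t6 := abs_le.1 (mhP.getD 0 (by omega))
  have hxc : |x * S - (((X0 + X1) / 2 : ℕ) : ℝ)| ≤ (((X1 - X0) / 2 + 1 : ℕ) : ℝ) := by
    have k1 : X1 ≤ (X0 + X1) / 2 + ((X1 - X0) / 2 + 1) := by omega
    have k2 : (X0 + X1) / 2 ≤ X0 + ((X1 - X0) / 2 + 1) := by omega
    have k1' : (X1 : ℝ) ≤ (((X0 + X1) / 2 : ℕ) : ℝ) + (((X1 - X0) / 2 + 1 : ℕ) : ℝ) := by
      exact_mod_cast k1
    have k2' : (((X0 + X1) / 2 : ℕ) : ℝ) ≤ (X0 : ℝ) + (((X1 - X0) / 2 + 1 : ℕ) : ℝ) := by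
      exact_mod_cast k2
    rw [abs_le]
    constructor <;> linarith
  have t7 := abs_le.1 (xmul x _ _ _ _ _ hx0' hx1'.le t5 hxc)
  have t8 := abs_le.1 (xmul x _ _ _ _ _ hx0' hx1'.le t2 hxc)
  have hbS := lin_bound L uL _ _ hS1
  have hKDR : (0 : ℝ) < KD := by exact_mod_cast hKD
  have hKnn : (0 : ℝ) ≤ (KN : ℝ) / KD := by positivity
  have hbB := hV _ _ _ _ hKnn hB1
  have r1 := (Complex.re_le_norm _).trans hbS
  have r2 : ((lin L1 (Bi ((1 : ℝ) : ℂ) (rc ap) (rc am))).re +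
      (lin L2 (Bi (x : ℂ) (rc gp) (rc gm))).re + (lin L3 (Bi (h0 : ℂ) (rc hp) (rc hm))).re) * S ≤
      (KN : ℝ) / KD * w := by
    refine le_trans ?_ hbB
    apply mul_le_mul_of_nonneg_right _ hS.le
    refine le_trans (le_of_eq ?_) (Complex.re_le_norm _)
    rw [add_re, add_re]
  rw [hVs] at r1
  rw [hVa, hVg, hVh] at r2
  unfold fin3 at hc
  rw [decide_eq_true_eq] at hc
  set C1 := seqCost X1 (fun k => k + 2) LS ε (sP.drop 3)
  set C2 := seqCost (X1 + dl) (fun k => k + 1) LS ε (sM.drop 1)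
  set C3 := seqCost (X1 + dl) (fun k => k + 1) U1 ε (aP.drop 2)
  set C4 := seqCost X1 (fun k => k + 1) U1 ε (aM.drop 1)
  set C5 := seqCost (X1 + dl) (fun k => k - 1) U2 ε (gP.drop 1)
  set C6 := seqCost X1 (fun k => k + 2) U2 ε (gM.drop 1)
  set C7 := seqCost (X1 + dl) (fun k => k) U3 ε (hP.drop 1)
  set C8 := seqCost X1 (fun k => k) U3 ε (hM.drop 1)
  set xc := (X0 + X1) / 2
  set xr := (X1 - X0) / 2 + 1
  set g0 := gP.getD 0 0
  set s2 := sP.getD 2 0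
  set k0 := hP.getD 0 0
  set F1 : ℤ := (xc : ℤ) * g0 / (S : ℤ)
  set F2 : ℤ := (xc : ℤ) * s2 / (S : ℤ)
  set R1 : ℕ := xr * g0.natAbs / S
  set R2 : ℕ := xr * s2.natAbs / S
  set a00 := (lin L (fun z => z ^ 0)).re
  set a01 := (lin L (fun z => z ^ 1)).re
  set a02 := (lin L (fun z => z ^ 2)).re
  set a10 := (lin L1 (fun z => z ^ 0)).re
  set a11 := (lin L1 (fun z => z ^ 1)).re
  set a20 := (lin L2 (fun z => z ^ 0)).re
  set a30 := (lin L3 (fun z => z ^ 0)).re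
  generalize hn0 : (F2 + k0).natAbs = n0 at hc
  have hcR := (Int.cast_lt (R := ℝ)).2 hc
  have hn0R : (n0 : ℝ) = |((F2 + k0 : ℤ) : ℝ)| := by rw [← hn0, natAbs_cast]
  push_cast at hcR
  rw [hn0R] at hcR
  -- the coefficient of `h0`
  have hh : -(h0 * (x * a02 + a30)) * S ≤ |((F2 + k0 : ℤ) : ℝ)| + 1 + (R2 + 1) + 2 * ε := by
    have k1 : |(x * a02 + a30) * S| ≤ |((F2 + k0 : ℤ) : ℝ)| + 1 + (R2 + 1) + 2 * ε := by
      have k2 : |(x * a02 + a30) * S - ((F2 + k0 : ℤ) : ℝ)| ≤ 1 + (R2 + 1) + 2 * ε := by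
        rw [abs_le]
        push_cast at t8 ⊢
        constructor <;> linarith [t8.1, t8.2, t6.1, t6.2]
      have k3 := abs_add_le (((F2 + k0 : ℤ) : ℝ)) ((x * a02 + a30) * S - ((F2 + k0 : ℤ) : ℝ))
      rw [add_sub_cancel] at k3
      linarith
    calc -(h0 * (x * a02 + a30)) * S ≤ |-(h0 * (x * a02 + a30)) * S| := le_abs_self _
      _ = |h0| * |(x * a02 + a30) * S| := by
        rw [neg_mul, abs_neg, mul_assoc, abs_mul]
      _ ≤ 1 * |(x * a02 + a30) * S| := mul_le_mul_of_nonneg_right ch0 (abs_nonneg _)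
      _ ≤ _ := by rw [one_mul]; exact k1
  have n1 := (neg_le_abs (V1 - (a01 + x * h0 * a02)))
  have n2 := (neg_le_abs V2)
  have n3 := (neg_le_abs (V3 - a11))
  have n4 := (neg_le_abs V4)
  have n5 := (neg_le_abs V5)
  have n6 := (neg_le_abs V6)
  have n7 := (neg_le_abs V7)
  have n8 := (neg_le_abs V8)
  have main : (a00 + a01 + a10 + a11 + x * a20) * S ≤ (KN : ℝ) / KD * (LS + w) +
      ((C1 + C2) + (C3 + C4) + (C5 + C6) + (C7 + C8)) + -(h0 * (x * a02 + a30)) * S := by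
    have m1 := mul_le_mul_of_nonneg_right n1 hS.le
    have m2 := mul_le_mul_of_nonneg_right n2 hS.le
    have m3 := mul_le_mul_of_nonneg_right n3 hS.le
    have m4 := mul_le_mul_of_nonneg_right n4 hS.le
    have m5 := mul_le_mul_of_nonneg_right n5 hS.le
    have m6 := mul_le_mul_of_nonneg_right n6 hS.le
    have m7 := mul_le_mul_of_nonneg_right n7 hS.le
    have m8 := mul_le_mul_of_nonneg_right n8 hS.le
    have m9 := mul_le_mul_of_nonneg_right r1 hS.le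
    have m10 : (KN : ℝ) / KD * wt L * S ≤ (KN : ℝ) / KD * LS := by
      rw [mul_assoc]; exact mul_le_mul_of_nonneg_left wL hKnn
    linarith [m1, m2, m3, m4, m5, m6, m7, m8, m9, m10, q1, q2, q3, q4, q5, q6, q7, q8, r2]
  have main2 : (KD : ℝ) * ((a00 + a01 + a10 + a11 + x * a20) * S) ≤ KN * (LS + w) +
      KD * ((C1 + C2) + (C3 + C4) + (C5 + C6) + (C7 + C8) +
      (|((F2 + k0 : ℤ) : ℝ)| + 1 + (R2 + 1) + 2 * ε)) := by
    calc (KD : ℝ) * ((a00 + a01 + a10 + a11 + x * a20) * S)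
        ≤ KD * ((KN : ℝ) / KD * (LS + w) + ((C1 + C2) + (C3 + C4) + (C5 + C6) + (C7 + C8)) +
          (|((F2 + k0 : ℤ) : ℝ)| + 1 + (R2 + 1) + 2 * ε)) := by
          apply mul_le_mul_of_nonneg_left _ hKDR.le
          linarith
      _ = _ := by field_simp; ring
  have main3 : (KD : ℝ) * (sP.getD 0 0 + sP.getD 1 0 + aP.getD 0 0 + aP.getD 1 0 +
      (F1 - (R1 + 2)) - 5 * ε) ≤ KD * ((a00 + a01 + a10 + a11 + x * a20) * S) := by
    apply mul_le_mul_of_nonneg_left _ hKDR.le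
    push_cast at t7
    linarith [t0.1, t0.2, t1.1, t1.2, t3.1, t3.2, t4.1, t4.2, t7.1, t7.2]
  linarith

end Run7.h281
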