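import Pool.Agent.Run7.h281.T3c
set_option autoImplicit false

/-! Certificate checker for a vertex with gaps `e < d`, `d ≠ 2 e`: cells, complex sequences. -/

namespace Run7.h281

open Complex

/-- no functions with real coefficients -/
def No3R (K δ x : ℝ) : Prop := ∀ (h0 : ℝ) (sp sm ap am gp gm hp hm : ℕ → ℝ),
  CapR x (x + δ) h0 sp sm ap am gp gm hp hm →
  (∀ z : ℂ, ‖z‖ = 1 → ‖Bi ((1 : ℝ) : ℂ) (rc sp) (rc sm) z‖ ≤ K) →
  (∀ u : ℂ, ‖u‖ = 1 → Val K (Bi ((1 : ℝ) : ℂ) (rc ap) (rc am) u)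
      (Bi (x : ℂ) (rc gp) (rc gm) u) (Bi (h0 : ℂ) (rc hp) (rc hm) u)) → False

theorem t3cell_ok (KN KD dl X0 X1 code : ℕ) (hKD : 0 < KD) (δ : ℝ) (hδ0 : 0 ≤ δ)
    (hδ : δ * S ≤ dl) (hc : t3cell KN KD dl X0 X1 code = true) (x : ℝ) (hx0 : (X0 : ℝ) ≤ x * S)
    (hx1 : x * S ≤ X1) : No3R ((KN : ℝ) / KD) δ x := by
  intro h0 sp sm ap am gp gm hp hm hcap hS1 hB1
  simp only [t3cell, fN_eq] at hc
  set NS := code % 64 with hNS
  set NR := code / 64 % 64 with hNR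
  set c1 := code / 4294967296 with hc1
  set c2 := c1 / 2 ^ (40 * (code / 4096 % 64)) with hc2
  set c3 := c2 / 2 ^ (108 * (code / 262144 % 64)) with hc3
  set L0 := decE (code / 262144 % 64) c2 ++ decR (code / 16777216 % 256) c3 with hL0
  set s := acc (dec (code / 4096 % 64) c1) ⟨0, 0, 0, 0, 0, 0, 0⟩ with hs
  set s' := acc3 L0 ⟨0, 0, 0, 0, 0, 0, 0, 0, 0, 0, 0, 0, 0⟩ with hs'
  rcases hse : s with ⟨A, B, C, D, wx, wy, LS⟩
  rcases hse' : s' with ⟨A1, B1, u1, v1, A2, B2, u2, v2, A3, B3, u3, v3, w⟩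
  rw [hse, hse'] at hc
  simp only [Bool.and_eq_true, decide_eq_true_eq] at hc
  obtain ⟨⟨⟨⟨⟨⟨hb, hb'⟩, hqS⟩, hX01⟩, hNS64⟩, hNR64⟩, hfin⟩ := hc
  obtain ⟨L, gA, gB, gC, gD, hL⟩ := acc_ok (dec (code / 4096 % 64) c1) _ _ _ _ _ _
    AcOK.zero (by rw [← hs, hse]; exact hb)
  rw [← hs, hse] at hL
  have hTr : ∀ t ∈ L0, TrOK t := by
    intro t ht
    rw [hL0] at ht
    rcases List.mem_append.1 ht with ht | ht
    · exact decE_ok _ _ t ht
    · exact decR_ok _ _ t ht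
  obtain ⟨L1, L2, L3, f1, g1, f2, g2, f3, g3, hC1, hC2, hC3, hC4⟩ := acc3_ok L0 _ hTr Ac3OK.zero
    (by rw [← hs', hse']; exact hb')
  rw [← hs', hse'] at hC1 hC2 hC3 hC4
  simp only at hC1 hC2 hC3 hC4
  have hNS64' : NS + 1 ≤ 64 := by omega
  have hNR64' : NR + 1 ≤ 64 := by omega
  have eS : 100 * (wx + wy) ≤ 100 * (wx + wy) + 100 * ((u1 + v1) + (u2 + v2) + (u3 + v3)) := by
    omega
  have e1 : 100 * (u1 + v1) ≤ 100 * (wx + wy) + 100 * ((u1 + v1) + (u2 + v2) + (u3 + v3)) := by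
    omega
  have e2 : 100 * (u2 + v2) ≤ 100 * (wx + wy) + 100 * ((u1 + v1) + (u2 + v2) + (u3 + v3)) := by
    omega
  have e3 : 100 * (u3 + v3) ≤ 100 * (wx + wy) + 100 * ((u1 + v1) + (u2 + v2) + (u3 + v3)) := by
    omega
  have hS := S_posR
  have wbd : ∀ {L : List (ℂ × ℂ)} {u v : ℕ}, wt L ≤ u + v →
      wt L * S ≤ (((u + v) * S : ℕ) : ℝ) := by
    intro L u v h
    push_cast
    exact mul_le_mul_of_nonneg_right h hS.le
  refine fin3_ok KN KD LS w X0 X1 dl _ _ _ _ _ _ _ _ _ _ _ _ hKD δ hδ0 hδ hqS hX01 hfin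
    L L1 L2 L3 hL.uc hC1.uc hC2.uc hC3.uc hL.hl (wbd hC1.wt) (wbd hC2.wt) (wbd hC3.wt)
    (((rP_ok (NS + 3) (hL.hA.mono _ hNS64) (hL.hB.mono _ hNS64)).congr
      (fun k => by rw [hL.hP k])).mono eS)
    (((rM_ok (NS + 1) (hL.hA.mono _ hNS64') (hL.hB.mono _ hNS64')).congr
      (fun k => by rw [hL.hM k])).mono eS)
    (((rP_ok (NR + 2) (hC1.hA.mono _ hNR64) (hC1.hB.mono _ hNR64)).congr
      (fun k => by rw [hC1.hP k])).mono e1)
    (((rM_ok (NR + 1) (hC1.hA.mono _ hNR64') (hC1.hB.mono _ hNR64')).congr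
      (fun k => by rw [hC1.hM k])).mono e1)
    (((rP_ok (NR + 2) (hC2.hA.mono _ hNR64) (hC2.hB.mono _ hNR64)).congr
      (fun k => by rw [hC2.hP k])).mono e2)
    (((rM_ok (NR + 1) (hC2.hA.mono _ hNR64') (hC2.hB.mono _ hNR64')).congr
      (fun k => by rw [hC2.hM k])).mono e2)
    (((rP_ok (NR + 2) (hC3.hA.mono _ hNR64) (hC3.hB.mono _ hNR64)).congr
      (fun k => by rw [hC3.hP k])).mono e3)
    (((rM_ok (NR + 1) (hC3.hA.mono _ hNR64') (hC3.hB.mono _ hNR64')).congr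
      (fun k => by rw [hC3.hM k])).mono e3)
    (by rw [rP_len]; omega) (by rw [rP_len]; omega) (by rw [rP_len]; omega)
    (by rw [rP_len]; omega) hC4 x hx0 hx1 h0 sp sm ap am gp gm hp hm hcap hS1 hB1

/-- a list of cells -/
def t3cells (KN KD dl Xe : ℕ) : ℕ → List (ℕ × ℕ) → Bool
  | X, [] => decide (Xe ≤ X)
  | X, (X1, c) :: t => t3cell KN KD dl X X1 c && t3cells KN KD dl Xe X1 t

theorem t3cells_ok (KN KD dl Xe : ℕ) (hKD : 0 < KD) (δ : ℝ) (hδ0 : 0 ≤ δ) (hδ : δ * S ≤ dl)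
    (l : List (ℕ × ℕ)) : ∀ X, t3cells KN KD dl Xe X l = true → ∀ x : ℝ, (X : ℝ) ≤ x * S →
    x * S < Xe → No3R ((KN : ℝ) / KD) δ x := by
  induction l with
  | nil =>
    intro X h x h1 h2
    simp only [t3cells, decide_eq_true_eq] at h
    have : (Xe : ℝ) ≤ X := by exact_mod_cast h
    exact absurd h2 (by linarith)
  | cons a t ih =>
    intro X h x h1 h2
    obtain ⟨X1, c⟩ := a
    simp only [t3cells, Bool.and_eq_true] at h
    rcases le_or_gt (x * S) X1 with h3 | h3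
    · exact t3cell_ok KN KD dl X X1 c hKD δ hδ0 hδ h.1 x h1 h3
    · exact ih X1 h.2 x h3.le h2

end Run7.h281
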