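import Pool.Agent.Run7.h281.Loc
set_option autoImplicit false

/-! Two-sided picture at a vertex of the Newton polygon, its reflection, and the contradiction. -/

namespace Run7.h281

open Complex

/-- two-sided picture: index `0` is a vertex between the radii `r ≤ s`; the left gap is `e`, the
right gap is `d`; `r2` and `s2` are the next radii to the left and to the right -/
structure Two (K r2 r s s2 : ℝ) (e d : ℕ) (A : ℤ → ℂ) : Prop where
  he : 0 < e
  hd : 0 < d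
  p0 : 0 < r2
  p1 : r2 ≤ r
  p2 : r ≤ s
  p3 : s ≤ s2
  A0 : A 0 = 1
  As : ∀ k : ℤ, ‖A k‖ * s ^ k ≤ 1
  Ar : ∀ k : ℤ, ‖A k‖ * r ^ k ≤ 1
  Ad : ‖A d‖ * s ^ (d : ℤ) = 1
  Ae : ‖A (-e)‖ * r ^ (-(e : ℤ)) = 1
  At : ∀ t : ℕ, ‖A (d + t)‖ * (s ^ (d : ℤ) * s2 ^ (t : ℤ)) ≤ 1
  Al : ∀ t : ℕ, ‖A (-(e + t))‖ * (r ^ (-(e : ℤ)) * r2 ^ (-(t : ℤ))) ≤ 1
  Bs : ∀ z : ℂ, ‖z‖ = s → ‖Fz A z‖ ≤ K
  Br : ∀ z : ℂ, ‖z‖ = r → ‖Fz A z‖ ≤ K
  ss : Summable fun k : ℤ => ‖A k‖ * s ^ k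
  sr : Summable fun k : ℤ => ‖A k‖ * r ^ k
  xe : (r / s) ^ e ≤ 8159 / 10000
  xd : (r / s) ^ d ≤ 8159 / 10000

section

variable {K r2 r s s2 : ℝ} {e d : ℕ} {A : ℤ → ℂ}

theorem Fz_refl (c : ℤ → ℂ) (z : ℂ) : Fz (fun k => c (-k)) z = Fz c z⁻¹ := by
  unfold Fz
  rw [← (Equiv.neg ℤ).tsum_eq]
  refine tsum_congr fun k => ?_
  simp

theorem Two.refl (h : Two K r2 r s s2 e d A) :
    Two K s2⁻¹ s⁻¹ r⁻¹ r2⁻¹ d e (fun k => A (-k)) := by
  have r20 := h.p0
  have r0 := r20.trans_le h.p1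
  have s0 := r0.trans_le h.p2
  have s20 := s0.trans_le h.p3
  have hrs : s⁻¹ / r⁻¹ = r / s := by field_simp
  refine ⟨h.hd, h.he, inv_pos.2 s20, inv_anti₀ s0 h.p3, inv_anti₀ r0 h.p2,
    inv_anti₀ r20 h.p1, by simpa using h.A0, ?_, ?_, ?_, ?_, ?_, ?_, ?_, ?_, ?_, ?_, ?_, ?_⟩
  · intro k
    have := h.Ar (-k)
    rwa [zpow_neg, ← inv_zpow] at this
  · intro k
    have := h.As (-k)
    rwa [zpow_neg, ← inv_zpow] at this
  · have := h.Ae
    rwa [zpow_neg, ← inv_zpow] at this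
  · have := h.Ad
    simp only [neg_neg]
    rwa [zpow_neg, inv_zpow, inv_inv]
  · intro t
    have := h.Al t
    rwa [zpow_neg, zpow_neg, ← inv_zpow, ← inv_zpow] at this
  · intro t
    have := h.At t
    simp only [neg_neg]
    rwa [zpow_neg, zpow_neg, inv_zpow, inv_zpow, inv_inv, inv_inv]
  · intro z hz
    rw [Fz_refl]
    exact h.Br _ (by rw [norm_inv, hz, inv_inv])
  · intro z hz
    rw [Fz_refl]
    exact h.Bs _ (by rw [norm_inv, hz, inv_inv])
  · have := (Equiv.neg ℤ).summable_iff.2 h.sr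
    refine this.congr ?_
    intro k
    simp [Function.comp]
  · have := (Equiv.neg ℤ).summable_iff.2 h.ss
    refine this.congr ?_
    intro k
    simp [Function.comp]
  · rw [hrs]; exact h.xd
  · rw [hrs]; exact h.xe

theorem Two.loc (h : Two K r2 r s s2 e d A) (hed : e ≤ d)
    (g1 : (r2 / r) ^ e ≤ (r / s) ^ e + dlt) (g2 : (s / s2) ^ d ≤ (r / s) ^ e + dlt) :
    ∃ b, Loc K (r / s) e d b := by
  have r20 := h.p0
  have r0 := r20.trans_le h.p1
  have s0 := r0.trans_le h.p2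
  have s20 := s0.trans_le h.p3
  have q1 : r / s ≤ 1 := (div_le_one s0).2 h.p2
  have hAd0 : A d ≠ 0 := by
    intro h0
    have := h.Ad
    rw [h0, norm_zero, zero_mul] at this
    exact zero_ne_one this
  obtain ⟨ζ, hζ⟩ := IsAlgClosed.exists_pow_nat_eq (A d)⁻¹ h.hd
  have hζs : ‖ζ‖ = s := by
    have h1 : ‖ζ‖ ^ d = s ^ d := by
      rw [← norm_pow, hζ, norm_inv]
      have h2 := h.Ad
      rw [zpow_natCast] at h2
      exact (eq_inv_of_mul_eq_one_right h2).symm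
    exact (pow_left_inj₀ (norm_nonneg _) s0.le h.hd.ne').1 h1
  have hζ0 : ζ ≠ 0 := by
    intro h0
    rw [h0, norm_zero] at hζs
    exact s0.ne hζs
  have nb : ∀ k : ℤ, ‖A k * ζ ^ k‖ = ‖A k‖ * s ^ k := by
    intro k
    rw [norm_mul, norm_zpow, hζs]
  have key : ∀ {p q : ℝ} {m : ℕ} (t j : ℕ), 0 ≤ p → p ≤ 1 → p ^ m ≤ q → j * m ≤ t →
      p ^ t ≤ q ^ j := by
    intro p q m t j hp0 hp1 hpq hjt
    calc p ^ t ≤ p ^ (j * m) := pow_le_pow_of_le_one hp0 hp1 hjt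
      _ = (p ^ m) ^ j := by rw [mul_comm, pow_mul]
      _ ≤ q ^ j := pow_le_pow_left₀ (by positivity) hpq _
  refine ⟨fun k => A k * ζ ^ k, h.he, hed, by positivity, q1, ?_, ?_, ?_, ?_, ?_, ?_, ?_, ?_, ?_,
    ?_, ?_, h.xe⟩
  · simp [h.A0]
  · rw [zpow_natCast, hζ, mul_inv_cancel₀ hAd0]
  · rw [nb]
    have := h.Ae
    rw [zpow_neg, zpow_natCast] at this ⊢
    have e1 : ‖A (-(e : ℤ))‖ = r ^ e := by
      field_simp at this
      exact this
    rw [e1, div_pow, div_eq_mul_inv]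
  · exact h.ss.congr fun k => (nb k).symm
  · refine h.sr.congr fun k => ?_
    rw [norm_mul, nb, norm_zpow, Complex.norm_real, Real.norm_eq_abs,
      abs_of_pos (by positivity : 0 < r / s), div_zpow]
    field_simp
  · intro k
    rw [nb]
    exact h.As k
  · intro n
    rw [nb]
    have h1 := h.Ar (-n)
    rw [zpow_neg, zpow_natCast] at h1 ⊢
    rw [div_pow, div_eq_mul_inv]
    apply mul_le_mul_of_nonneg_right _ (by positivity)
    rwa [← div_eq_mul_inv, div_le_one (by positivity)] at h1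
  · intro t j hjt
    rw [nb]
    refine le_trans ?_ (key t j (by positivity : 0 ≤ s / s2) ((div_le_one s20).2 h.p3) g2 hjt)
    have h1 := h.At t
    rw [zpow_natCast, zpow_natCast] at h1
    have e1 : s ^ ((d : ℤ) + t) = s ^ d * s ^ t := by
      rw [zpow_add₀ s0.ne', zpow_natCast, zpow_natCast]
    rw [e1, div_pow, le_div_iff₀ (by positivity)]
    calc ‖A (d + t)‖ * (s ^ d * s ^ t) * s2 ^ t = (‖A (d + t)‖ * (s ^ d * s2 ^ t)) * s ^ t := by
          ring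
      _ ≤ 1 * s ^ t := mul_le_mul_of_nonneg_right h1 (by positivity)
      _ = s ^ t := one_mul _
  · intro t j hjt
    rw [nb]
    have h1 := h.Al t
    have e1 : s ^ (-((e : ℤ) + t)) = (s ^ (e + t))⁻¹ := by
      rw [zpow_neg]
      norm_cast
    rw [e1]
    rw [zpow_neg, zpow_neg, zpow_natCast, zpow_natCast] at h1
    have h2 : ‖A (-(e + t))‖ ≤ r ^ e * r2 ^ t := by
      rwa [← mul_inv, ← div_eq_mul_inv, div_le_one (by positivity)] at h1
    have h3 := key t j (by positivity : 0 ≤ r2 / r) ((div_le_one r0).2 h.p1) g1 hjt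
    calc ‖A (-(e + t))‖ * (s ^ (e + t))⁻¹ ≤ r ^ e * r2 ^ t * (s ^ (e + t))⁻¹ :=
          mul_le_mul_of_nonneg_right h2 (by positivity)
      _ = (r2 / r) ^ t * (r / s) ^ (e + t) := by
          rw [div_pow, div_pow, pow_add r]
          field_simp
      _ ≤ _ := mul_le_mul_of_nonneg_right h3 (by positivity)
  · intro u hu
    rw [Fz_twist]
    exact h.Bs _ (by rw [norm_mul, hu, hζs, mul_one])
  · intro u hu
    rw [Fz_twist, Fz_twist]
    refine h.Br _ ?_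
    rw [norm_mul, norm_mul, hu, hζs, Complex.norm_real, Real.norm_eq_abs,
      abs_of_pos (by positivity : 0 < r / s)]
    field_simp

theorem Two.false (h : Two (80 / 49) r2 r s s2 e d A)
    (g1 : (r2 / r) ^ e ≤ (r / s) ^ (min e d) + dlt)
    (g2 : (s / s2) ^ d ≤ (r / s) ^ (min e d) + dlt) : False := by
  have r20 := h.p0
  have r0 := r20.trans_le h.p1
  have s0 := r0.trans_le h.p2
  have s20 := s0.trans_le h.p3
  rcases le_total e d with hed | hed
  · rw [min_eq_left hed] at g1 g2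
    obtain ⟨b, hb⟩ := h.loc hed g1 g2
    exact hb.false
  · rw [min_eq_right hed] at g1 g2
    have hrs : s⁻¹ / r⁻¹ = r / s := by field_simp
    have e1 : s2⁻¹ / s⁻¹ = s / s2 := by field_simp
    have e2 : r⁻¹ / r2⁻¹ = r2 / r := by field_simp
    obtain ⟨b, hb⟩ := h.refl.loc hed (by rw [hrs, e1]; exact g2) (by rw [hrs, e2]; exact g1)
    exact hb.false

end

end Run7.h281
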